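import Mathlib
import Pool.Agent.Lib.MP_14ee70_nt.TY.Defs3
import Pool.Agent.Lib.MP_14ee70_nt.TY.Four

/-!
# Project TY, file P/Mean: the mean value theorem for laws of integers without large multiplicities

`Q = h H`.  Hypotheses: `p` lives on the `z` which have an integer position `t`, `(t : ZMod Q) = xG z`, `|t - H log n| ≤ w`
(`n = z.2`), `nmin ≤ n`, `log n ≤ h/2`; `P(z.2 = n) ≤ E/n` for `n > 0`; `0 ≤ w ≤ Q/16`.
`window_le`: for every `x` and `W ≤ Q/8` (`W ≥ 1`): `P(xG ∈ x + {0..W-1}) ≤ E (1/nmin + (W + 2w)/H)`.  Any two integer positions `t, t'` as above,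
both with class in the window, satisfy `|t - t'| < W`: `t - t' ≡ d mod Q`, `|d| < W`, and
`|t - t'| ≤ Q/2 + 2w`, so `|t - t' - d| < Q`.  Hence `H |log n - log n'| ≤ W + 2w`: all the `n` that occur lie in `[n1, n1 exp((W+2w)/H)]`
with `n1 ≥ nmin` (the least one that occurs with positive probability), and `∑ 1/n ≤ 1/n1 + log (ratio)`.
`mean_value`: `W = ⌊Q/(8 R1)⌋ ≥ 2`, `W ≥ Q/(16 R1)`.  For `|r0| ≤ R1`: `nrm r * W ≤ 1/8`, so `|∑_{x<W} ch (r x)| ≥ W/2`
(`norm_win_ge`).  Parseval for `x ↦ P(xG ∈ x - {0..W-1}) = cnv pm 1_{window}`: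
`∑_{|r0| ≤ R1} |chf|^2 ≤ (4/W^2) Q ∑_x P(..)^2 ≤ (4/W^2) Q max · W ≤ (4Q/W) E (1/nmin + (W+2w)/H) ≤ 128 E (R1/nmin + h + R1 w/H)`.
`mean_all`: `∑_r |chf|^2 = Q ∑ pm^2 ≤ Q max pm ≤ Q E (1/nmin + (1+2w)/H)` (window with `W = 1`).
-/

namespace MP14ee70.TY

open Finset

variable {Q : ℕ} [NeZero Q]

/-- The hypothesis on the support in the mean value theorem. -/
def NearG (h H : ℕ) (w nmin : ℝ) (z : GN Q) : Prop :=
  (∃ t : ℤ, (t : ZMod Q) = xG z ∧ |(t : ℝ) - H * Real.log z.2| ≤ w) ∧ nmin ≤ (z.2 : ℝ) ∧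
    Real.log z.2 ≤ h / 2

private theorem mean_tele (m n : ℕ) (hm : 0 < m) (hmn : m ≤ n) :
    ∑ i ∈ Finset.Ioc m n, 1 / (i : ℝ) ≤ Real.log n - Real.log m := by
  induction n, hmn using Nat.le_induction with
  | base => simp
  | succ n hn ih =>
    rw [Finset.sum_Ioc_succ_top hn]
    have hn0 : (0 : ℝ) < n := by exact_mod_cast hm.trans_le hn
    have h1 : 1 / ((n + 1 : ℕ) : ℝ) ≤ Real.log ((n + 1 : ℕ) : ℝ) - Real.log n := by
      have h2 := Real.log_le_sub_one_of_pos (show (0 : ℝ) < n / ((n + 1 : ℕ) : ℝ) by positivity)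
      rw [Real.log_div hn0.ne' (by positivity)] at h2
      have h3 : (n : ℝ) / ((n + 1 : ℕ) : ℝ) - 1 = - (1 / ((n + 1 : ℕ) : ℝ)) := by
        push_cast
        field_simp
        ring
      rw [h3] at h2
      linarith
    linarith

private theorem mean_close (h H : ℕ) (hQ : Q = h * H) (w nmin : ℝ) (hw : w ≤ Q / 16) (W : ℕ) (hW8 : (W : ℝ) ≤ Q / 8) (x : ZMod Q) (z z' : GN Q)
    (hz : NearG h H w nmin z) (hz' : NearG h H w nmin z')
    (hx : ∃ i < W, xG z = x + (i : ZMod Q)) (hx' : ∃ i < W, xG z' = x + (i : ZMod Q)) :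
    Real.log z.2 - Real.log z'.2 ≤ (W + 2 * w) / H := by
  obtain ⟨⟨t, ht, ht2⟩, hn1, hh1⟩ := hz
  obtain ⟨⟨t', ht', ht2'⟩, hn1', hh1'⟩ := hz'
  obtain ⟨i, hi, hxi⟩ := hx
  obtain ⟨i', hi', hxi'⟩ := hx'
  have hQ0 : (0 : ℝ) < Q := by exact_mod_cast Nat.pos_of_ne_zero (NeZero.ne Q)
  have hH0 : (0 : ℝ) < H := by
    have h1 : H ≠ 0 := by
      rintro rfl
      exact NeZero.ne Q (by rw [hQ, mul_zero])
    exact_mod_cast Nat.pos_of_ne_zero h1
  have hQr : (Q : ℝ) = h * H := by exact_mod_cast hQ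
  have hl0 : 0 ≤ Real.log z.2 := Real.log_natCast_nonneg _
  have hl0' : 0 ≤ Real.log z'.2 := Real.log_natCast_nonneg _
  rw [abs_le] at ht2 ht2'
  have hb1 : (H : ℝ) * Real.log z.2 ≤ Q / 2 := by
    have := mul_le_mul_of_nonneg_left hh1 hH0.le
    rw [hQr]; linarith
  have hb2 : (H : ℝ) * Real.log z'.2 ≤ Q / 2 := by
    have := mul_le_mul_of_nonneg_left hh1' hH0.le
    rw [hQr]; linarith
  have hb3 : 0 ≤ (H : ℝ) * Real.log z.2 := by positivity
  have hb4 : 0 ≤ (H : ℝ) * Real.log z'.2 := by positivity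
  have hiW : (i : ℝ) < W := by exact_mod_cast hi
  have hiW' : (i' : ℝ) < W := by exact_mod_cast hi'
  have hi0 : (0 : ℝ) ≤ i := Nat.cast_nonneg i
  have hi0' : (0 : ℝ) ≤ i' := Nat.cast_nonneg i'
  have hmod : ((t - t' - ((i : ℤ) - i') : ℤ) : ZMod Q) = 0 := by
    push_cast
    rw [ht, ht', hxi, hxi']
    ring
  rw [ZMod.intCast_zmod_eq_zero_iff_dvd] at hmod
  have habs : |t - t' - ((i : ℤ) - i')| < (Q : ℤ) := by
    have : |((t - t' - ((i : ℤ) - i') : ℤ) : ℝ)| < (Q : ℝ) := by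
      rw [abs_lt]
      push_cast
      constructor <;> linarith
    exact_mod_cast this
  have hzero := Int.eq_zero_of_abs_lt_dvd hmod habs
  have heq : (t : ℝ) - t' = (i : ℝ) - i' := by
    have : t - t' = (i : ℤ) - i' := by omega
    exact_mod_cast this
  rw [le_div_iff₀ hH0]
  linarith

theorem window_le (h H : ℕ) (hQ : Q = h * H) (w nmin E : ℝ) (hw0 : 0 ≤ w) (hw : w ≤ Q / 16)
    (hn : 1 ≤ nmin) (hE : 0 ≤ E) (p : Law (GN Q)) (hp : p.Supp (NearG h H w nmin))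
    (hpm : ∀ n : ℕ, 0 < n → (Law.map Prod.snd p).pm n ≤ E / n) (W : ℕ) (hW : 1 ≤ W)
    (hW8 : (W : ℝ) ≤ Q / 8) (x : ZMod Q) :
    p.P (fun z => ∃ i < W, xG z = x + (i : ZMod Q)) ≤ E * (1 / nmin + (W + 2 * w) / H) := by
  classical
  have hH0 : (0 : ℝ) < H := by
    have h1 : H ≠ 0 := by
      rintro rfl
      exact NeZero.ne Q (by rw [hQ, mul_zero])
    exact_mod_cast Nat.pos_of_ne_zero h1
  have hW0 : (0 : ℝ) ≤ W := Nat.cast_nonneg W
  set S : Finset ℕ := (Finset.Icc 1 ⌊Real.exp ((h : ℝ) / 2)⌋₊).filter (fun n =>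
    ∃ z : GN Q, NearG h H w nmin z ∧ (∃ i < W, xG z = x + (i : ZMod Q)) ∧ z.2 = n) with hS
  have hstep : p.P (fun z => ∃ i < W, xG z = x + (i : ZMod Q))
      ≤ ∑ n ∈ S, (Law.map Prod.snd p).pm n := by
    have e1 : ∑ n ∈ S, (Law.map Prod.snd p).pm n
        = p.E (fun z => ∑ n ∈ S, (if z.2 = n then (1 : ℝ) else 0)) := by
      rw [Law.E_sum]
      refine Finset.sum_congr rfl fun n _ => ?_
      unfold Law.pm
      rw [Law.map_E]
      congr 1
      funext z
      split_ifs <;> rfl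
    rw [e1]
    unfold Law.P
    refine hp.E_mono fun z hz => ?_
    by_cases hc : ∃ i < W, xG z = x + (i : ZMod Q)
    · rw [if_pos hc, Finset.sum_ite_eq, if_pos]
      rw [hS, Finset.mem_filter, Finset.mem_Icc]
      have hz1 : (1 : ℝ) ≤ z.2 := hn.trans hz.2.1
      refine ⟨⟨by exact_mod_cast hz1, ?_⟩, z, hz, hc, rfl⟩
      apply Nat.le_floor
      rw [← Real.log_le_iff_le_exp (by linarith)]
      exact hz.2.2
    · rw [if_neg hc]
      exact Finset.sum_nonneg fun n _ => by split_ifs <;> norm_num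
  refine hstep.trans ?_
  have hSpos : ∀ n ∈ S, 0 < n := by
    intro n hn'
    rw [hS, Finset.mem_filter, Finset.mem_Icc] at hn'
    omega
  refine (Finset.sum_le_sum fun n hn' => hpm n (hSpos n hn')).trans ?_
  have e2 : ∑ n ∈ S, E / (n : ℝ) = E * ∑ n ∈ S, 1 / (n : ℝ) := by
    rw [Finset.mul_sum]
    exact Finset.sum_congr rfl fun n _ => by ring
  rw [e2]
  refine mul_le_mul_of_nonneg_left ?_ hE
  rcases S.eq_empty_or_nonempty with hemp | hne
  · rw [hemp, Finset.sum_empty]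
    positivity
  · have hmin := S.min'_mem hne
    have hmax := S.max'_mem hne
    have hle : S.min' hne ≤ S.max' hne := S.min'_le _ hmax
    have hmin0 := hSpos _ hmin
    have hsub : S ⊆ insert (S.min' hne) (Finset.Ioc (S.min' hne) (S.max' hne)) := by
      intro n hn'
      rw [Finset.mem_insert, Finset.mem_Ioc]
      have h1 := S.min'_le n hn'
      have h2 := S.le_max' n hn'
      omega
    have hsum : ∑ n ∈ S, 1 / (n : ℝ) ≤ 1 / (S.min' hne : ℝ)
        + ∑ n ∈ Finset.Ioc (S.min' hne) (S.max' hne), 1 / (n : ℝ) := by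
      refine (Finset.sum_le_sum_of_subset_of_nonneg hsub fun i _ _ => by positivity).trans_eq ?_
      rw [Finset.sum_insert]
      simp
    refine hsum.trans ?_
    have h3 := mean_tele _ _ hmin0 hle
    have hSmem : ∀ n ∈ S, ∃ z : GN Q, NearG h H w nmin z ∧ (∃ i < W, xG z = x + (i : ZMod Q)) ∧
        z.2 = n := by
      intro n hn'
      rw [hS, Finset.mem_filter] at hn'
      exact hn'.2
    obtain ⟨z, hz, hxz, hz2⟩ := hSmem _ hmin
    obtain ⟨z', hz', hxz', hz2'⟩ := hSmem _ hmax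
    have h4 := mean_close h H hQ w nmin hw W hW8 x z' z hz' hz hxz' hxz
    rw [hz2, hz2'] at h4
    have h5 : 1 / (S.min' hne : ℝ) ≤ 1 / nmin := by
      refine one_div_le_one_div_of_le (by linarith) ?_
      rw [← hz2]
      exact hz.2.1
    linarith

omit [NeZero Q] in
private theorem mean_sum_pm_le (p : Law (GN Q)) (W : ℕ) (hW : W ≤ Q) (x : ZMod Q) :
    ∑ i ∈ Finset.range W, (Law.map xG p).pm (x + (i : ZMod Q))
      ≤ p.P (fun z => ∃ i < W, xG z = x + (i : ZMod Q)) := by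
  classical
  have e1 : ∑ i ∈ Finset.range W, (Law.map xG p).pm (x + (i : ZMod Q))
      = p.E (fun z => ∑ i ∈ Finset.range W, (if xG z = x + (i : ZMod Q) then (1 : ℝ) else 0)) := by
    rw [Law.E_sum]
    refine Finset.sum_congr rfl fun n _ => ?_
    unfold Law.pm
    rw [Law.map_E]
    congr 1
    funext z
    split_ifs <;> rfl
  rw [e1]
  unfold Law.P
  refine p.E_mono fun z => ?_
  by_cases hc : ∃ i < W, xG z = x + (i : ZMod Q)
  · rw [if_pos hc]
    obtain ⟨i, hi, hxi⟩ := hc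
    rw [Finset.sum_eq_single_of_mem i (Finset.mem_range.2 hi)]
    · split_ifs <;> norm_num
    · intro j hj hji
      rw [if_neg]
      intro hxj
      apply hji
      rw [Finset.mem_range] at hj
      have h1 : ((j : ℕ) : ZMod Q) = (i : ZMod Q) := by
        rw [hxi] at hxj
        exact (add_left_cancel hxj).symm
      rw [ZMod.natCast_eq_natCast_iff'] at h1
      rwa [Nat.mod_eq_of_lt (by omega), Nat.mod_eq_of_lt (by omega)] at h1
  · rw [if_neg hc]
    refine (Finset.sum_eq_zero fun i hi => ?_).le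
    rw [if_neg]
    intro hxi
    exact hc ⟨i, Finset.mem_range.1 hi, hxi⟩

theorem mean_value (h H : ℕ) (hQ : Q = h * H) (w nmin E : ℝ) (hw0 : 0 ≤ w) (hw : w ≤ Q / 16)
    (hn : 1 ≤ nmin) (hE : 0 ≤ E) (p : Law (GN Q)) (hp : p.Supp (NearG h H w nmin))
    (hpm : ∀ n : ℕ, 0 < n → (Law.map Prod.snd p).pm n ≤ E / n) (R1 : ℝ) (hR1 : 1 ≤ R1)
    (hR2 : R1 ≤ Q / 16) :
    ∑ r ∈ (Finset.univ : Finset (ZMod Q)).filter (fun r => |(r.valMinAbs : ℝ)| ≤ R1), ‖chf p r‖ ^ 2
      ≤ 128 * E * (R1 / nmin + h + R1 * w / H) := by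
  classical
  have hQ0 : (0 : ℝ) < Q := by exact_mod_cast Nat.pos_of_ne_zero (NeZero.ne Q)
  have hH0 : (0 : ℝ) < H := by
    have h1 : H ≠ 0 := by
      rintro rfl
      exact NeZero.ne Q (by rw [hQ, mul_zero])
    exact_mod_cast Nat.pos_of_ne_zero h1
  have hQr : (Q : ℝ) = h * H := by exact_mod_cast hQ
  have hR0 : 0 < R1 := by linarith
  set W : ℕ := ⌊(Q : ℝ) / (8 * R1)⌋₊ with hWdef
  have hW1 : (W : ℝ) ≤ Q / (8 * R1) := Nat.floor_le (by positivity)
  have hx2 : 2 ≤ (Q : ℝ) / (8 * R1) := by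
    rw [le_div_iff₀ (by positivity)]
    linarith
  have hW2 : (Q : ℝ) / (16 * R1) ≤ W := by
    have h1 := (Nat.lt_floor_add_one ((Q : ℝ) / (8 * R1))).le
    have h2 : (Q : ℝ) / (8 * R1) = Q / (16 * R1) + Q / (16 * R1) := by field_simp; ring
    rw [← hWdef] at h1
    linarith
  have hWone : 1 ≤ W := Nat.le_floor (by push_cast; linarith)
  have hWpos : (0 : ℝ) < W := by exact_mod_cast hWone
  have hW8 : (W : ℝ) ≤ Q / 8 := by
    refine hW1.trans ?_
    exact div_le_div_of_nonneg_left hQ0.le (by norm_num) (by linarith)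
  have hWQ : W ≤ Q := by
    have : (W : ℝ) ≤ Q := by linarith
    exact_mod_cast this
  set G : ℝ := E * (1 / nmin + (W + 2 * w) / H) with hG
  have hG0 : 0 ≤ G := by positivity
  set g : ZMod Q → ℝ := fun x => ∑ i ∈ Finset.range W, (Law.map xG p).pm (x + (i : ZMod Q)) with hg
  have hg0 : ∀ x, 0 ≤ g x := fun x => Finset.sum_nonneg fun i _ => Law.pm_nonneg _ _
  have hgG : ∀ x, g x ≤ G := fun x => (mean_sum_pm_le p W hWQ x).trans
    (window_le h H hQ w nmin E hw0 hw hn hE p hp hpm W hWone hW8 x)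
  have hgsum : ∑ x, g x = W := by
    rw [hg]
    rw [Finset.sum_comm]
    have : ∀ i ∈ Finset.range W, ∑ x : ZMod Q, (Law.map xG p).pm (x + (i : ZMod Q)) = 1 := by
      intro i _
      rw [← (Law.map xG p).sum_pm]
      exact Fintype.sum_equiv (Equiv.addRight (i : ZMod Q)) _ _ fun x => rfl
    rw [Finset.sum_congr rfl this, Finset.sum_const, Finset.card_range, nsmul_eq_mul, mul_one]
  have hft : ∀ r, ‖ft g r‖ = ‖∑ x ∈ Finset.range W, ch (r * (x : ZMod Q))‖ * ‖chf p r‖ := by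
    intro r
    have e1 : ft g r = ∑ i ∈ Finset.range W, ft (fun x => (Law.map xG p).pm (x + (i : ZMod Q))) r := by
      unfold ft
      rw [Finset.sum_comm]
      refine Finset.sum_congr rfl fun x _ => ?_
      rw [hg]
      push_cast
      rw [Finset.sum_mul]
    have e2 : ft (Law.map xG p).pm r = chf p r := by
      rw [ft_pm, Law.map_EC]
      rfl
    rw [e1]
    simp_rw [ft_shift, ch_neg]
    rw [← Finset.sum_mul, ← map_sum, norm_mul, RCLike.norm_conj, e2]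
  have hpars := parseval g
  have hsq : ∑ x, g x ^ 2 ≤ G * W := by
    rw [← hgsum, Finset.mul_sum]
    refine Finset.sum_le_sum fun x _ => ?_
    rw [pow_two]
    exact mul_le_mul_of_nonneg_right (hgG x) (hg0 x)
  have hmain : ∑ r ∈ (Finset.univ : Finset (ZMod Q)).filter (fun r => |(r.valMinAbs : ℝ)| ≤ R1),
      (W / 2 : ℝ) ^ 2 * ‖chf p r‖ ^ 2 ≤ Q * (G * W) := by
    calc _ ≤ ∑ r ∈ (Finset.univ : Finset (ZMod Q)).filter (fun r => |(r.valMinAbs : ℝ)| ≤ R1),
          ‖ft g r‖ ^ 2 := by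
          refine Finset.sum_le_sum fun r hr => ?_
          rw [Finset.mem_filter] at hr
          rw [hft, mul_pow]
          refine mul_le_mul_of_nonneg_right ?_ (by positivity)
          refine pow_le_pow_left₀ (by positivity) (norm_win_ge W r ?_) 2
          unfold nrm
          calc |(r.valMinAbs : ℝ)| / Q * W ≤ R1 / Q * (Q / (8 * R1)) :=
                mul_le_mul (div_le_div_of_nonneg_right hr.2 hQ0.le) hW1 hWpos.le (by positivity)
            _ = 1 / 8 := by field_simp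
      _ ≤ ∑ r, ‖ft g r‖ ^ 2 := Finset.sum_le_sum_of_subset_of_nonneg (Finset.filter_subset _ _)
          fun i _ _ => by positivity
      _ = Q * ∑ x, g x ^ 2 := hpars
      _ ≤ Q * (G * W) := mul_le_mul_of_nonneg_left hsq hQ0.le
  rw [← Finset.mul_sum] at hmain
  set T := ∑ r ∈ (Finset.univ : Finset (ZMod Q)).filter (fun r => |(r.valMinAbs : ℝ)| ≤ R1),
    ‖chf p r‖ ^ 2 with hT
  have hT1 : T * W ≤ 4 * Q * G := by
    have h1 : (W : ℝ) * (T * W) ≤ W * (4 * Q * G) := by nlinarith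
    exact le_of_mul_le_mul_left h1 hWpos
  have hT0 : 0 ≤ T := Finset.sum_nonneg fun i _ => by positivity
  have hT2 : T ≤ 64 * R1 * G := by
    have h1 : T * (Q / (16 * R1)) ≤ 4 * Q * G := (mul_le_mul_of_nonneg_left hW2 hT0).trans hT1
    have h2 : T * (Q / (16 * R1)) = (Q / (16 * R1)) * T := mul_comm _ _
    have h3 : 4 * Q * G = (Q / (16 * R1)) * (64 * R1 * G) := by field_simp; ring
    rw [h2, h3] at h1
    exact le_of_mul_le_mul_left h1 (by positivity)
  refine hT2.trans ?_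
  have h1 : R1 * (W / H) ≤ h / 8 := by
    calc R1 * (W / H) ≤ R1 * (Q / (8 * R1) / H) :=
          mul_le_mul_of_nonneg_left (div_le_div_of_nonneg_right hW1 hH0.le) hR0.le
      _ = h / 8 := by rw [hQr]; field_simp
  have h2 : 64 * R1 * G = 64 * E * (R1 / nmin + R1 * (W / H) + 2 * (R1 * w / H)) := by
    rw [hG]; ring
  rw [h2]
  have h3 : (0 : ℝ) ≤ h := Nat.cast_nonneg h
  have h4 : 0 ≤ R1 / nmin := by positivity
  have h5 : 0 ≤ R1 * w / H := by positivity
  calc 64 * E * (R1 / nmin + R1 * (W / H) + 2 * (R1 * w / H))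
      ≤ 64 * E * (2 * (R1 / nmin + h + R1 * w / H)) :=
        mul_le_mul_of_nonneg_left (by linarith) (by positivity)
    _ = 128 * E * (R1 / nmin + h + R1 * w / H) := by ring

theorem mean_all (h H : ℕ) (hQ : Q = h * H) (w nmin E : ℝ) (hw0 : 0 ≤ w) (hw : w ≤ Q / 16)
    (hQ8 : 8 ≤ Q) (hn : 1 ≤ nmin) (hE : 0 ≤ E) (p : Law (GN Q)) (hp : p.Supp (NearG h H w nmin))
    (hpm : ∀ n : ℕ, 0 < n → (Law.map Prod.snd p).pm n ≤ E / n) :
    ∑ r : ZMod Q, ‖chf p r‖ ^ 2 ≤ Q * E * (1 / nmin + (1 + 2 * w) / H) := by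
  have hQ0 : (0 : ℝ) < Q := by exact_mod_cast Nat.pos_of_ne_zero (NeZero.ne Q)
  have hQ8' : (8 : ℝ) ≤ Q := by exact_mod_cast hQ8
  have e2 : ∀ r, chf p r = ft (Law.map xG p).pm r := by
    intro r
    rw [ft_pm, Law.map_EC]
    rfl
  simp_rw [e2]
  rw [parseval, mul_assoc]
  refine mul_le_mul_of_nonneg_left ?_ hQ0.le
  have hmax : ∀ x, (Law.map xG p).pm x ≤ E * (1 / nmin + (1 + 2 * w) / H) := by
    intro x
    have h1 := mean_sum_pm_le p 1 (by omega) x
    have h2 := window_le h H hQ w nmin E hw0 hw hn hE p hp hpm 1 le_rfl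
      (by push_cast; linarith) x
    have h3 := h1.trans h2
    rw [Finset.sum_range_one, Nat.cast_zero, add_zero, Nat.cast_one] at h3
    exact h3
  calc ∑ x, (Law.map xG p).pm x ^ 2
      ≤ ∑ x, (E * (1 / nmin + (1 + 2 * w) / H)) * (Law.map xG p).pm x := by
        refine Finset.sum_le_sum fun x _ => ?_
        rw [pow_two]
        exact mul_le_mul_of_nonneg_right (hmax x) (Law.pm_nonneg _ _)
    _ = E * (1 / nmin + (1 + 2 * w) / H) := by rw [← Finset.mul_sum, Law.sum_pm, mul_one]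

end MP14ee70.TY
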