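import Mathlib
import Pool.Agent.Lib.MP_14ee70_nt.TY.Defs3
import Pool.Agent.Lib.MP_14ee70_nt.TY.Four
import Pool.Agent.Lib.MP_14ee70_nt.TY.F.Mu

/-!
# Project TY, file P/Basic: the random product, first facts

`LamData` collects what is known on `Lam`.
`Z0_bounds`: `∑_{y^(1/4) < m ≤ y} 1/m ≥ (3/4) log y - 1`; the integers with `Ω > K0 L` contribute at most
`∑_{i} 2^(i+1)/y · (y/2^i) / L^10 ≤ 4 (log y + 1)/L^10` (dyadic intervals, `omega_count` with `Z = L`, `z = y/2^i`), so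
`1 ≤ Z0 ≤ log y + 1 ≤ L`.
`chf_stp`: `chf stp r = nu r`.  `chf_TLaw`: multiplicativity (`Law.mul_EC_hom`, `Law.pow_EC_hom`).
-/

namespace MP14ee70.TY

open Finset

/-- What is known on the forward law `Lam`. -/
structure LamData (N k : ℕ) (L y η : ℝ) (hA : (AA L y η).Nonempty) (B : ℝ) (r : ℕ)
    (Lam : Law (GN (QQ N L))) : Prop where
  hB1 : 1 ≤ B
  hB2 : B ≤ L ^ 2
  hr : 4 * r ≤ k
  dom : Law.Dom (2 * B ^ r) Lam (stp (AA L y η) hA (val N (QQ N L)) ^ r)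

theorem AA_nonempty : ∃ C : ℝ, ∀ (N k : ℕ) (L y η : ℝ), RegF C N k L y η → (AA L y η).Nonempty := by
  obtain ⟨C, hC⟩ := card_MM
  refine ⟨C, fun N k L y η h => ?_⟩
  have h1 := hC N k L y η h
  have hy := h.ypos
  have h2 : (0 : ℝ) < (MM y (K0 L)).card := by linarith
  have h3 : (MM y (K0 L)).Nonempty := Finset.card_pos.1 (by exact_mod_cast h2)
  have hη := h.η_pos
  have h4 : 0 < Rn η := Nat.ceil_pos.2 (by positivity)
  exact h3.product ⟨0, Finset.mem_range.2 h4⟩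

theorem QQ_pos : ∃ C : ℝ, ∀ (N k : ℕ) (L y η : ℝ), RegF C N k L y η → 0 < QQ N L := by
  refine ⟨1, fun N k L y η h => ?_⟩
  have hL := h.one_le_L
  have hN := h.one_le_N
  have h1 : 0 < hh L := Nat.ceil_pos.2 (by positivity)
  have h2 : 0 < HH N := pow_pos (by omega) 2
  exact Nat.mul_pos h1 h2

private theorem basic_abel (P : ℕ → Prop) [DecidablePred P] (c : ℝ) (M : ℕ)
    (hB : ∀ j ∈ Finset.Icc 1 M, (((Finset.Icc 1 j).filter P).card : ℝ) ≤ c * j) :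
    ∑ m ∈ (Finset.Icc 1 M).filter P, 1 / (m : ℝ)
      ≤ c * ∑ m ∈ Finset.Icc 1 M, 1 / (m : ℝ) + (((Finset.Icc 1 M).filter P).card : ℝ) / (M + 1) := by
  induction M with
  | zero => simp
  | succ M ih =>
    have ih' := ih fun j hj => hB j (Finset.Icc_subset_Icc_right (Nat.le_succ M) hj)
    have hM := hB (M + 1) (Finset.mem_Icc.2 ⟨by omega, le_rfl⟩)
    have hI : Finset.Icc 1 (M + 1) = insert (M + 1) (Finset.Icc 1 M) := by
      ext m
      rw [Finset.mem_insert, Finset.mem_Icc, Finset.mem_Icc]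
      omega
    have hnot : M + 1 ∉ Finset.Icc 1 M := by
      rw [Finset.mem_Icc]; omega
    have hnot' : M + 1 ∉ (Finset.Icc 1 M).filter P := fun h => hnot (Finset.mem_filter.1 h).1
    have hM1 : (0 : ℝ) < (M : ℝ) + 1 := by positivity
    have hc : 0 ≤ c := by
      have h1 : (0 : ℝ) ≤ c * ((M + 1 : ℕ) : ℝ) := le_trans (Nat.cast_nonneg _) hM
      have h2 : (0 : ℝ) < ((M + 1 : ℕ) : ℝ) := by positivity
      exact nonneg_of_mul_nonneg_left h1 h2
    rw [hI] at hM ⊢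
    rw [Finset.sum_insert hnot]
    rw [Finset.filter_insert] at hM ⊢
    by_cases hP : P (M + 1)
    · rw [if_pos hP] at hM ⊢
      rw [Finset.sum_insert hnot', Finset.card_insert_of_notMem hnot']
      rw [Finset.card_insert_of_notMem hnot'] at hM
      push_cast at hM ⊢
      set b : ℝ := (((Finset.Icc 1 M).filter P).card : ℝ)
      set S := ∑ m ∈ Finset.Icc 1 M, 1 / (m : ℝ)
      have e1 : b / (M + 1) + 1 / ((M : ℝ) + 1) ≤ c * (1 / ((M : ℝ) + 1)) + (b + 1) / (M + 1 + 1) := by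
        have e2 : b / (M + 1) + 1 / ((M : ℝ) + 1) - (b + 1) / (M + 1 + 1)
            = (b + 1) / ((M + 1) * (M + 1 + 1)) := by field_simp; ring
        have e3 : (b + 1) / (((M : ℝ) + 1) * (M + 1 + 1)) ≤ c * (1 / ((M : ℝ) + 1)) := by
          rw [div_le_iff₀ (by positivity)]
          have e4 : c * (1 / ((M : ℝ) + 1)) * (((M : ℝ) + 1) * (M + 1 + 1)) = c * (M + 1 + 1) := by
            field_simp
          rw [e4]
          linarith
        linarith
      linarith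
    · rw [if_neg hP] at hM ⊢
      push_cast at hM ⊢
      set b : ℝ := (((Finset.Icc 1 M).filter P).card : ℝ)
      set S := ∑ m ∈ Finset.Icc 1 M, 1 / (m : ℝ)
      have e1 : b / (M + 1) ≤ c * (1 / ((M : ℝ) + 1)) + b / (M + 1 + 1) := by
        have e2 : b / (M + 1) - b / (M + 1 + 1) = b / ((M + 1) * (M + 1 + 1)) := by
          field_simp; ring
        have e3 : b / (((M : ℝ) + 1) * (M + 1 + 1)) ≤ c * (1 / ((M : ℝ) + 1)) := by
          rw [div_le_iff₀ (by positivity)]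
          have e4 : c * (1 / ((M : ℝ) + 1)) * (((M : ℝ) + 1) * (M + 1 + 1)) = c * (M + 1 + 1) := by
            field_simp
          rw [e4]
          linarith
        linarith
      linarith

private theorem basic_harm (y : ℝ) (hy : 1 ≤ y) :
    ∑ m ∈ Finset.Icc 1 ⌊y⌋₊, 1 / (m : ℝ) ≤ 1 + Real.log y := by
  have h1 := harmonic_le_one_add_log ⌊y⌋₊
  rw [harmonic_eq_sum_Icc] at h1
  push_cast at h1
  have h2 : 1 ≤ ⌊y⌋₊ := (Nat.one_le_floor_iff _).2 hy
  have h3 : Real.log (⌊y⌋₊ : ℝ) ≤ Real.log y :=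
    Real.log_le_log (by exact_mod_cast h2) (Nat.floor_le (by linarith))
  have h4 : ∑ m ∈ Finset.Icc 1 ⌊y⌋₊, 1 / (m : ℝ) = ∑ m ∈ Finset.Icc 1 ⌊y⌋₊, (m : ℝ)⁻¹ :=
    Finset.sum_congr rfl fun m _ => one_div _
  rw [h4]
  linarith

private theorem basic_logy {C : ℝ} (hC : 1000 ≤ C) {N k : ℕ} {L y η : ℝ} (h : RegF C N k L y η) :
    1000 ≤ Real.log y ∧ 2 + Real.log y ≤ L := by
  have hk1 : (1 : ℝ) ≤ k := by exact_mod_cast h.one_le_k
  have hk : (1000 : ℝ) ≤ k := hC.trans h.kbig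
  have hL : 1000 ≤ L := hC.trans h.Lbig
  have hlog7 : 1 ≤ Real.log L ^ 7 := one_le_pow₀ h.one_le_logL
  constructor
  · refine le_trans ?_ h.logy_big
    have h1 : 1000 ≤ C * k := by nlinarith
    nlinarith
  · rw [h.logy]
    have h1 : L / (k + 5 / 8) ≤ L / 2 := div_le_div_of_nonneg_left (by linarith) (by norm_num) (by linarith)
    linarith

/-- The reciprocals of the integers with many prime factors. -/
theorem sum_inv_bad : ∃ C : ℝ, ∀ (N k : ℕ) (L y η : ℝ), RegF C N k L y η →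
    ∑ m ∈ (Finset.Icc 1 ⌊y⌋₊).filter (fun m => ¬ ArithmeticFunction.cardFactors m ≤ K0 L), 1 / (m : ℝ)
      ≤ 1 / L ^ 9 := by
  obtain ⟨Z0, hZ0⟩ := omega_count
  refine ⟨max 1000 Z0, fun N k L y η h => ?_⟩
  obtain ⟨hly, hlyL⟩ := basic_logy (le_max_left 1000 Z0) h
  have hL : Z0 ≤ L := (le_max_right _ _).trans h.Lbig
  have hL1 : 1000 ≤ L := (le_max_left _ _).trans h.Lbig
  have hL0 : 0 < L := by linarith
  have hy : (1 : ℝ) ≤ y := by
    have := (le_max_left (1000 : ℝ) Z0).trans h.ybig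
    linarith
  have hB : ∀ j ∈ Finset.Icc 1 ⌊y⌋₊,
      (((Finset.Icc 1 j).filter (fun m => ¬ ArithmeticFunction.cardFactors m ≤ K0 L)).card : ℝ)
        ≤ 1 / L ^ 10 * j := by
    intro j hj
    rw [Finset.mem_Icc] at hj
    have hj1 : (1 : ℝ) ≤ j := by exact_mod_cast hj.1
    have hjy : (j : ℝ) ≤ y := (Nat.le_floor_iff (by linarith)).1 hj.2
    have hjL : Real.log j ≤ L := by
      have := Real.log_le_log (by linarith) hjy
      linarith
    have h1 := hZ0 L j hL hj1 hjL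
    rw [Nat.floor_natCast] at h1
    have e : 1 / L ^ 10 * (j : ℝ) = j / L ^ 10 := by ring
    rw [e]
    refine le_trans ?_ h1
    norm_cast
    refine Finset.card_le_card fun m hm => ?_
    rw [Finset.mem_filter] at hm ⊢
    refine ⟨hm.1, ?_⟩
    have h2 : K0 L < ArithmeticFunction.cardFactors m := not_le.1 hm.2
    calc 60 * Real.log L ≤ (K0 L : ℝ) := Nat.le_ceil _
      _ < _ := by exact_mod_cast h2
  have h1 := basic_abel (fun m => ¬ ArithmeticFunction.cardFactors m ≤ K0 L) (1 / L ^ 10) ⌊y⌋₊ hB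
  have h2 := basic_harm y hy
  have hfl : 1 ≤ ⌊y⌋₊ := (Nat.one_le_floor_iff _).2 hy
  have h3 := hB ⌊y⌋₊ (Finset.mem_Icc.2 ⟨hfl, le_rfl⟩)
  have hf0 : (0 : ℝ) < (⌊y⌋₊ : ℝ) := by exact_mod_cast hfl
  have h4 : (((Finset.Icc 1 ⌊y⌋₊).filter
      (fun m => ¬ ArithmeticFunction.cardFactors m ≤ K0 L)).card : ℝ) / (⌊y⌋₊ + 1) ≤ 1 / L ^ 10 := by
    rw [div_le_iff₀ (by positivity)]
    refine h3.trans ?_
    exact mul_le_mul_of_nonneg_left (by linarith) (by positivity)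
  have hL10 : (0 : ℝ) < 1 / L ^ 10 := by positivity
  calc _ ≤ 1 / L ^ 10 * ∑ m ∈ Finset.Icc 1 ⌊y⌋₊, 1 / (m : ℝ) + 1 / L ^ 10 := h1.trans (by linarith)
    _ ≤ 1 / L ^ 10 * (1 + Real.log y) + 1 / L ^ 10 := by
        have := mul_le_mul_of_nonneg_left h2 hL10.le
        linarith
    _ = 1 / L ^ 10 * (2 + Real.log y) := by ring
    _ ≤ 1 / L ^ 10 * L := mul_le_mul_of_nonneg_left hlyL hL10.le
    _ = 1 / L ^ 9 := by field_simp

private theorem basic_tele (m n : ℕ) (hmn : m ≤ n) :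
    Real.log ((n : ℝ) + 1) - Real.log ((m : ℝ) + 1) ≤ ∑ i ∈ Finset.Ioc m n, 1 / (i : ℝ) := by
  induction n, hmn using Nat.le_induction with
  | base => simp
  | succ n hn ih =>
    rw [Finset.sum_Ioc_succ_top hn]
    have h1 : Real.log (((n + 1 : ℕ) : ℝ) + 1) - Real.log ((n : ℝ) + 1) ≤ 1 / ((n + 1 : ℕ) : ℝ) := by
      rw [← Real.log_div (by positivity) (by positivity)]
      refine (Real.log_le_sub_one_of_pos (by positivity)).trans_eq ?_
      push_cast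
      field_simp
      ring
    linarith

theorem Z0_bounds : ∃ C : ℝ, ∀ (N k : ℕ) (L y η : ℝ), RegF C N k L y η →
    1 ≤ Z0 L y ∧ Z0 L y ≤ L := by
  obtain ⟨C, hC⟩ := sum_inv_bad
  refine ⟨max 1000 C, fun N k L y η h => ?_⟩
  obtain ⟨hly, hlyL⟩ := basic_logy (le_max_left 1000 C) h
  have hbad := hC N k L y η (h.mono (le_max_right _ _))
  have hL1 : 1000 ≤ L := (le_max_left _ _).trans h.Lbig
  have hL0 : 0 < L := by linarith
  have hy : (1 : ℝ) ≤ y := by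
    have := (le_max_left (1000 : ℝ) C).trans h.ybig
    linarith
  have hy0 : 0 < y := by linarith
  have hsub1 : M0 L y ⊆ Finset.Icc 1 ⌊y⌋₊ := by
    intro m hm
    rw [M0, Finset.mem_filter, Finset.mem_Ioc] at hm
    rw [Finset.mem_Icc]
    omega
  constructor
  · have hq1 : (1 : ℝ) ≤ y ^ (1 / 4 : ℝ) := Real.one_le_rpow hy (by norm_num)
    have hqy : y ^ (1 / 4 : ℝ) ≤ y := by
      calc y ^ (1 / 4 : ℝ) ≤ y ^ (1 : ℝ) := Real.rpow_le_rpow_of_exponent_le hy (by norm_num)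
        _ = y := Real.rpow_one y
    have hfl : ⌊y ^ (1 / 4 : ℝ)⌋₊ ≤ ⌊y⌋₊ := Nat.floor_le_floor hqy
    have h1 := basic_tele _ _ hfl
    have h2 : Real.log y ≤ Real.log ((⌊y⌋₊ : ℝ) + 1) :=
      Real.log_le_log hy0 (Nat.lt_floor_add_one y).le
    have h3 : Real.log ((⌊y ^ (1 / 4 : ℝ)⌋₊ : ℝ) + 1) ≤ 1 / 4 * Real.log y + 1 := by
      have e1 : ((⌊y ^ (1 / 4 : ℝ)⌋₊ : ℝ) + 1) ≤ 2 * y ^ (1 / 4 : ℝ) := by
        have := Nat.floor_le (by linarith : (0 : ℝ) ≤ y ^ (1 / 4 : ℝ))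
        linarith
      refine (Real.log_le_log (by positivity) e1).trans ?_
      rw [Real.log_mul (by norm_num) (by positivity), Real.log_rpow hy0]
      have := Real.log_le_sub_one_of_pos (show (0 : ℝ) < 2 by norm_num)
      linarith
    have h4 := Finset.sum_filter_add_sum_filter_not (Finset.Ioc ⌊y ^ (1 / 4 : ℝ)⌋₊ ⌊y⌋₊)
      (fun m => ArithmeticFunction.cardFactors m ≤ K0 L) (fun m : ℕ => 1 / (m : ℝ))
    have h5 : ∑ m ∈ (Finset.Ioc ⌊y ^ (1 / 4 : ℝ)⌋₊ ⌊y⌋₊).filter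
        (fun m => ¬ ArithmeticFunction.cardFactors m ≤ K0 L), 1 / (m : ℝ) ≤ 1 / L ^ 9 := by
      refine le_trans (Finset.sum_le_sum_of_subset_of_nonneg ?_ fun i _ _ => by positivity) hbad
      intro m hm
      rw [Finset.mem_filter, Finset.mem_Ioc] at hm
      rw [Finset.mem_filter, Finset.mem_Icc]
      exact ⟨⟨by omega, hm.1.2⟩, hm.2⟩
    have h6 : 1 / L ^ 9 ≤ 1 := by
      rw [div_le_one (by positivity)]
      exact one_le_pow₀ (by linarith)
    have h7 : Z0 L y = ∑ m ∈ (Finset.Ioc ⌊y ^ (1 / 4 : ℝ)⌋₊ ⌊y⌋₊).filter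
        (fun m => ArithmeticFunction.cardFactors m ≤ K0 L), 1 / (m : ℝ) := rfl
    rw [h7]
    linarith
  · have h1 : Z0 L y ≤ ∑ m ∈ Finset.Icc 1 ⌊y⌋₊, 1 / (m : ℝ) := by
      unfold Z0
      exact Finset.sum_le_sum_of_subset_of_nonneg hsub1 fun i _ _ => by positivity
    have h2 := basic_harm y hy
    linarith

private theorem basic_xG_mul {Q : ℕ} (z z' : GN Q) : xG (z * z') = xG z + xG z' := rfl

private theorem basic_ch_hom {Q : ℕ} [NeZero Q] (r : ZMod Q) (z z' : GN Q) :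
    ch (r * xG (z * z')) = ch (r * xG z) * ch (r * xG z') := by
  rw [basic_xG_mul, mul_add, ch_add]

theorem chf_mul {Q : ℕ} [NeZero Q] (p q : Law (GN Q)) (r : ZMod Q) :
    chf (p * q) r = chf p r * chf q r :=
  Law.mul_EC_hom p q (fun z => ch (r * xG z)) (basic_ch_hom r)

theorem chf_pow {Q : ℕ} [NeZero Q] (p : Law (GN Q)) (n : ℕ) (r : ZMod Q) :
    chf (p ^ n) r = chf p r ^ n := by
  refine Law.pow_EC_hom p (fun z => ch (r * xG z)) ?_ (basic_ch_hom r) n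
  change ch (r * (0 : ZMod Q)) = 1
  rw [mul_zero, ch_zero]

theorem norm_chf_le_one {Q : ℕ} [NeZero Q] (p : Law (GN Q)) (r : ZMod Q) : ‖chf p r‖ ≤ 1 := by
  refine (p.norm_EC_le _).trans (p.E_le_of_le fun x => ?_)
  rw [norm_ch]

theorem chf_stp (N : ℕ) (L y η : ℝ) [NeZero (QQ N L)] (hA : (AA L y η).Nonempty)
    (r : ZMod (QQ N L)) : chf (stp (AA L y η) hA (val N (QQ N L))) r = nu N L y η r := by
  unfold chf stp nu
  rw [Law.map_EC]
  unfold Law.EC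
  rw [Law.unif_E, Law.unif_E]
  apply Complex.ext
  · rw [Complex.div_natCast_re, Complex.re_sum]
    rfl
  · rw [Complex.div_natCast_im, Complex.im_sum]
    rfl

theorem norm_nu_le_one (N : ℕ) (L y η : ℝ) [NeZero (QQ N L)] (r : ZMod (QQ N L)) :
    ‖nu N L y η r‖ ≤ 1 := by
  unfold nu
  rw [norm_div, Complex.norm_natCast]
  refine div_le_one_of_le₀ ((norm_sum_le _ _).trans_eq ?_) (Nat.cast_nonneg _)
  simp only [norm_ch]
  rw [Finset.sum_const, nsmul_eq_mul, mul_one]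

private theorem basic_chf_TLaw (N : ℕ) (L y η : ℝ) [NeZero (QQ N L)] (hZ : 0 < Z0 L y)
    (hA : (AA L y η).Nonempty) (Lam : Law (GN (QQ N L))) (l : ℕ) (r : ZMod (QQ N L)) :
    ‖chf (TLaw N L y η hZ hA Lam l) r‖
      = ‖chf (fac0G N L y hZ) r‖ * ‖nu N L y η r‖ ^ l * ‖chf Lam r‖ := by
  unfold TLaw
  rw [chf_mul, chf_mul, chf_pow, chf_stp, norm_mul, norm_mul, norm_pow]

theorem norm_chf_TLaw_le (N : ℕ) (L y η : ℝ) [NeZero (QQ N L)] (hZ : 0 < Z0 L y)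
    (hA : (AA L y η).Nonempty) (Lam : Law (GN (QQ N L))) (l : ℕ) (r : ZMod (QQ N L)) :
    ‖chf (TLaw N L y η hZ hA Lam l) r‖ ≤ ‖nu N L y η r‖ ^ l * ‖chf Lam r‖ := by
  rw [basic_chf_TLaw]
  refine mul_le_mul_of_nonneg_right ?_ (norm_nonneg _)
  exact mul_le_of_le_one_left (by positivity) (norm_chf_le_one _ _)

theorem norm_chf_TLaw_le_two (N : ℕ) (L y η : ℝ) [NeZero (QQ N L)] (hZ : 0 < Z0 L y)
    (hA : (AA L y η).Nonempty) (Lam : Law (GN (QQ N L))) (l : ℕ) (r : ZMod (QQ N L)) :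
    ‖chf (TLaw N L y η hZ hA Lam (l + 2)) r‖ = ‖nu N L y η r‖ ^ 2 * ‖chf (TLaw N L y η hZ hA Lam l) r‖ := by
  rw [basic_chf_TLaw, basic_chf_TLaw]
  ring

end MP14ee70.TY
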