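import Mathlib
import Pool.Agent.Lib.MP_14ee70_nt.TY.P.Basic
import Pool.Agent.Lib.MP_14ee70_nt.TY.M.Div

/-!
# Project TY, file P/Mult: the multiplicities of the random product

`map snd (TLaw l) = fac0 * (unif MM)^l * map snd Lam`, and `map snd Lam ≤ 2 B^r (unif MM)^r` (`Law.Dom.map`; the first coordinate of
a uniform element of `AA = MM ×ˢ range Rn` is uniform in `MM`), so `map snd (TLaw l) ≤ 2 B^r fac0 * (unif MM)^(l+r)`, and
`pm_wt_mul_le` (with `K = K0 L`, `D = (k+1)^K0 = DD k L`, `l + r ≤ k`, `m ≤ y ≤ 3 #MM`) gives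
`pm n ≤ 2 B^r 3^k D^(k+1)/(n Z0) ≤ exp (v1)/n`: `r log B ≤ (k/4) 2 log L`, `(k+1) log (3D) ≤ 2k · 63 (log L)^2`, `Z0 ≥ 1`, and
`v1 = k (log L)^3/100`.
-/

namespace MP14ee70.TY

open Finset

theorem Mult_MM_nonempty {L y η : ℝ} (hA : (AA L y η).Nonempty) : (MM y (K0 L)).Nonempty := by
  obtain ⟨a, ha⟩ := hA
  exact ⟨a.1, (Finset.mem_product.1 ha).1⟩

theorem Mult_Rn_pos {L y η : ℝ} (hA : (AA L y η).Nonempty) : 0 < Rn η := by
  obtain ⟨a, ha⟩ := hA
  have := Finset.mem_range.1 (Finset.mem_product.1 ha).2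
  omega

/-- The integer of a step is uniform in `MM`. -/
theorem Mult_map_stp (Q : ℕ) (L y η : ℝ) (hA : (AA L y η).Nonempty) (v : ℕ × ℕ → ZMod Q) :
    Law.map Prod.snd (stp (AA L y η) hA v) = Law.unif (MM y (K0 L)) (Mult_MM_nonempty hA) := by
  ext f
  have hR : (0 : ℝ) < Rn η := by exact_mod_cast Mult_Rn_pos hA
  have hM : (0 : ℝ) < (MM y (K0 L)).card := by exact_mod_cast (Mult_MM_nonempty hA).card_pos
  rw [Law.map_E, stp, Law.map_E, Law.unif_E, Law.unif_E]
  change (∑ a ∈ MM y (K0 L) ×ˢ Finset.range (Rn η), f a.1) / ((MM y (K0 L) ×ˢ Finset.range (Rn η)).card : ℝ) = _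
  rw [Finset.sum_product, Finset.card_product, Finset.card_range]
  simp only [Finset.sum_const, Finset.card_range, nsmul_eq_mul]
  rw [← Finset.mul_sum, Nat.cast_mul]
  field_simp

theorem Mult_map_fac0G (N : ℕ) (L y : ℝ) (hZ : 0 < Z0 L y) :
    Law.map Prod.snd (fac0G N L y hZ) = fac0 L y hZ := by
  ext f
  rfl

/-- The numerical bound. -/
theorem Mult_num (N k : ℕ) (L y η C B : ℝ) (h : RegF C N k L y η) (hC : 20000 ≤ C) (hB1 : 1 ≤ B)
    (hB2 : B ≤ L ^ 2) (r : ℕ) (hr : 4 * r ≤ k) (m : ℕ) (hm : m ≤ k) :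
    2 * B ^ r * (3 ^ m * DD k L ^ (m + 1)) ≤ Real.exp (v1 k L) := by
  have hlam : 20000 ≤ Real.log L := hC.trans h.logL
  have hL1 := h.one_le_L
  have hLpos : 0 < L := by linarith
  have hk1 : (1 : ℝ) ≤ k := by exact_mod_cast h.one_le_k
  have hD := h.one_le_D
  have hD3 : 1 ≤ 3 * DD k L := by linarith
  set lam := Real.log L with hlamdef
  have e1 : B ^ r ≤ Real.exp (k * lam) := by
    calc B ^ r ≤ (L ^ 2) ^ r := pow_le_pow_left₀ (by linarith) hB2 r
      _ = L ^ (2 * r) := by rw [← pow_mul]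
      _ ≤ L ^ k := pow_le_pow_right₀ hL1 (by omega)
      _ = Real.exp (k * lam) := by rw [hlamdef, Real.exp_nat_mul, Real.exp_log hLpos]
  have e2 : 3 ^ m * DD k L ^ (m + 1) ≤ Real.exp ((k + 1) * (63 * lam ^ 2)) := by
    calc 3 ^ m * DD k L ^ (m + 1) ≤ 3 ^ (m + 1) * DD k L ^ (m + 1) :=
          mul_le_mul_of_nonneg_right (pow_le_pow_right₀ (by norm_num) (Nat.le_succ m)) (by positivity)
      _ = (3 * DD k L) ^ (m + 1) := by rw [mul_pow]
      _ ≤ (3 * DD k L) ^ (k + 1) := pow_le_pow_right₀ hD3 (by omega)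
      _ = Real.exp ((k + 1 : ℕ) * Real.log (3 * DD k L)) := by
          rw [Real.exp_nat_mul, Real.exp_log (by linarith)]
      _ ≤ _ := by
          apply Real.exp_le_exp.2
          push_cast
          exact mul_le_mul_of_nonneg_left h.logD (by positivity)
  have e3 : (2 : ℝ) ≤ Real.exp 1 := by
    have := Real.add_one_le_exp (1 : ℝ)
    linarith
  calc 2 * B ^ r * (3 ^ m * DD k L ^ (m + 1))
      ≤ Real.exp 1 * Real.exp (k * lam) * Real.exp ((k + 1) * (63 * lam ^ 2)) := by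
        have hD0 : 0 ≤ DD k L := by linarith
        have hB0 : 0 ≤ B := by linarith
        refine mul_le_mul (mul_le_mul e3 e1 (by positivity) (by positivity)) e2 (by positivity)
          (by positivity)
    _ = Real.exp (1 + k * lam + (k + 1) * (63 * lam ^ 2)) := by rw [Real.exp_add, Real.exp_add]
    _ ≤ Real.exp (v1 k L) := by
        apply Real.exp_le_exp.2
        rw [v1, ← hlamdef]
        have h1 : (1 : ℝ) ≤ k * lam ^ 2 := by nlinarith
        have h2 : (k : ℝ) * lam ≤ k * lam ^ 2 := by nlinarith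
        have h3 : ((k : ℝ) + 1) * (63 * lam ^ 2) ≤ 126 * (k * lam ^ 2) := by nlinarith
        have h4 : (k : ℝ) * lam ^ 2 * 20000 ≤ k * lam ^ 2 * lam :=
          mul_le_mul_of_nonneg_left hlam (by positivity)
        have h5 : (k : ℝ) * lam ^ 3 / 100 = k * lam ^ 2 * lam / 100 := by ring
        rw [h5]
        nlinarith

theorem mult : ∃ C : ℝ, ∀ (N k : ℕ) (L y η : ℝ), RegF C N k L y η →
    ∀ (hZ : 0 < Z0 L y) (hA : (AA L y η).Nonempty) (B : ℝ) (r : ℕ) (Lam : Law (GN (QQ N L))),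
    LamData N k L y η hA B r Lam → ∀ l : ℕ, l + r ≤ k → ∀ n : ℕ, 0 < n →
    (Law.map Prod.snd (TLaw N L y η hZ hA Lam l)).pm n ≤ Real.exp (v1 k L) / n := by
  obtain ⟨C1, h1⟩ := Z0_bounds
  obtain ⟨C2, h2⟩ := card_MM
  refine ⟨max (max C1 C2) 20000, ?_⟩
  intro N k L y η h hZ hA B r Lam hd l hl n hn
  have hZ1 := (h1 N k L y η (h.mono ((le_max_left _ _).trans (le_max_left _ _)))).1
  have hM := h2 N k L y η (h.mono ((le_max_right _ _).trans (le_max_left _ _)))
  have hy := h.ypos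
  have hn' : (0 : ℝ) < n := by exact_mod_cast hn
  have hdom : Law.Dom (1 * (2 * B ^ r)) (TLaw N L y η hZ hA Lam l)
      (fac0G N L y hZ * stp (AA L y η) hA (val N (QQ N L)) ^ l *
        stp (AA L y η) hA (val N (QQ N L)) ^ r) := (Law.Dom.refl _).mul hd.dom
  rw [one_mul, mul_assoc, ← pow_add] at hdom
  have hdom2 := (hdom.map Prod.snd).pm n
  have hsnd : ∀ a b : GN (QQ N L), Prod.snd (a * b) = Prod.snd a * Prod.snd b := fun _ _ => rfl
  rw [Law.map_mul Prod.snd hsnd, Law.map_pow Prod.snd rfl hsnd, Mult_map_fac0G, Mult_map_stp] at hdom2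
  have h0M : (0 : ℕ) ∉ MM y (K0 L) := by
    intro h0
    have := (mem_MM hy.le h0).1
    rw [Nat.cast_zero] at this
    linarith
  have h0M0 : (0 : ℕ) ∉ M0 L y := by
    intro h0
    have := (Finset.mem_Ioc.1 (Finset.mem_filter.1 h0).1).1
    omega
  have hDb : (((l + r : ℕ) : ℝ) + 1) ^ K0 L ≤ DD k L := by
    rw [DD]
    refine pow_le_pow_left₀ (by positivity) ?_ _
    have : ((l + r : ℕ) : ℝ) ≤ k := by exact_mod_cast hl
    linarith
  have hb := pm_wt_mul_le (MM y (K0 L)) (M0 L y) (Mult_MM_nonempty hA) h0M h0M0 (K0 L) (l + r) n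
    (DD k L) (fun m hm => (mem_MM hy.le hm).2.2) (fun m hm => (Finset.mem_filter.1 hm).2)
    (fun m hm => by
      have := (mem_MM hy.le hm).2.1
      linarith) hDb (fun _ _ => div_nonneg zero_le_one (Nat.cast_nonneg _)) hZ hn
  have hB0 : 0 ≤ 2 * B ^ r := by
    have := hd.hB1
    positivity
  refine hdom2.trans ((mul_le_mul_of_nonneg_left hb hB0).trans ?_)
  have hnum := Mult_num N k L y η _ B h (le_max_right _ _) hd.hB1 hd.hB2 r hd.hr (l + r) hl
  change 2 * B ^ r * (3 ^ (l + r) * DD k L ^ (l + r + 1) / (n * Z0 L y)) ≤ _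
  rw [← mul_div_assoc]
  have hD := h.one_le_D
  have hD0 : 0 ≤ DD k L := by linarith
  refine div_le_div₀ (Real.exp_pos _).le hnum hn' ?_
  nlinarith

end MP14ee70.TY
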