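import Mathlib
import Pool.Agent.Lib.MP_14ee70_nt.TY.P.Basic

/-!
# Project TY, file P/SuppT: the support of the random product

For `stp`: `T = ⌊H log m⌋ + ρ`, `0 ≤ ρ < Rn`, `m ∈ (y/2, y]`, so the integer `t' = ⌊H log m⌋ + ρ` satisfies
`|t' - H log m| ≤ Rn` (`Rn ≥ 1`); powers by induction with `Law.supp_mul` (logarithms add, integers multiply, errors add);
`Lam` by `Law.Supp.dom`.  Total for `l + r ≤ k`: error `≤ k Rn + 1 ≤ ww k η`.
-/

namespace MP14ee70.TY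

open Finset

/-- `z` has the integer position `t'` close to `H log n`. -/
def Near (N : ℕ) (L : ℝ) (w : ℝ) (z : GN (QQ N L)) : Prop :=
  ∃ t : ℤ, (t : ZMod (QQ N L)) = xG z ∧ |(t : ℝ) - HH N * Real.log z.2| ≤ w

/-- what a product of `j` steps satisfies -/
private def SuppTJ (N : ℕ) (L y η : ℝ) (j : ℕ) (z : GN (QQ N L)) : Prop :=
  Near N L ((j : ℝ) * Rn η) z ∧ (y / 2) ^ j ≤ (z.2 : ℝ) ∧ (z.2 : ℝ) ≤ y ^ j ∧
    z.2 ∈ Nat.smoothNumbers (⌊y⌋₊ + 1)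

private theorem suppT_smooth {y : ℝ} {m : ℕ} (h0 : m ≠ 0) (h : m ≤ ⌊y⌋₊) :
    m ∈ Nat.smoothNumbers (⌊y⌋₊ + 1) := by
  rw [Nat.mem_smoothNumbers]
  refine ⟨h0, fun p hp => ?_⟩
  have := Nat.le_of_mem_primeFactorsList hp
  omega

private theorem suppT_Near_mul {N : ℕ} {L : ℝ} {w w' : ℝ} {z z' : GN (QQ N L)}
    (h : Near N L w z) (h' : Near N L w' z') (h0 : z.2 ≠ 0) (h0' : z'.2 ≠ 0) :
    Near N L (w + w') (z * z') := by
  obtain ⟨t, ht, ht1⟩ := h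
  obtain ⟨t', ht', ht1'⟩ := h'
  refine ⟨t + t', ?_, ?_⟩
  · have e : xG (z * z') = xG z + xG z' := rfl
    rw [e, ← ht, ← ht']
    push_cast
    rfl
  · have e : Real.log (((z * z').2 : ℕ) : ℝ) = Real.log (z.2 : ℝ) + Real.log (z'.2 : ℝ) := by
      have e1 : (z * z').2 = z.2 * z'.2 := rfl
      rw [e1, Nat.cast_mul, Real.log_mul (Nat.cast_ne_zero.2 h0) (Nat.cast_ne_zero.2 h0')]
    rw [e]
    have e2 : ((t + t' : ℤ) : ℝ) - (HH N : ℝ) * (Real.log (z.2 : ℝ) + Real.log (z'.2 : ℝ)) =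
        ((t : ℝ) - (HH N : ℝ) * Real.log (z.2 : ℝ)) +
          ((t' : ℝ) - (HH N : ℝ) * Real.log (z'.2 : ℝ)) := by
      push_cast
      ring
    rw [e2]
    exact (abs_add_le _ _).trans (add_le_add ht1 ht1')

private theorem suppT_Near_mono {N : ℕ} {L : ℝ} {w w' : ℝ} {z : GN (QQ N L)}
    (h : Near N L w z) (hw : w ≤ w') : Near N L w' z := by
  obtain ⟨t, ht, ht1⟩ := h
  exact ⟨t, ht, ht1.trans hw⟩

private theorem suppT_J_mul {N : ℕ} {L y η : ℝ} (hy : 0 < y) {i j : ℕ} {z z' : GN (QQ N L)}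
    (h : SuppTJ N L y η i z) (h' : SuppTJ N L y η j z') : SuppTJ N L y η (i + j) (z * z') := by
  obtain ⟨h1, h2, h3, h4⟩ := h
  obtain ⟨h1', h2', h3', h4'⟩ := h'
  have e1 : (((z * z').2 : ℕ) : ℝ) = (z.2 : ℝ) * (z'.2 : ℝ) := by
    have e1 : (z * z').2 = z.2 * z'.2 := rfl
    rw [e1, Nat.cast_mul]
  refine ⟨?_, ?_, ?_, ?_⟩
  · refine suppT_Near_mono (suppT_Near_mul h1 h1' (Nat.ne_zero_of_mem_smoothNumbers h4)
      (Nat.ne_zero_of_mem_smoothNumbers h4')) (le_of_eq ?_)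
    push_cast
    ring
  · rw [e1, pow_add]
    exact mul_le_mul h2 h2' (by positivity) (by positivity)
  · rw [e1, pow_add]
    exact mul_le_mul h3 h3' (by positivity) (by positivity)
  · exact Nat.mul_mem_smoothNumbers h4 h4'

private theorem suppT_J_one (N : ℕ) (L y η : ℝ) : SuppTJ N L y η 0 (1 : GN (QQ N L)) := by
  refine ⟨⟨0, ?_, ?_⟩, ?_, ?_, ?_⟩
  · rw [Int.cast_zero]
    rfl
  · have e : ((1 : GN (QQ N L)).2 : ℕ) = 1 := rfl
    rw [e]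
    simp
  · have e : ((1 : GN (QQ N L)).2 : ℕ) = 1 := rfl
    rw [e]
    simp
  · have e : ((1 : GN (QQ N L)).2 : ℕ) = 1 := rfl
    rw [e]
    simp
  · rw [Nat.mem_smoothNumbers]
    refine ⟨one_ne_zero, fun p hp => ?_⟩
    have e : ((1 : GN (QQ N L)).2 : ℕ) = 1 := rfl
    rw [e, Nat.primeFactorsList_one] at hp
    exact absurd hp List.not_mem_nil

private theorem suppT_Rn {η : ℝ} (hη : 0 < η) : 1 ≤ Rn η := by
  unfold Rn
  exact Nat.one_le_iff_ne_zero.2 (Nat.ceil_pos.2 (by positivity)).ne'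

private theorem suppT_stp {N : ℕ} {L y η : ℝ} (hη : 0 < η) (hy : 0 < y)
    (hA : (AA L y η).Nonempty) :
    (stp (AA L y η) hA (val N (QQ N L))).Supp (SuppTJ N L y η 1) := by
  have h0 : (Law.unif (AA L y η) hA).Supp (· ∈ AA L y η) := Law.supp_wt _ _ _ _
  have h1 : (Law.unif (AA L y η) hA).Supp (fun a => SuppTJ N L y η 1
      ((Multiplicative.ofAdd (val N (QQ N L) a), a.1) : GN (QQ N L))) := by
    refine h0.mono ?_
    rintro ⟨m, ρ⟩ hm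
    unfold AA MM UU at hm
    rw [Finset.mem_product, Finset.mem_filter, Finset.mem_Ioc, Finset.mem_range] at hm
    obtain ⟨⟨⟨hm1, hm2⟩, -⟩, hρ⟩ := hm
    simp only at hm1 hm2 hρ
    have hm0 : m ≠ 0 := by omega
    have hR := suppT_Rn hη
    refine ⟨⟨⌊(HH N : ℝ) * Real.log m⌋ + (ρ : ℤ), rfl, ?_⟩, ?_, ?_, suppT_smooth hm0 hm2⟩
    · have h2 := Int.floor_le ((HH N : ℝ) * Real.log m)
      have h3 := Int.lt_floor_add_one ((HH N : ℝ) * Real.log m)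
      have h4 : (ρ : ℝ) + 1 ≤ Rn η := by exact_mod_cast hρ
      have h5 : (1 : ℝ) ≤ Rn η := by exact_mod_cast hR
      have h6 : (0 : ℝ) ≤ ρ := Nat.cast_nonneg _
      show |((⌊(HH N : ℝ) * Real.log m⌋ + (ρ : ℤ) : ℤ) : ℝ) - (HH N : ℝ) * Real.log (m : ℝ)| ≤ _
      rw [abs_le]
      push_cast
      constructor <;> linarith
    · rw [pow_one]
      exact (Nat.lt_of_floor_lt hm1).le
    · rw [pow_one]
      exact (Nat.le_floor_iff hy.le).1 hm2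
  exact h1

private theorem suppT_pow {N : ℕ} {L y η : ℝ} (hη : 0 < η) (hy : 0 < y)
    (hA : (AA L y η).Nonempty) (j : ℕ) :
    (stp (AA L y η) hA (val N (QQ N L)) ^ j).Supp (SuppTJ N L y η j) := by
  induction j with
  | zero =>
    rw [pow_zero, Law.supp_iff]
    unfold Law.P
    rw [Law.one_E, if_pos (suppT_J_one N L y η)]
  | succ j ih =>
    rw [pow_succ]
    exact Law.supp_mul ih (suppT_stp hη hy hA) fun x z hx hz => suppT_J_mul hy hx hz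

private theorem suppT_YJ {N k : ℕ} {L y η : ℝ} (hη : 0 < η) (hy : 0 < y)
    (hA : (AA L y η).Nonempty) {B : ℝ} {r : ℕ} {Lam : Law (GN (QQ N L))}
    (hL : LamData N k L y η hA B r Lam) (l : ℕ) :
    (stp (AA L y η) hA (val N (QQ N L)) ^ l * Lam).Supp (SuppTJ N L y η (l + r)) :=
  Law.supp_mul (suppT_pow hη hy hA l) (Law.Supp.dom (suppT_pow hη hy hA r) hL.dom)
    fun _ _ hx hz => suppT_J_mul hy hx hz

private theorem suppT_fac {N : ℕ} {L y : ℝ} (hy : 0 < y) (hZ : 0 < Z0 L y) :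
    (fac0G N L y hZ).Supp fun z => Near N L 1 z ∧ (1 : ℝ) ≤ (z.2 : ℝ) ∧ (z.2 : ℝ) ≤ y ∧
      z.2 ∈ Nat.smoothNumbers (⌊y⌋₊ + 1) := by
  have h0 : (fac0 L y hZ).Supp (· ∈ M0 L y) := Law.supp_wt _ _ _ _
  have h1 : (fac0 L y hZ).Supp (fun m : ℕ => Near N L 1 ((Multiplicative.ofAdd
    (((⌊(HH N : ℝ) * Real.log (m : ℝ)⌋ : ℤ) : ZMod (QQ N L))), m) : GN (QQ N L)) ∧
      (1 : ℝ) ≤ (m : ℝ) ∧ (m : ℝ) ≤ y ∧ m ∈ Nat.smoothNumbers (⌊y⌋₊ + 1)) := by
    refine h0.mono ?_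
    intro m hm
    unfold M0 at hm
    rw [Finset.mem_filter, Finset.mem_Ioc] at hm
    obtain ⟨⟨hm1, hm2⟩, -⟩ := hm
    have hm0 : m ≠ 0 := by omega
    refine ⟨⟨⌊(HH N : ℝ) * Real.log m⌋, rfl, ?_⟩, ?_, (Nat.le_floor_iff hy.le).1 hm2,
      suppT_smooth hm0 hm2⟩
    · have h2 := Int.floor_le ((HH N : ℝ) * Real.log m)
      have h3 := Int.lt_floor_add_one ((HH N : ℝ) * Real.log m)
      show |((⌊(HH N : ℝ) * Real.log m⌋ : ℤ) : ℝ) - (HH N : ℝ) * Real.log (m : ℝ)| ≤ _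
      rw [abs_le]
      constructor <;> linarith
    · exact_mod_cast Nat.one_le_iff_ne_zero.2 hm0
  exact h1

/-- the law `stp ^ l * Lam` (without the first factor) -/
theorem supp_Y : ∃ C : ℝ, ∀ (N k : ℕ) (L y η : ℝ), RegF C N k L y η →
    ∀ (hA : (AA L y η).Nonempty) (B : ℝ) (r : ℕ) (Lam : Law (GN (QQ N L))),
    LamData N k L y η hA B r Lam → ∀ l : ℕ, l + r ≤ k →
    (stp (AA L y η) hA (val N (QQ N L)) ^ l * Lam).Supp fun z =>
      Near N L ((k : ℝ) * Rn η) z ∧ (y / 2) ^ (l + r) ≤ (z.2 : ℝ) ∧ (z.2 : ℝ) ≤ y ^ (l + r) ∧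
        z.2 ∈ Nat.smoothNumbers (⌊y⌋₊ + 1) := by
  refine ⟨0, fun N k L y η h hA B r Lam hL l hlr => ?_⟩
  refine (suppT_YJ h.η_pos h.ypos hA hL l).mono ?_
  rintro z ⟨h1, h2, h3, h4⟩
  refine ⟨suppT_Near_mono h1 ?_, h2, h3, h4⟩
  exact mul_le_mul_of_nonneg_right (by exact_mod_cast hlr) (Nat.cast_nonneg _)

theorem supp_TLaw : ∃ C : ℝ, ∀ (N k : ℕ) (L y η : ℝ), RegF C N k L y η →
    ∀ (hZ : 0 < Z0 L y) (hA : (AA L y η).Nonempty) (B : ℝ) (r : ℕ) (Lam : Law (GN (QQ N L))),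
    LamData N k L y η hA B r Lam → ∀ l : ℕ, l + r ≤ k →
    (TLaw N L y η hZ hA Lam l).Supp fun z =>
      Near N L (ww k η) z ∧ (y / 2) ^ (l + r) ≤ (z.2 : ℝ) ∧ (z.2 : ℝ) ≤ y ^ (l + r + 1) ∧
        z.2 ∈ Nat.smoothNumbers (⌊y⌋₊ + 1) := by
  refine ⟨0, fun N k L y η h hZ hA B r Lam hL l hlr => ?_⟩
  unfold TLaw
  rw [mul_assoc]
  refine Law.supp_mul (suppT_fac h.ypos hZ) (suppT_YJ h.η_pos h.ypos hA hL l) ?_
  rintro x z ⟨g1, g2, g3, g4⟩ ⟨h1, h2, h3, h4⟩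
  have hy := h.ypos
  have e1 : (((x * z).2 : ℕ) : ℝ) = (x.2 : ℝ) * (z.2 : ℝ) := by
    have e1 : (x * z).2 = x.2 * z.2 := rfl
    rw [e1, Nat.cast_mul]
  have hz0 : (0 : ℝ) ≤ (z.2 : ℝ) := Nat.cast_nonneg _
  refine ⟨?_, ?_, ?_, Nat.mul_mem_smoothNumbers g4 h4⟩
  · refine suppT_Near_mono (suppT_Near_mul g1 h1 (Nat.ne_zero_of_mem_smoothNumbers g4)
      (Nat.ne_zero_of_mem_smoothNumbers h4)) ?_
    have h5 : 1 ≤ k * Rn η := Nat.one_le_iff_ne_zero.2 (Nat.mul_ne_zero (by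
      have := h.one_le_k
      omega) (by
      have := suppT_Rn h.η_pos
      omega))
    have h6 : (l + r) * Rn η ≤ k * Rn η := Nat.mul_le_mul_right _ hlr
    have h7 : 1 + (l + r) * Rn η ≤ ww k η := by
      unfold ww
      rw [mul_assoc]
      omega
    exact_mod_cast h7
  · rw [e1]
    calc (y / 2) ^ (l + r) ≤ 1 * (z.2 : ℝ) := by rw [one_mul]; exact h2
      _ ≤ (x.2 : ℝ) * (z.2 : ℝ) := mul_le_mul_of_nonneg_right g2 hz0
  · rw [e1, pow_succ, mul_comm]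
    exact mul_le_mul h3 g3 (by positivity) (by positivity)

/-- With `l + r = k` the integer is at least `N / y`, with `l + r + 2 = k` at least `N / y^4`; all are at most `exp (2 L)`. -/
theorem nmin_bounds : ∃ C : ℝ, ∀ (N k : ℕ) (L y η : ℝ), RegF C N k L y η →
    (N : ℝ) / y ≤ (y / 2) ^ k ∧ (N : ℝ) / y ^ 4 ≤ (y / 2) ^ (k - 2) ∧ y ^ (k + 1) ≤ Real.exp (2 * L) := by
  refine ⟨10, fun N k L y η h => ?_⟩
  have hy := h.ypos
  have hN : (0 : ℝ) < N := by exact_mod_cast h.one_le_N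
  set a : ℝ := Real.log y with ha
  have hk10 : (10 : ℝ) ≤ k := h.kbig
  have hk2 : 2 ≤ k := by
    have : (2 : ℝ) ≤ k := by linarith
    exact_mod_cast this
  have hya : y = Real.exp a := (Real.exp_log hy).symm
  have hLa : L = (k + 5 / 8) * a := by
    rw [ha, h.logy]
    field_simp
  have hNa : (N : ℝ) = Real.exp ((k + 5 / 8) * a) := by rw [← hLa, h.hL, Real.exp_log hN]
  have h2 : (2 : ℝ) = Real.exp (Real.log 2) := (Real.exp_log (by norm_num)).symm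
  have hl2 : Real.log 2 ≤ 1 := by
    have := Real.log_le_sub_one_of_pos (show (0 : ℝ) < 2 by norm_num)
    linarith
  have hl0 : 0 ≤ Real.log 2 := Real.log_nonneg (by norm_num)
  have hy2 : y / 2 = Real.exp (a - Real.log 2) := by
    rw [Real.exp_sub, ← hya, Real.exp_log (by norm_num)]
  have hka : 10 * (k : ℝ) ≤ a := by
    refine le_trans ?_ h.logy_big
    have h3 : (1 : ℝ) ≤ Real.log L ^ 7 := one_le_pow₀ h.one_le_logL
    have h4 : (0 : ℝ) ≤ 10 * k := by positivity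
    calc 10 * (k : ℝ) = 10 * k * 1 := (mul_one _).symm
      _ ≤ 10 * k * Real.log L ^ 7 := mul_le_mul_of_nonneg_left h3 h4
  have ha0 : 0 ≤ a := by linarith
  have hkl : (k : ℝ) * Real.log 2 ≤ k := mul_le_of_le_one_right (by positivity) hl2
  refine ⟨?_, ?_, ?_⟩
  · rw [hy2, hNa, hya, ← Real.exp_sub, ← Real.exp_nat_mul]
    apply Real.exp_le_exp.2
    have : (k : ℝ) * (a - Real.log 2) - ((k + 5 / 8) * a - a) = 3 / 8 * a - k * Real.log 2 := by ring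
    linarith
  · rw [hy2, hNa, hya, ← Real.exp_nat_mul, ← Real.exp_sub, ← Real.exp_nat_mul]
    apply Real.exp_le_exp.2
    rw [Nat.cast_sub hk2]
    push_cast
    have : ((k : ℝ) - 2) * (a - Real.log 2) - ((k + 5 / 8) * a - 4 * a) =
      11 / 8 * a - k * Real.log 2 + 2 * Real.log 2 := by ring
    linarith
  · rw [hya, ← Real.exp_nat_mul]
    apply Real.exp_le_exp.2
    rw [hLa]
    push_cast
    nlinarith

end MP14ee70.TY
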