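import Mathlib
import Pool.Agent.Lib.MP_14ee70_nt.TY.Defs3
import Pool.Agent.Lib.MP_14ee70_nt.TY.Four
import Pool.Agent.Lib.MP_14ee70_nt.TY.F.Reg

/-!
# Project TY, file P/Win: the windows

`fW p W u = (1/W) ∑_{x<W} (map xG p).pm (u + x)` for `1 ≤ W ≤ Q` (the points `u + x`, `x < W`, are different), so
`ft (fW p W) r = ∑_u .. ch (r u) = (1/W) ∑_x ch (-(r x)) chf p r = conj (wn W r) * chf p r`; `parseval`.
`wn_sub_le`: `|wn W r - 1| ≤ 2π nrm r W` for both (`norm_win_sub_one_le`).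
`wn_sub_le_inv`: `|wn W r| ≤ 1/(2 nrm r W)` for both (`norm_win_le_inv`), `W ≤ W'`.
`win_params`: `Wd = ⌊⌊y^8⌋ N / 8⌋`, `Wb = ⌊y^(-1/20) N^2⌋`, `N ≥ y^100`.
`ww = 2 k ⌈1000/η⌉ ≤ L^3` (`k ≤ L^(1/2)`, `η ≥ L^(-1/2)`).
-/

namespace MP14ee70.TY

open Finset

theorem fW_eq {Q : ℕ} [NeZero Q] (p : Law (GN Q)) (W : ℕ) (hW : W ≤ Q) (u : ZMod Q) :
    fW p W u = (∑ x ∈ Finset.range W, (Law.map xG p).pm (u + (x : ZMod Q))) / W := by
  classical
  have h2 : ∀ z : GN Q, (if (∃ x < W, xG z = u + (x : ZMod Q)) then (1 : ℝ) else 0) =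
      ∑ x ∈ Finset.range W, if xG z = u + (x : ZMod Q) then (1 : ℝ) else 0 := by
    intro z
    by_cases h : ∃ x < W, xG z = u + (x : ZMod Q)
    · rw [if_pos h]
      obtain ⟨x0, hx0, he⟩ := h
      rw [Finset.sum_eq_single x0]
      · rw [if_pos he]
      · intro x hx hne
        rw [if_neg]
        intro h1
        apply hne
        have h3 : (x : ZMod Q) = (x0 : ZMod Q) := add_left_cancel (h1.symm.trans he)
        rw [ZMod.natCast_eq_natCast_iff'] at h3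
        have h4 := Finset.mem_range.1 hx
        rwa [Nat.mod_eq_of_lt (by omega), Nat.mod_eq_of_lt (by omega)] at h3
      · intro h1
        exact absurd (Finset.mem_range.2 hx0) h1
    · rw [if_neg h]
      symm
      refine Finset.sum_eq_zero fun x hx => ?_
      rw [if_neg]
      intro h1
      exact h ⟨x, Finset.mem_range.1 hx, h1⟩
  unfold fW
  congr 1
  have h3 : (∑ x ∈ Finset.range W, (Law.map xG p).pm (u + (x : ZMod Q))) =
      p.E (fun z => ∑ x ∈ Finset.range W, if xG z = u + (x : ZMod Q) then (1 : ℝ) else 0) := by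
    rw [Law.E_sum]
    refine Finset.sum_congr rfl fun x _ => ?_
    change p.E _ = p.E _
    congr 1
    funext z
    by_cases h : xG z = u + (x : ZMod Q) <;> simp [h]
  rw [h3]
  change p.E _ = p.E _
  congr 1
  funext z
  rw [← h2 z]
  by_cases h : ∃ x < W, xG z = u + (x : ZMod Q) <;> simp [h]

theorem ft_fW {Q : ℕ} [NeZero Q] (p : Law (GN Q)) (W : ℕ) (hW : W ≤ Q) (r : ZMod Q) :
    ft (fW p W) r = (starRingEnd ℂ) (wn W r) * chf p r := by
  have h1 : ft (fW p W) r = (∑ x ∈ Finset.range W,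
      ft (fun u => (Law.map xG p).pm (u + (x : ZMod Q))) r) / W := by
    unfold ft
    rw [Finset.sum_comm, Finset.sum_div]
    refine Finset.sum_congr rfl fun u _ => ?_
    rw [fW_eq p W hW u, ← Finset.sum_mul]
    push_cast
    ring
  rw [h1]
  have h2 : ∀ x ∈ Finset.range W, ft (fun u => (Law.map xG p).pm (u + (x : ZMod Q))) r =
      (starRingEnd ℂ) (ch (r * (x : ZMod Q))) * chf p r := by
    intro x _
    rw [ft_shift, ft_pm, ch_neg]
    rfl
  rw [Finset.sum_congr rfl h2, ← Finset.sum_mul]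
  unfold wn
  rw [map_div₀, map_sum, Complex.conj_natCast]
  ring

theorem parseval_fW {Q : ℕ} [NeZero Q] (p : Law (GN Q)) (W W' : ℕ) (hW : W ≤ Q) (hW' : W' ≤ Q) :
    ∑ u : ZMod Q, (fW p W u - fW p W' u) ^ 2
      = (∑ r : ZMod Q, ‖chf p r‖ ^ 2 * ‖wn W r - wn W' r‖ ^ 2) / Q := by
  have hQ : (0 : ℝ) < Q := by
    exact_mod_cast Nat.pos_of_ne_zero (NeZero.ne Q)
  have h1 := parseval (fun u => fW p W u - fW p W' u)
  have h2 : ∀ r : ZMod Q, ft (fun u => fW p W u - fW p W' u) r =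
      (starRingEnd ℂ) (wn W r - wn W' r) * chf p r := by
    intro r
    have h3 : ft (fun u => fW p W u - fW p W' u) r = ft (fW p W) r - ft (fW p W') r := by
      unfold ft
      rw [← Finset.sum_sub_distrib]
      refine Finset.sum_congr rfl fun u _ => ?_
      push_cast
      ring
    rw [h3, ft_fW p W hW, ft_fW p W' hW', map_sub]
    ring
  have h4 : ∀ r : ZMod Q, ‖ft (fun u => fW p W u - fW p W' u) r‖ ^ 2 =
      ‖chf p r‖ ^ 2 * ‖wn W r - wn W' r‖ ^ 2 := by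
    intro r
    rw [h2, norm_mul, Complex.norm_conj]
    ring
  rw [Finset.sum_congr rfl fun r _ => h4 r] at h1
  rw [h1, mul_comm, mul_div_assoc, div_self hQ.ne', mul_one]

theorem norm_wn_le_one {Q : ℕ} [NeZero Q] (W : ℕ) (r : ZMod Q) : ‖wn W r‖ ≤ 1 := by
  unfold wn
  rw [norm_div, Complex.norm_natCast]
  exact div_le_one_of_le₀ (norm_win_le W r) (Nat.cast_nonneg W)

theorem wn_sub_le {Q : ℕ} [NeZero Q] (W W' : ℕ) (h1 : 1 ≤ W) (h : W ≤ W') (r : ZMod Q) :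
    ‖wn W r - wn W' r‖ ≤ 4 * Real.pi * (nrm r * W') := by
  have h2 := norm_win_sub_one_le W h1 r
  have h3 := norm_win_sub_one_le W' (h1.trans h) r
  have h4 : ‖wn W r - wn W' r‖ ≤ ‖wn W r - 1‖ + ‖wn W' r - 1‖ := by
    have h5 : wn W r - wn W' r = (wn W r - 1) - (wn W' r - 1) := by ring
    rw [h5]
    exact norm_sub_le _ _
  have h5 : nrm r * (W : ℝ) ≤ nrm r * (W' : ℝ) :=
    mul_le_mul_of_nonneg_left (by exact_mod_cast h) (nrm_nonneg r)
  have hpi := Real.pi_pos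
  refine h4.trans ((add_le_add h2 h3).trans ?_)
  nlinarith

theorem wn_sub_le_inv {Q : ℕ} [NeZero Q] (W W' : ℕ) (h1 : 1 ≤ W) (h : W ≤ W') (r : ZMod Q) (hr : r ≠ 0) :
    ‖wn W r - wn W' r‖ ≤ 1 / (nrm r * W) := by
  have hW : (0 : ℝ) < W := by exact_mod_cast h1
  have hWW : (W : ℝ) ≤ W' := by exact_mod_cast h
  have hn : 0 < nrm r := by
    have hQ : (0 : ℝ) < Q := by
      exact_mod_cast Nat.pos_of_ne_zero (NeZero.ne Q)
    unfold nrm
    have h1 : r.valMinAbs ≠ 0 := fun h => hr ((ZMod.valMinAbs_eq_zero r).1 h)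
    exact div_pos (abs_pos.2 (by exact_mod_cast h1)) hQ
  have key : ∀ V : ℕ, 0 < (V : ℝ) → ‖wn V r‖ ≤ 1 / (2 * nrm r) / V := by
    intro V hV
    unfold wn
    rw [norm_div, Complex.norm_natCast]
    exact div_le_div_of_nonneg_right (norm_win_le_inv V r hr) hV.le
  have h2 := key W hW
  have h3 := key W' (hW.trans_le hWW)
  have h4 : 1 / (2 * nrm r) / (W' : ℝ) ≤ 1 / (2 * nrm r) / W :=
    div_le_div_of_nonneg_left (by positivity) hW hWW
  have h5 : 1 / (2 * nrm r) / (W : ℝ) + 1 / (2 * nrm r) / W = 1 / (nrm r * W) := by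
    field_simp
    norm_num
  refine (norm_sub_le _ _).trans ?_
  linarith

theorem win_params : ∃ C : ℝ, ∀ (N k : ℕ) (L y η : ℝ), RegF C N k L y η →
    1 ≤ Wd N y ∧ Wd N y ≤ Wb N y ∧ (Wb N y : ℝ) ≤ y ^ (-(1 / 20) : ℝ) * HH N ∧
    y ^ (-(1 / 20) : ℝ) * HH N / 2 ≤ Wb N y ∧ y ^ 8 * N / 9 ≤ Wd N y ∧ (Wd N y : ℝ) ≤ y ^ 8 * N / 8 ∧
    (Wb N y : ℝ) ≤ (QQ N L : ℝ) / 8 ∧ (ww k η : ℝ) ≤ L ^ 3 ∧ y ^ 100 ≤ (N : ℝ) ∧
    4 * L ≤ hh L ∧ (hh L : ℝ) ≤ 5 * L ∧ 1 ≤ ww k η := by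
  obtain ⟨C1, hC1⟩ := y_pow_le_N 100
  refine ⟨max (max C1 2003) (2 ^ 20), fun N k L y η h => ?_⟩
  have hN100 := hC1 N k L y η (h.mono ((le_max_left _ _).trans (le_max_left _ _)))
  have hb := h.mono ((le_max_right C1 2003).trans (le_max_left _ (2 ^ 20)))
  have hy20 := (h.mono (le_max_right _ _)).ybig
  have hLbig := hb.Lbig
  have hy0 := h.ypos
  have hL1 := h.one_le_L
  have hL0 : 0 < L := by linarith
  have hN1 : (1 : ℝ) ≤ N := by exact_mod_cast h.one_le_N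
  have hN0 : (0 : ℝ) < N := by linarith
  have hy1 : (1 : ℝ) ≤ y := le_trans (by norm_num) hy20
  have hN100' : y ^ 100 ≤ (N : ℝ) := by
    have h1 : y ^ (100 : ℝ) = y ^ 100 := by
      rw [show (100 : ℝ) = ((100 : ℕ) : ℝ) by norm_num, Real.rpow_natCast]
    rwa [h1] at hN100
  have hHH : (HH N : ℝ) = (N : ℝ) ^ 2 := by
    unfold HH
    push_cast
    ring
  -- the power `y ^ (-1/20)`
  obtain ⟨u, hu⟩ : ∃ u : ℝ, u = y ^ (1 / 20 : ℝ) := ⟨_, rfl⟩
  have hu0 : 0 < u := by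
    rw [hu]
    exact Real.rpow_pos_of_pos hy0 _
  have hu2 : 2 ≤ u := by
    have h1 := Real.rpow_le_rpow (by norm_num) hy20 (show (0 : ℝ) ≤ 1 / 20 by norm_num)
    have h2 : ((2 : ℝ) ^ 20) ^ (1 / 20 : ℝ) = 2 := by
      rw [← Real.rpow_natCast, ← Real.rpow_mul (by norm_num)]
      norm_num
    rw [h2, ← hu] at h1
    exact h1
  have huinv : y ^ (-(1 / 20) : ℝ) = 1 / u := by
    rw [Real.rpow_neg hy0.le, ← hu, one_div]
  have huy : u ≤ y := by
    rw [hu]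
    calc y ^ (1 / 20 : ℝ) ≤ y ^ (1 : ℝ) := Real.rpow_le_rpow_of_exponent_le hy1 (by norm_num)
      _ = y := Real.rpow_one y
  -- bounds for the parameters
  have hy8 : (2 : ℝ) ^ 160 ≤ y ^ 8 := by
    calc (2 : ℝ) ^ 160 = (2 ^ 20) ^ 8 := by norm_num
      _ ≤ y ^ 8 := pow_le_pow_left₀ (by norm_num) hy20 8
  have hy8' : (81 : ℝ) ≤ y ^ 8 := le_trans (by norm_num) hy8
  have hy8N : y ^ 8 * N ≤ N ^ 2 / y ^ 92 := by
    rw [le_div_iff₀ (by positivity)]
    calc y ^ 8 * (N : ℝ) * y ^ 92 = y ^ 100 * (N : ℝ) := by ring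
      _ ≤ (N : ℝ) * N := mul_le_mul_of_nonneg_right hN100' hN0.le
      _ = (N : ℝ) ^ 2 := by ring
  have htt1 : (tt y : ℝ) ≤ y ^ 8 := Nat.floor_le (by positivity)
  have htt2 : y ^ 8 - 1 < tt y := Nat.sub_one_lt_floor _
  have hWd1 : (Wd N y : ℝ) ≤ y ^ 8 * N / 8 := by
    have h1 : (Wd N y : ℝ) ≤ ((tt y * N : ℕ) : ℝ) / (8 : ℕ) := Nat.cast_div_le
    push_cast at h1
    refine h1.trans ?_
    gcongr
  have hWd2 : y ^ 8 * N / 9 ≤ Wd N y := by
    have h1 : tt y * N < Wd N y * 8 + 8 := by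
      unfold Wd
      omega
    have h2 : (tt y : ℝ) * N < Wd N y * 8 + 8 := by exact_mod_cast h1
    have h3 : (y ^ 8 - 1) * N ≤ (tt y : ℝ) * N := mul_le_mul_of_nonneg_right htt2.le hN0.le
    have h4 : 81 * (N : ℝ) ≤ y ^ 8 * N := mul_le_mul_of_nonneg_right hy8' hN0.le
    nlinarith
  have hx : (4 : ℝ) ≤ 1 / u * (N : ℝ) ^ 2 := by
    have h1 : u * 4 ≤ (N : ℝ) ^ 2 := by
      have h2 : y ≤ y ^ 100 := by
        calc y = y ^ 1 := (pow_one y).symm
          _ ≤ y ^ 100 := pow_le_pow_right₀ hy1 (by norm_num)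
      have h3 : y ≤ N := h2.trans hN100'
      have h4 : (4 : ℝ) ≤ N := le_trans (by norm_num) (hy20.trans h3)
      rw [pow_two]
      exact mul_le_mul (huy.trans h3) h4 (by norm_num) hN0.le
    rw [one_div, inv_mul_eq_div, le_div_iff₀ hu0]
    linarith
  have hWb1 : (Wb N y : ℝ) ≤ y ^ (-(1 / 20) : ℝ) * HH N :=
    Nat.floor_le (mul_nonneg (Real.rpow_nonneg hy0.le _) (Nat.cast_nonneg _))
  have hWb2 : y ^ (-(1 / 20) : ℝ) * HH N - 1 < Wb N y := Nat.sub_one_lt_floor _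
  rw [huinv, hHH] at hWb1 hWb2 ⊢
  have hhh1 : 4 * L ≤ hh L := Nat.le_ceil _
  have hhh2 : (hh L : ℝ) ≤ 5 * L := by
    have h1 : (hh L : ℝ) < 4 * L + 1 := Nat.ceil_lt_add_one (by positivity)
    linarith
  have hRn1 : (Rn η : ℝ) ≤ 1001 / η := by
    have h1 : (Rn η : ℝ) < 1000 / η + 1 := Nat.ceil_lt_add_one (div_nonneg (by norm_num) h.η_pos.le)
    have h2 : (1 : ℝ) ≤ 1 / η := by
      rw [le_div_iff₀ h.η_pos, one_mul]
      refine h.η_hi.trans ?_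
      exact Real.rpow_le_one_of_one_le_of_nonpos hL1 (by norm_num)
    have h3 : 1001 / η = 1000 / η + 1 / η := by ring
    linarith
  have hww : (ww k η : ℝ) ≤ L ^ 3 := by
    have h1 : (ww k η : ℝ) = 2 * k * Rn η := by
      unfold ww
      push_cast
      ring
    have hs0 : 0 < L ^ (1 / 2 : ℝ) := Real.rpow_pos_of_pos hL0 _
    have h2 : (k : ℝ) ≤ L ^ (1 / 2 : ℝ) := by
      rw [← Real.sqrt_eq_rpow]
      exact Real.le_sqrt_of_sq_le h.k_hi
    have h3 : 1 / η ≤ L ^ (1 / 2 : ℝ) := by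
      rw [div_le_iff₀ h.η_pos]
      have h4 := mul_le_mul_of_nonneg_left h.η_lo hs0.le
      rw [Real.rpow_neg hL0.le, mul_inv_cancel₀ hs0.ne'] at h4
      exact h4
    have h4 : (Rn η : ℝ) ≤ 1001 * L ^ (1 / 2 : ℝ) := by
      refine hRn1.trans ?_
      rw [show 1001 / η = 1001 * (1 / η) by ring]
      exact mul_le_mul_of_nonneg_left h3 (by norm_num)
    have h5 : L ^ (1 / 2 : ℝ) * L ^ (1 / 2 : ℝ) = L := by
      rw [← Real.rpow_add hL0]
      norm_num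
    rw [h1]
    calc 2 * (k : ℝ) * Rn η ≤ 2 * L ^ (1 / 2 : ℝ) * (1001 * L ^ (1 / 2 : ℝ)) := by gcongr
      _ = 2002 * L := by
        rw [show 2 * L ^ (1 / 2 : ℝ) * (1001 * L ^ (1 / 2 : ℝ)) =
          2002 * (L ^ (1 / 2 : ℝ) * L ^ (1 / 2 : ℝ)) by ring, h5]
      _ ≤ L ^ 2 * L := mul_le_mul_of_nonneg_right (by nlinarith) hL0.le
      _ = L ^ 3 := by ring
  have hWdWb : Wd N y ≤ Wb N y := by
    have h1 : (Wd N y : ℝ) ≤ Wb N y := by
      have h2 : y ^ 8 * N ≤ 1 / u * (N : ℝ) ^ 2 := by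
        refine hy8N.trans ?_
        rw [one_div, inv_mul_eq_div]
        refine div_le_div_of_nonneg_left (by positivity) hu0 (huy.trans ?_)
        calc y = y ^ 1 := (pow_one y).symm
          _ ≤ y ^ 92 := pow_le_pow_right₀ hy1 (by norm_num)
      linarith
    exact_mod_cast h1
  refine ⟨?_, hWdWb, hWb1, by linarith, hWd2, hWd1, ?_, hww, hN100', hhh1, hhh2, ?_⟩
  · have h1 : (1 : ℝ) ≤ Wd N y := by
      refine le_trans ?_ hWd2
      rw [le_div_iff₀ (by norm_num)]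
      nlinarith
    exact_mod_cast h1
  · have h1 : (QQ N L : ℝ) = hh L * (N : ℝ) ^ 2 := by
      unfold QQ
      push_cast
      rw [hHH]
    rw [h1]
    have h2 : 1 / u ≤ 1 / 2 := one_div_le_one_div_of_le (by norm_num) hu2
    have h3 : 1 / u * (N : ℝ) ^ 2 ≤ 1 / 2 * (N : ℝ) ^ 2 :=
      mul_le_mul_of_nonneg_right h2 (by positivity)
    have h4 : 4 * (N : ℝ) ^ 2 ≤ hh L * (N : ℝ) ^ 2 :=
      mul_le_mul_of_nonneg_right (by linarith) (by positivity)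
    linarith
  · unfold ww
    have h1 : 1 ≤ Rn η := by
      unfold Rn
      exact Nat.one_le_iff_ne_zero.2 (Nat.ceil_pos.2 (div_pos (by norm_num) h.η_pos)).ne'
    have h2 := h.one_le_k
    nlinarith

end MP14ee70.TY
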