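import Mathlib
import Pool.Agent.Lib.MP_14ee70_nt.TY.P.Mult
import Pool.Agent.Lib.MP_14ee70_nt.TY.P.SuppT
import Pool.Agent.Lib.MP_14ee70_nt.TY.P.Mean
import Pool.Agent.Lib.MP_14ee70_nt.TY.P.Win
import Pool.Agent.Lib.MP_14ee70_nt.TY.F.Nu

/-!
# Project TY, file P/Case45: very small `ν`, and large frequencies

`NearG` for `TLaw` from `supp_TLaw` and `nmin_bounds` (`log z.2 ≤ (k+1) log y ≤ 2L ≤ h/2`), `E = exp (v1)` (`mult`), `w = ww k η ≤ L^3`.
`|τ_r| = 2π|r0|/h`, `nrm r = |r0|/Q`.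
`case4`: `l = l' + 2`, `‖chf (TLaw l)‖^2 = ‖ν‖^4 ‖chf (TLaw l')‖^2 ≤ e^(-4 v0) ‖chf (TLaw l')‖^2` (`norm_chf_TLaw_le_two`), `‖wn - wn‖^2 ≤ 4`,
`mean_value` for `TLaw l'` with `R1 = h N/(2π y^5)`, `nmin = N/y^4`: `≤ 128 e^(v1) 3 h`.  Total `≤ 1536 h e^(v1 - 4 v0) ≤ L^(-11)`.
`case5`: `|r0| > R0 = h N/(2π y^5)`.  Dyadic `R_(i-1) < |r0| ≤ R_i = 2^i R0 ≤ Q/16`: `‖wn - wn‖ ≤ 1/(nrm r Wd) ≤ 9 h N/(R_(i-1) y^8)`
(`wn_sub_le_inv`), `mean_value` with `nmin = N/y`: the sum is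
`≤ (81 h^2 N^2/(R_(i-1)^2 y^16)) 128 e^(v1) (R_i y/N + h + R_i w/N^2) ≤ C e^(v1) h^2 y^(-6)`; at most `4L` values of `i`.
The rest `|r0| > Q/32`: `nrm r ≥ 1/32`, `mean_all`: `≤ (32·9/(y^8 N))^2 Q e^(v1) (y/N + (1 + 2w)/N^2)`.
`e^(v1) ≤ y^(1/100)` (`exp_k_le_y`).
-/

namespace MP14ee70.TY

open Finset

/-- numerical facts -/
structure C45 (N k : ℕ) (L y η : ℝ) : Prop where
  L100 : 7680 ≤ L
  Ly : L ^ 60 ≤ y
  yN : y ^ 100 ≤ N
  h4 : 4 * L ≤ hh L
  h5 : (hh L : ℝ) ≤ 5 * L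
  w3 : (ww k η : ℝ) ≤ L ^ 3
  Ev : Real.exp (v1 k L) ≤ y
  NL : (N : ℝ) = Real.exp L
  wd1 : 1 ≤ Wd N y
  wdb : Wd N y ≤ Wb N y
  wd : y ^ 8 * N / 9 ≤ Wd N y
  nm1 : (N : ℝ) / y ≤ (y / 2) ^ k
  nm2 : (N : ℝ) / y ^ 4 ≤ (y / 2) ^ (k - 2)
  nm3 : y ^ (k + 1) ≤ Real.exp (2 * L)
  v4 : Real.exp (v1 k L - 4 * v0 k L) * (7680 * L ^ 12) ≤ 1
  k20 : 20 ≤ k

theorem c45_facts : ∃ C : ℝ, ∀ (N k : ℕ) (L y η : ℝ), RegF C N k L y η → C45 N k L y η := by
  obtain ⟨C1, h1⟩ := win_params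
  obtain ⟨C2, h2⟩ := nmin_bounds
  refine ⟨max (max C1 C2) 7680, fun N k L y η h => ?_⟩
  obtain ⟨p1, p2, p3, p4, p5, p6, p7, p8, p9, p10, p11, p12⟩ :=
    h1 N k L y η (h.mono ((le_max_left _ _).trans (le_max_left _ _)))
  obtain ⟨q1, q2, q3⟩ := h2 N k L y η (h.mono ((le_max_right _ _).trans (le_max_left _ _)))
  have hC := h.mono (C' := 7680) (le_max_right _ _)
  have hL := hC.Lbig
  have hL0 : 0 < L := by linarith
  have hlam := hC.one_le_logL
  have hk : (7680 : ℝ) ≤ k := hC.kbig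
  have hbig := hC.logy_big
  have hexpL : ∀ n : ℕ, L ^ n = Real.exp (n * Real.log L) := by
    intro n
    rw [Real.exp_nat_mul, Real.exp_log hL0]
  have hy : y = Real.exp (Real.log y) := (Real.exp_log hC.ypos).symm
  have hk7 : (k : ℝ) * Real.log L ^ 3 ≤ Real.log y := by
    refine le_trans ?_ hbig
    have e1 : Real.log L ^ 3 ≤ Real.log L ^ 7 := pow_le_pow_right₀ hlam (by norm_num)
    have e2 : (k : ℝ) * Real.log L ^ 3 ≤ k * Real.log L ^ 7 :=
      mul_le_mul_of_nonneg_left e1 (by positivity)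
    have e3 : 0 ≤ (k : ℝ) * Real.log L ^ 7 := by positivity
    nlinarith
  have hk1 : (k : ℝ) * Real.log L ≤ k * Real.log L ^ 3 := by
    refine mul_le_mul_of_nonneg_left ?_ (by positivity)
    calc Real.log L = Real.log L ^ 1 := (pow_one _).symm
      _ ≤ _ := pow_le_pow_right₀ hlam (by norm_num)
  refine ⟨hL, ?_, p9, p10, p11, p8, ?_, ?_, p1, p2, p5, q1, q2, q3, ?_, ?_⟩
  · rw [hexpL, hy, Real.exp_le_exp]
    refine le_trans ?_ (hk1.trans hk7)
    exact mul_le_mul_of_nonneg_right (by push_cast; linarith) (by linarith)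
  · rw [hy, Real.exp_le_exp]
    refine le_trans ?_ hk7
    unfold v1
    have : 0 ≤ (k : ℝ) * Real.log L ^ 3 := by positivity
    linarith
  · rw [h.hL, Real.exp_log]
    exact_mod_cast h.one_le_N
  · have e1 : 7680 * L ^ 12 ≤ L ^ 13 := by
      have : L ^ 13 = L * L ^ 12 := by ring
      rw [this]
      exact mul_le_mul_of_nonneg_right hL (by positivity)
    have e2 : Real.exp (v1 k L - 4 * v0 k L) * (7680 * L ^ 12) ≤
        Real.exp (v1 k L - 4 * v0 k L) * L ^ 13 :=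
      mul_le_mul_of_nonneg_left e1 (Real.exp_pos _).le
    refine e2.trans ?_
    rw [hexpL, ← Real.exp_add, ← Real.exp_zero, Real.exp_le_exp]
    unfold v1 v0
    push_cast
    have e3 : 7680 * Real.log L ≤ k * Real.log L := mul_le_mul_of_nonneg_right hk (by linarith)
    have e4 : 0 ≤ (k : ℝ) * Real.log L ^ 3 := by positivity
    linarith
  · have : (20 : ℝ) ≤ k := by linarith
    exact_mod_cast this

namespace C45

variable {N k : ℕ} {L y η : ℝ}

theorem L1 (h : C45 N k L y η) : 1 ≤ L := by linarith [h.L100]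

theorem y1 (h : C45 N k L y η) : 1 ≤ y := (one_le_pow₀ h.L1).trans h.Ly

theorem yleN (h : C45 N k L y η) : y ≤ N := by
  refine le_trans ?_ h.yN
  calc y = y ^ 1 := (pow_one _).symm
    _ ≤ _ := pow_le_pow_right₀ h.y1 (by norm_num)

theorem N1 (h : C45 N k L y η) : (1 : ℝ) ≤ N := h.y1.trans h.yleN

theorem LleY (h : C45 N k L y η) (n : ℕ) (hn : n ≤ 60) : L ^ n ≤ y :=
  (pow_le_pow_right₀ h.L1 hn).trans h.Ly

theorem wN (h : C45 N k L y η) : (ww k η : ℝ) ≤ N := h.w3.trans ((h.LleY 3 (by norm_num)).trans h.yleN)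

theorem hh0 (h : C45 N k L y η) : (0 : ℝ) < hh L := by linarith [h.h4, h.L100]

theorem HHr (N : ℕ) : (HH N : ℝ) = (N : ℝ) ^ 2 := by
  unfold HH
  push_cast
  rfl

theorem QQr (N : ℕ) (L : ℝ) : (QQ N L : ℝ) = hh L * (N : ℝ) ^ 2 := by
  unfold QQ HH
  push_cast
  rfl

theorem NQ (h : C45 N k L y η) : 30000 * (N : ℝ) ^ 2 ≤ QQ N L := by
  rw [QQr]
  have h1 : 30000 ≤ (hh L : ℝ) := by linarith [h.h4, h.L100]
  exact mul_le_mul_of_nonneg_right h1 (by positivity)

theorem wQ (h : C45 N k L y η) : (ww k η : ℝ) ≤ (QQ N L : ℝ) / 16 := by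
  have h1 := h.NQ
  have h2 := h.wN
  have h3 := h.N1
  have h4 : (N : ℝ) ≤ (N : ℝ) ^ 2 := by nlinarith
  linarith

/-- `R0 = h N / (2 π y^5)` -/
noncomputable def R0 (N : ℕ) (L y : ℝ) : ℝ := hh L * N / (2 * Real.pi * y ^ 5)

theorem tau_le_iff (h : C45 N k L y η) [NeZero (QQ N L)] (t : ZMod (QQ N L)) :
    |tau N L t| ≤ N / y ^ 5 ↔ |(t.valMinAbs : ℝ)| ≤ R0 N L y := by
  have h1 := h.hh0
  have hy : 0 < y := by linarith [h.y1]
  have hpi := Real.pi_pos
  unfold tau R0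
  rw [abs_div, abs_mul, abs_of_pos (by positivity : (0 : ℝ) < 2 * Real.pi), abs_of_pos h1,
    div_le_div_iff₀ h1 (by positivity), le_div_iff₀ (by positivity)]
  constructor <;> intro h2 <;> linarith

theorem R0_one (h : C45 N k L y η) : 1 ≤ R0 N L y := by
  have hy := h.y1
  have hpi := Real.pi_pos
  have hpi4 := Real.pi_lt_d2
  unfold R0
  rw [le_div_iff₀ (by positivity), one_mul]
  have h1 : y ^ 5 ≤ N := (pow_le_pow_right₀ hy (by norm_num)).trans h.yN
  have h2 : 30000 ≤ (hh L : ℝ) := by linarith [h.h4, h.L100]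
  have h3 : 2 * Real.pi * y ^ 5 ≤ 7 * y ^ 5 :=
    mul_le_mul_of_nonneg_right (by linarith) (by positivity)
  have h4 : 7 * y ^ 5 ≤ hh L * N := mul_le_mul (by linarith) h1 (by positivity) h.hh0.le
  exact h3.trans h4

theorem R0_lt (h : C45 N k L y η) : 16 * R0 N L y ≤ QQ N L := by
  have hy := h.y1
  have hpi := Real.pi_gt_three
  rw [QQr]
  unfold R0
  have h0 := h.hh0
  have hN := h.N1
  have h1 : (hh L : ℝ) * N / (2 * Real.pi * y ^ 5) ≤ hh L * N := by
    refine div_le_self (by positivity) ?_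
    have : 1 ≤ y ^ 5 := one_le_pow₀ hy
    nlinarith
  have h2 : (16 : ℝ) ≤ N := by
    have := h.LleY 1 (by norm_num)
    rw [pow_one] at this
    linarith [h.L100, h.yleN]
  have h3 : 16 * ((hh L : ℝ) * N) ≤ N * (hh L * N) :=
    mul_le_mul_of_nonneg_right h2 (by positivity)
  nlinarith

end C45

theorem c45_supp : ∃ C : ℝ, ∀ (N k : ℕ) (L y η : ℝ), RegF C N k L y η →
    ∀ (hZ : 0 < Z0 L y) (hA : (AA L y η).Nonempty) (B : ℝ) (r : ℕ) (Lam : Law (GN (QQ N L))),
    LamData N k L y η hA B r Lam → ∀ l : ℕ,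
    (l + r = k → (TLaw N L y η hZ hA Lam l).Supp
      (NearG (hh L) (HH N) (ww k η) ((N : ℝ) / y))) ∧
    (l + r + 2 = k → (TLaw N L y η hZ hA Lam l).Supp
      (NearG (hh L) (HH N) (ww k η) ((N : ℝ) / y ^ 4))) := by
  obtain ⟨C1, h1⟩ := supp_TLaw
  obtain ⟨C2, h2⟩ := c45_facts
  refine ⟨max C1 C2, fun N k L y η h hZ hA B r Lam hLam l => ?_⟩
  have hS := h1 N k L y η (h.mono (le_max_left _ _)) hZ hA B r Lam hLam l
  have hf := h2 N k L y η (h.mono (le_max_right _ _))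
  have hy := hf.y1
  have key : ∀ z : GN (QQ N L), l + r ≤ k → (Near N L (ww k η) z ∧ (y / 2) ^ (l + r) ≤ (z.2 : ℝ) ∧
      (z.2 : ℝ) ≤ y ^ (l + r + 1) ∧ z.2 ∈ Nat.smoothNumbers (⌊y⌋₊ + 1)) →
      Real.log z.2 ≤ (hh L : ℝ) / 2 := by
    intro z hlr hz
    have h3 : (0 : ℝ) < z.2 := lt_of_lt_of_le (by positivity) hz.2.1
    have h4 : (z.2 : ℝ) ≤ Real.exp (2 * L) :=
      hz.2.2.1.trans ((pow_le_pow_right₀ hy (by omega)).trans hf.nm3)
    have h5 := Real.log_le_log h3 h4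
    rw [Real.log_exp] at h5
    linarith [hf.h4]
  constructor
  · intro hlr
    refine (hS (by omega)).mono fun z hz => ?_
    refine ⟨hz.1, ?_, key z (by omega) hz⟩
    have h3 := hz.2.1
    rw [hlr] at h3
    exact hf.nm1.trans h3
  · intro hlr
    refine (hS (by omega)).mono fun z hz => ?_
    refine ⟨hz.1, ?_, key z (by omega) hz⟩
    have h3 := hz.2.1
    have h4 : l + r = k - 2 := by omega
    rw [h4] at h3
    exact hf.nm2.trans h3

theorem case4 : ∃ C : ℝ, ∀ (N k : ℕ) (L y η : ℝ) [NeZero (QQ N L)], RegF C N k L y η →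
    ∀ (hZ : 0 < Z0 L y) (hA : (AA L y η).Nonempty) (B : ℝ) (r : ℕ) (Lam : Law (GN (QQ N L))),
    LamData N k L y η hA B r Lam → ∀ l : ℕ, l + r = k →
    ∑ t ∈ (Finset.univ : Finset (ZMod (QQ N L))).filter (fun t => |tau N L t| ≤ N / y ^ 5 ∧
        ‖nu N L y η t‖ < Real.exp (-v0 k L)),
      ‖chf (TLaw N L y η hZ hA Lam l) t‖ ^ 2 * ‖wn (Wd N y) t - wn (Wb N y) t‖ ^ 2 ≤ 1 / L ^ 11 := by
  obtain ⟨C1, h1⟩ := c45_supp
  obtain ⟨C2, h2⟩ := c45_facts
  obtain ⟨C3, h3⟩ := mult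
  refine ⟨max (max C1 C2) C3, ?_⟩
  intro N k L y η _ h hZ hA B r Lam hLam l hlr
  have hf := h2 N k L y η (h.mono ((le_max_right _ _).trans (le_max_left _ _)))
  have hr := hLam.hr
  have hk := hf.k20
  obtain ⟨l', rfl⟩ : ∃ l', l = l' + 2 := ⟨l - 2, by omega⟩
  have hS := (h1 N k L y η (h.mono ((le_max_left _ _).trans (le_max_left _ _))) hZ hA B r Lam hLam
    l').2 (by omega)
  have hM := h3 N k L y η (h.mono (le_max_right _ _)) hZ hA B r Lam hLam l' (by omega)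
  have hy := hf.y1
  have hN := hf.N1
  have hN0 : (0 : ℝ) < N := by linarith
  have hy0 : 0 < y := by linarith
  have hnm : 1 ≤ (N : ℝ) / y ^ 4 := by
    rw [le_div_iff₀ (by positivity), one_mul]
    exact (pow_le_pow_right₀ hy (by norm_num)).trans hf.yN
  have hMV := mean_value (Q := QQ N L) (hh L) (HH N) rfl (ww k η) ((N : ℝ) / y ^ 4) (Real.exp (v1 k L))
    (Nat.cast_nonneg _) hf.wQ hnm (Real.exp_pos _).le (TLaw N L y η hZ hA Lam l') hS hM
    (C45.R0 N L y) hf.R0_one (by linarith [hf.R0_lt])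
  have hterm : ∀ t : ZMod (QQ N L), ‖nu N L y η t‖ < Real.exp (-v0 k L) →
      ‖chf (TLaw N L y η hZ hA Lam (l' + 2)) t‖ ^ 2 * ‖wn (Wd N y) t - wn (Wb N y) t‖ ^ 2 ≤
        4 * Real.exp (-(4 * v0 k L)) * ‖chf (TLaw N L y η hZ hA Lam l') t‖ ^ 2 := by
    intro t ht
    have e1 : ‖chf (TLaw N L y η hZ hA Lam (l' + 2)) t‖ ^ 2 ≤
        Real.exp (-(4 * v0 k L)) * ‖chf (TLaw N L y η hZ hA Lam l') t‖ ^ 2 := by
      rw [norm_chf_TLaw_le_two, mul_pow]
      refine mul_le_mul_of_nonneg_right ?_ (by positivity)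
      have e2 : (‖nu N L y η t‖ ^ 2) ^ 2 ≤ (Real.exp (-v0 k L) ^ 2) ^ 2 :=
        pow_le_pow_left₀ (by positivity) (pow_le_pow_left₀ (norm_nonneg _) ht.le 2) 2
      refine e2.trans (le_of_eq ?_)
      rw [← pow_mul, ← Real.exp_nat_mul]
      congr 1
      push_cast
      ring
    have e3 : ‖wn (Wd N y) t - wn (Wb N y) t‖ ^ 2 ≤ 4 := by
      have e4 : ‖wn (Wd N y) t - wn (Wb N y) t‖ ≤ 2 := by
        refine (norm_sub_le _ _).trans ?_
        linarith [norm_wn_le_one (Wd N y) t, norm_wn_le_one (Wb N y) t]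
      calc _ ≤ (2 : ℝ) ^ 2 := pow_le_pow_left₀ (norm_nonneg _) e4 2
        _ = 4 := by norm_num
    calc _ ≤ (Real.exp (-(4 * v0 k L)) * ‖chf (TLaw N L y η hZ hA Lam l') t‖ ^ 2) * 4 :=
          mul_le_mul e1 e3 (by positivity) (by positivity)
      _ = _ := by ring
  refine (Finset.sum_le_sum fun t ht => hterm t (Finset.mem_filter.1 ht).2.2).trans ?_
  rw [← Finset.mul_sum]
  have hsub : ∑ t ∈ (Finset.univ : Finset (ZMod (QQ N L))).filter (fun t => |tau N L t| ≤ N / y ^ 5 ∧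
        ‖nu N L y η t‖ < Real.exp (-v0 k L)), ‖chf (TLaw N L y η hZ hA Lam l') t‖ ^ 2 ≤
      ∑ t ∈ (Finset.univ : Finset (ZMod (QQ N L))).filter
        (fun t => |(t.valMinAbs : ℝ)| ≤ C45.R0 N L y), ‖chf (TLaw N L y η hZ hA Lam l') t‖ ^ 2 := by
    refine Finset.sum_le_sum_of_subset_of_nonneg ?_ fun _ _ _ => by positivity
    intro t ht
    rw [Finset.mem_filter] at ht ⊢
    exact ⟨ht.1, (hf.tau_le_iff t).1 ht.2.1⟩
  have hhh := hf.hh0
  have hpi := Real.pi_gt_three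
  have hb : C45.R0 N L y / ((N : ℝ) / y ^ 4) + hh L + C45.R0 N L y * ww k η / HH N ≤
      3 * hh L := by
    have e1 : C45.R0 N L y / ((N : ℝ) / y ^ 4) = hh L / (2 * Real.pi * y) := by
      unfold C45.R0
      field_simp
    have e2 : (hh L : ℝ) / (2 * Real.pi * y) ≤ hh L := by
      refine div_le_self hhh.le ?_
      nlinarith
    have e3 : C45.R0 N L y * ww k η / HH N = hh L * (ww k η / N) / (2 * Real.pi * y ^ 5) := by
      unfold C45.R0
      rw [C45.HHr]
      field_simp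
    have e4 : (ww k η : ℝ) / N ≤ 1 := by
      rw [div_le_one hN0]
      exact hf.wN
    have e5 : (hh L : ℝ) * (ww k η / N) / (2 * Real.pi * y ^ 5) ≤ hh L := by
      have e6 : (hh L : ℝ) * (ww k η / N) ≤ hh L := mul_le_of_le_one_right hhh.le e4
      refine (div_le_self (by positivity) ?_).trans e6
      have : 1 ≤ y ^ 5 := one_le_pow₀ hy
      nlinarith
    rw [e1, e3]
    linarith
  have hL0 : 0 < L := by linarith [hf.L1]
  have hE := Real.exp_pos (v1 k L)
  have hE4 := Real.exp_pos (-(4 * v0 k L))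
  calc 4 * Real.exp (-(4 * v0 k L)) * _ ≤ 4 * Real.exp (-(4 * v0 k L)) *
        (128 * Real.exp (v1 k L) * (3 * hh L)) := by
        refine mul_le_mul_of_nonneg_left (hsub.trans (hMV.trans ?_)) (by positivity)
        exact mul_le_mul_of_nonneg_left hb (by positivity)
    _ = 1536 * (Real.exp (v1 k L - 4 * v0 k L) * hh L) := by
        rw [sub_eq_add_neg, Real.exp_add]
        ring
    _ ≤ 1536 * (Real.exp (v1 k L - 4 * v0 k L) * (5 * L)) := by
        refine mul_le_mul_of_nonneg_left ?_ (by norm_num)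
        exact mul_le_mul_of_nonneg_left hf.h5 (Real.exp_pos _).le
    _ ≤ 1 / L ^ 11 := by
        rw [le_div_iff₀ (by positivity)]
        refine le_trans (le_of_eq ?_) hf.v4
        ring

/-- a sum over dyadic blocks -/
theorem c45_dyadic {ι : Type*} (S : Finset ι) (G ρ : ι → ℝ) (hG : ∀ t, 0 ≤ G t) (R K : ℝ)
    (I : ℕ) (hb : ∀ i < I, ∑ t ∈ S.filter (fun t => 2 ^ i * R < ρ t ∧ ρ t ≤ 2 ^ (i + 1) * R), G t ≤ K) :
    ∑ t ∈ S.filter (fun t => R < ρ t), G t ≤
      I * K + ∑ t ∈ S.filter (fun t => 2 ^ I * R < ρ t), G t := by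
  classical
  induction I with
  | zero => simp
  | succ I ih =>
    have h1 := ih fun i hi => hb i (by omega)
    have h2 := hb I (by omega)
    have h3 : ∑ t ∈ S.filter (fun t => 2 ^ I * R < ρ t), G t ≤
        ∑ t ∈ S.filter (fun t => 2 ^ I * R < ρ t ∧ ρ t ≤ 2 ^ (I + 1) * R), G t +
        ∑ t ∈ S.filter (fun t => 2 ^ (I + 1) * R < ρ t), G t := by
      rw [Finset.sum_filter, Finset.sum_filter, Finset.sum_filter, ← Finset.sum_add_distrib]
      refine Finset.sum_le_sum fun t _ => ?_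
      have := hG t
      by_cases c1 : 2 ^ I * R < ρ t
      · by_cases c2 : ρ t ≤ 2 ^ (I + 1) * R
        · rw [if_pos c1, if_pos ⟨c1, c2⟩]
          split_ifs <;> linarith
        · rw [if_pos c1, if_pos (not_le.1 c2)]
          split_ifs <;> linarith
      · rw [if_neg c1]
        split_ifs <;> linarith
    push_cast
    linarith

/-- the numerical bound for one block -/
theorem c45_block {h N y R w E : ℝ} (hh : 0 < h) (hN : 0 < N) (hy : 1 ≤ y) (hR : 0 < R)
    (hR0 : h * N ≤ 7 * y ^ 5 * R) (hw0 : 0 ≤ w) (hw : w ≤ N) (hE : 0 ≤ E) :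
    (18 * h * N / (R * y ^ 8)) ^ 2 * (128 * E * (R / (N / y) + h + R * w / N ^ 2)) ≤
      2612736 * (E * h / y ^ 6) := by
  obtain ⟨a, ha⟩ : ∃ a, a = h * N / R := ⟨_, rfl⟩
  have ha0 : 0 < a := by
    rw [ha]
    positivity
  have ha1 : a ≤ 7 * y ^ 5 := by
    rw [ha, div_le_iff₀ hR]
    exact hR0
  have hy0 : 0 < y := by linarith
  have e1 : (18 * h * N / (R * y ^ 8)) ^ 2 * (128 * E * (R / (N / y) + h + R * w / N ^ 2)) =
      41472 * E * h / y ^ 16 * (a * y + a ^ 2 + a * (w / N)) := by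
    rw [ha]
    field_simp
    ring
  rw [e1]
  have hwN : w / N ≤ 1 := by
    rw [div_le_one hN]
    exact hw
  have hwN0 : 0 ≤ w / N := by positivity
  have hy5 : 1 ≤ y ^ 5 := one_le_pow₀ hy
  have hy6 : y ^ 6 ≤ y ^ 10 := pow_le_pow_right₀ hy (by norm_num)
  have hy55 : y ^ 5 ≤ y ^ 10 := pow_le_pow_right₀ hy (by norm_num)
  have e2 : a * y + a ^ 2 + a * (w / N) ≤ 63 * y ^ 10 := by
    have f1 : a * y ≤ 7 * y ^ 6 := by
      calc a * y ≤ 7 * y ^ 5 * y := mul_le_mul_of_nonneg_right ha1 hy0.le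
        _ = _ := by ring
    have f2 : a ^ 2 ≤ 49 * y ^ 10 := by
      calc a ^ 2 ≤ (7 * y ^ 5) ^ 2 := pow_le_pow_left₀ ha0.le ha1 2
        _ = _ := by ring
    have f3 : a * (w / N) ≤ 7 * y ^ 5 := (mul_le_of_le_one_right ha0.le hwN).trans ha1
    linarith
  calc 41472 * E * h / y ^ 16 * (a * y + a ^ 2 + a * (w / N)) ≤
        41472 * E * h / y ^ 16 * (63 * y ^ 10) := mul_le_mul_of_nonneg_left e2 (by positivity)
    _ = _ := by
        field_simp
        ring

/-- the bound for the windows -/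
theorem c45_wn {N k : ℕ} {L y η : ℝ} (hf : C45 N k L y η) [NeZero (QQ N L)]
    (t : ZMod (QQ N L)) (c : ℝ) (hc : 0 < c) (ht : c < |(t.valMinAbs : ℝ)|) :
    ‖wn (Wd N y) t - wn (Wb N y) t‖ ≤ 9 * hh L * N / (c * y ^ 8) := by
  have hy := hf.y1
  have hy0 : 0 < y := by linarith
  have hN0 : (0 : ℝ) < N := by linarith [hf.N1]
  have hh0 := hf.hh0
  have hQ : (0 : ℝ) < QQ N L := by
    have := hf.NQ
    nlinarith [hf.N1]
  have ht0 : t ≠ 0 := by
    rintro rfl
    rw [ZMod.valMinAbs_zero, Int.cast_zero, abs_zero] at ht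
    linarith
  refine (wn_sub_le_inv (Wd N y) (Wb N y) hf.wd1 hf.wdb t ht0).trans ?_
  have h1 : c / QQ N L ≤ nrm t := by
    unfold nrm
    exact div_le_div_of_nonneg_right ht.le hQ.le
  have h2 : c / QQ N L * (y ^ 8 * N / 9) ≤ nrm t * Wd N y :=
    mul_le_mul h1 hf.wd (by positivity) (nrm_nonneg _)
  refine (one_div_le_one_div_of_le (by positivity) h2).trans (le_of_eq ?_)
  rw [C45.QQr]
  field_simp

theorem case5 : ∃ C : ℝ, ∀ (N k : ℕ) (L y η : ℝ) [NeZero (QQ N L)], RegF C N k L y η →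
    ∀ (hZ : 0 < Z0 L y) (hA : (AA L y η).Nonempty) (B : ℝ) (r : ℕ) (Lam : Law (GN (QQ N L))),
    LamData N k L y η hA B r Lam → ∀ l : ℕ, l + r = k →
    ∑ t ∈ (Finset.univ : Finset (ZMod (QQ N L))).filter (fun t => N / y ^ 5 < |tau N L t|),
      ‖chf (TLaw N L y η hZ hA Lam l) t‖ ^ 2 * ‖wn (Wd N y) t - wn (Wb N y) t‖ ^ 2 ≤ 1 / L ^ 11 := by
  obtain ⟨C1, h1⟩ := c45_supp
  obtain ⟨C2, h2⟩ := c45_facts
  obtain ⟨C3, h3⟩ := mult
  refine ⟨max (max C1 C2) C3, ?_⟩
  intro N k L y η _ h hZ hA B r Lam hLam l hlr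
  have hf := h2 N k L y η (h.mono ((le_max_right _ _).trans (le_max_left _ _)))
  have hS := (h1 N k L y η (h.mono ((le_max_left _ _).trans (le_max_left _ _))) hZ hA B r Lam hLam
    l).1 hlr
  have hM := h3 N k L y η (h.mono (le_max_right _ _)) hZ hA B r Lam hLam l (by omega)
  have hy := hf.y1
  have hN := hf.N1
  have hN0 : (0 : ℝ) < N := by linarith
  have hy0 : 0 < y := by linarith
  have hL0 : 0 < L := by linarith [hf.L1]
  have hhh := hf.hh0
  have hE := Real.exp_pos (v1 k L)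
  have hQ16 := hf.R0_lt
  have hR1 := hf.R0_one
  have hR0' : 0 < C45.R0 N L y := by linarith
  have hnm : 1 ≤ (N : ℝ) / y := by
    rw [le_div_iff₀ (by positivity), one_mul]
    exact hf.yleN
  have hQr := C45.QQr N L
  have hHr := C45.HHr N
  have hpi := Real.pi_gt_three
  have hpi4 := Real.pi_lt_d2
  have hR0N : (hh L : ℝ) * N ≤ 7 * y ^ 5 * C45.R0 N L y := by
    have e1 : (hh L : ℝ) * N = 2 * Real.pi * y ^ 5 * C45.R0 N L y := by
      unfold C45.R0
      field_simp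
    rw [e1]
    refine mul_le_mul_of_nonneg_right ?_ hR0'.le
    exact mul_le_mul_of_nonneg_right (by linarith) (by positivity)
  -- the number of blocks
  obtain ⟨I, hI1, hI2⟩ := exists_nat_pow_near (x := (QQ N L : ℝ) / 16 / C45.R0 N L y) (y := 2)
    (by rw [le_div_iff₀ hR0']; linarith) (by norm_num)
  rw [le_div_iff₀ hR0'] at hI1
  rw [div_lt_iff₀ hR0'] at hI2
  have hI3 : (I : ℝ) ≤ 3 * L := by
    have e1 : (2 : ℝ) ^ I ≤ Real.exp (2 * L) := by
      have e2 : (2 : ℝ) ^ I * C45.R0 N L y ≤ Real.exp (2 * L) * C45.R0 N L y := by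
        refine hI1.trans ?_
        have e3 : Real.exp (2 * L) = (N : ℝ) ^ 2 := by
          rw [hf.NL, ← Real.exp_nat_mul]
          congr 1
        have e4 : (QQ N L : ℝ) / 16 ≤ N * (y ^ 5 * C45.R0 N L y) := by
          rw [hQr]
          have e5 : (hh L : ℝ) * (N : ℝ) ^ 2 / 16 = N * (hh L * N) / 16 := by ring
          rw [e5]
          have e6 := mul_le_mul_of_nonneg_left hR0N hN0.le
          have e7 : 0 ≤ (N : ℝ) * (y ^ 5 * C45.R0 N L y) := by positivity
          linarith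
        refine e4.trans ?_
        rw [e3, sq, ← mul_assoc]
        refine mul_le_mul_of_nonneg_right ?_ hR0'.le
        refine mul_le_mul_of_nonneg_left ?_ hN0.le
        exact (pow_le_pow_right₀ hy (by norm_num)).trans hf.yN
      exact le_of_mul_le_mul_right e2 hR0'
    have e2 : (2 : ℝ) ^ I = Real.exp (I * Real.log 2) := by
      rw [mul_comm, ← Real.rpow_def_of_pos two_pos, Real.rpow_natCast]
    rw [e2, Real.exp_le_exp] at e1
    have e3 := Real.log_two_gt_d9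
    have e4 : (I : ℝ) * (2 / 3) ≤ I * Real.log 2 :=
      mul_le_mul_of_nonneg_left (by linarith) (Nat.cast_nonneg _)
    linarith
  set G : ZMod (QQ N L) → ℝ := fun t =>
    ‖chf (TLaw N L y η hZ hA Lam l) t‖ ^ 2 * ‖wn (Wd N y) t - wn (Wb N y) t‖ ^ 2 with hG
  have hG0 : ∀ t, 0 ≤ G t := fun t => by
    rw [hG]
    positivity
  have hfil : (Finset.univ : Finset (ZMod (QQ N L))).filter (fun t => N / y ^ 5 < |tau N L t|) =
      (Finset.univ : Finset (ZMod (QQ N L))).filter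
        (fun t => C45.R0 N L y < |(t.valMinAbs : ℝ)|) := by
    refine Finset.filter_congr fun t _ => ?_
    rw [← not_le, ← not_le, hf.tau_le_iff]
  rw [hfil]
  have hdy := c45_dyadic (Finset.univ : Finset (ZMod (QQ N L))) G
    (fun t => |(t.valMinAbs : ℝ)|) hG0 (C45.R0 N L y)
    (2612736 * (Real.exp (v1 k L) * hh L / y ^ 6)) I ?_
  · refine hdy.trans ?_
    -- the rest
    have hrest : ∑ t ∈ (Finset.univ : Finset (ZMod (QQ N L))).filter
        (fun t => 2 ^ I * C45.R0 N L y < |(t.valMinAbs : ℝ)|), G t ≤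
        165888 * (Real.exp (v1 k L) * hh L / y ^ 6) := by
      have hQ32 : (QQ N L : ℝ) / 32 ≤ 2 ^ I * C45.R0 N L y := by
        rw [pow_succ] at hI2
        linarith
      have hQ0 : (0 : ℝ) < QQ N L := by
        have := hf.NQ
        nlinarith
      have hMA := mean_all (Q := QQ N L) (hh L) (HH N) rfl (ww k η) ((N : ℝ) / y) (Real.exp (v1 k L))
        (Nat.cast_nonneg _) hf.wQ (by
          have e1 := hf.NQ
          have e2 : (8 : ℝ) ≤ QQ N L := by nlinarith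
          exact_mod_cast e2) hnm (Real.exp_pos _).le (TLaw N L y η hZ hA Lam l) hS hM
      have hterm : ∀ t ∈ (Finset.univ : Finset (ZMod (QQ N L))).filter
          (fun t => 2 ^ I * C45.R0 N L y < |(t.valMinAbs : ℝ)|), G t ≤
          (288 / (N * y ^ 8)) ^ 2 * ‖chf (TLaw N L y η hZ hA Lam l) t‖ ^ 2 := by
        intro t ht
        have e1 := (Finset.mem_filter.1 ht).2
        have e2 := c45_wn hf t ((QQ N L : ℝ) / 32) (by positivity) (lt_of_le_of_lt hQ32 e1)
        have e3 : 9 * (hh L : ℝ) * N / ((QQ N L : ℝ) / 32 * y ^ 8) = 288 / (N * y ^ 8) := by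
          rw [hQr]
          field_simp
          ring
        rw [e3] at e2
        rw [hG]
        dsimp only
        rw [mul_comm]
        exact mul_le_mul_of_nonneg_right (pow_le_pow_left₀ (norm_nonneg _) e2 2) (by positivity)
      refine (Finset.sum_le_sum hterm).trans ?_
      rw [← Finset.mul_sum]
      have hsub : ∑ t ∈ (Finset.univ : Finset (ZMod (QQ N L))).filter
          (fun t => 2 ^ I * C45.R0 N L y < |(t.valMinAbs : ℝ)|),
          ‖chf (TLaw N L y η hZ hA Lam l) t‖ ^ 2 ≤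
          ∑ t : ZMod (QQ N L), ‖chf (TLaw N L y η hZ hA Lam l) t‖ ^ 2 :=
        Finset.sum_le_sum_of_subset_of_nonneg (Finset.filter_subset _ _)
          fun _ _ _ => by positivity
      refine (mul_le_mul_of_nonneg_left (hsub.trans hMA) (by positivity)).trans ?_
      have e1 : 1 / ((N : ℝ) / y) + (1 + 2 * (ww k η : ℝ)) / HH N ≤ 2 * y := by
        have f1 : 1 / ((N : ℝ) / y) ≤ 1 := by
          rw [div_le_one (by positivity)]
          exact hnm
        have f2 : (1 + 2 * (ww k η : ℝ)) / HH N ≤ 1 := by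
          rw [hHr, div_le_one (by positivity)]
          have f3 := hf.wN
          have f4 : (16 : ℝ) ≤ N := by
            have := hf.LleY 1 (by norm_num)
            rw [pow_one] at this
            linarith [hf.L100, hf.yleN]
          nlinarith
        linarith
      calc (288 / ((N : ℝ) * y ^ 8)) ^ 2 * ((QQ N L : ℝ) * Real.exp (v1 k L) *
            (1 / ((N : ℝ) / y) + (1 + 2 * (ww k η : ℝ)) / HH N)) ≤
            (288 / ((N : ℝ) * y ^ 8)) ^ 2 * ((QQ N L : ℝ) * Real.exp (v1 k L) * (2 * y)) := by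
            refine mul_le_mul_of_nonneg_left ?_ (by positivity)
            exact mul_le_mul_of_nonneg_left e1 (by positivity)
        _ = 165888 * (Real.exp (v1 k L) * hh L / y ^ 15) := by
            rw [hQr]
            field_simp
            ring
        _ ≤ _ := by
            refine mul_le_mul_of_nonneg_left ?_ (by norm_num)
            refine div_le_div_of_nonneg_left (by positivity) (by positivity) ?_
            exact pow_le_pow_right₀ hy (by norm_num)
    have hfin : Real.exp (v1 k L) * hh L / y ^ 6 ≤ 5 * L / y ^ 5 := by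
      rw [div_le_div_iff₀ (by positivity) (by positivity)]
      have e1 : Real.exp (v1 k L) * hh L ≤ y * (5 * L) :=
        mul_le_mul hf.Ev hf.h5 hhh.le hy0.le
      calc Real.exp (v1 k L) * hh L * y ^ 5 ≤ y * (5 * L) * y ^ 5 :=
            mul_le_mul_of_nonneg_right e1 (by positivity)
        _ = _ := by ring
    have hK0 : 0 ≤ Real.exp (v1 k L) * hh L / y ^ 6 := by positivity
    have e1 : (I : ℝ) * (2612736 * (Real.exp (v1 k L) * hh L / y ^ 6)) ≤
        3 * L * (2612736 * (5 * L / y ^ 5)) :=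
      mul_le_mul hI3 (by linarith) (by positivity) (by positivity)
    have hL1 := hf.L1
    have e2 : 3 * L * (2612736 * (5 * L / y ^ 5)) + 165888 * (5 * L / y ^ 5) ≤
        10 ^ 8 * L ^ 2 / y ^ 5 := by
      have f1 : 3 * L * (2612736 * (5 * L / y ^ 5)) + 165888 * (5 * L / y ^ 5) =
          (39191040 * L ^ 2 + 829440 * L) / y ^ 5 := by
        field_simp
        ring
      rw [f1]
      refine div_le_div_of_nonneg_right ?_ (by positivity)
      nlinarith
    have e3 : 10 ^ 8 * L ^ 2 / y ^ 5 ≤ 1 / L ^ 11 := by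
      rw [div_le_div_iff₀ (by positivity) (by positivity), one_mul]
      have f1 : (10 : ℝ) ^ 8 ≤ L ^ 3 := by
        calc (10 : ℝ) ^ 8 ≤ 7680 ^ 3 := by norm_num
          _ ≤ L ^ 3 := pow_le_pow_left₀ (by norm_num) hf.L100 3
      calc 10 ^ 8 * L ^ 2 * L ^ 11 ≤ L ^ 3 * L ^ 2 * L ^ 11 := by
            refine mul_le_mul_of_nonneg_right ?_ (by positivity)
            exact mul_le_mul_of_nonneg_right f1 (by positivity)
        _ = L ^ 16 := by ring
        _ ≤ y := hf.LleY 16 (by norm_num)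
        _ = y ^ 1 := (pow_one _).symm
        _ ≤ y ^ 5 := pow_le_pow_right₀ hy (by norm_num)
    linarith
  · intro i hi
    obtain ⟨R, hR⟩ : ∃ R : ℝ, R = 2 ^ (i + 1) * C45.R0 N L y := ⟨_, rfl⟩
    have hRge : C45.R0 N L y ≤ R := by
      rw [hR]
      exact le_mul_of_one_le_left hR0'.le (one_le_pow₀ (by norm_num))
    have hRpos : 0 < R := by linarith
    have hRQ : R ≤ (QQ N L : ℝ) / 16 := by
      refine le_trans ?_ hI1
      rw [hR]
      refine mul_le_mul_of_nonneg_right ?_ hR0'.le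
      exact pow_le_pow_right₀ (by norm_num) (by omega)
    have hMV := mean_value (Q := QQ N L) (hh L) (HH N) rfl (ww k η) ((N : ℝ) / y) (Real.exp (v1 k L))
      (Nat.cast_nonneg _) hf.wQ hnm (Real.exp_pos _).le (TLaw N L y η hZ hA Lam l) hS hM
      R (by linarith) hRQ
    have hhalf : 2 ^ i * C45.R0 N L y = R / 2 := by
      rw [hR, pow_succ]
      ring
    have hterm : ∀ t ∈ (Finset.univ : Finset (ZMod (QQ N L))).filter
        (fun t => 2 ^ i * C45.R0 N L y < |(t.valMinAbs : ℝ)| ∧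
          |(t.valMinAbs : ℝ)| ≤ 2 ^ (i + 1) * C45.R0 N L y), G t ≤
        (18 * hh L * N / (R * y ^ 8)) ^ 2 * ‖chf (TLaw N L y η hZ hA Lam l) t‖ ^ 2 := by
      intro t ht
      have e1 := (Finset.mem_filter.1 ht).2.1
      rw [hhalf] at e1
      have e2 := c45_wn hf t (R / 2) (by positivity) e1
      have e3 : 9 * (hh L : ℝ) * N / (R / 2 * y ^ 8) = 18 * hh L * N / (R * y ^ 8) := by
        field_simp
        ring
      rw [e3] at e2
      rw [hG]
      dsimp only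
      rw [mul_comm]
      exact mul_le_mul_of_nonneg_right (pow_le_pow_left₀ (norm_nonneg _) e2 2) (by positivity)
    refine (Finset.sum_le_sum hterm).trans ?_
    rw [← Finset.mul_sum]
    have hsub : ∑ t ∈ (Finset.univ : Finset (ZMod (QQ N L))).filter
        (fun t => 2 ^ i * C45.R0 N L y < |(t.valMinAbs : ℝ)| ∧
          |(t.valMinAbs : ℝ)| ≤ 2 ^ (i + 1) * C45.R0 N L y),
        ‖chf (TLaw N L y η hZ hA Lam l) t‖ ^ 2 ≤
        ∑ t ∈ (Finset.univ : Finset (ZMod (QQ N L))).filter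
          (fun t => |(t.valMinAbs : ℝ)| ≤ R), ‖chf (TLaw N L y η hZ hA Lam l) t‖ ^ 2 := by
      refine Finset.sum_le_sum_of_subset_of_nonneg ?_ fun _ _ _ => by positivity
      intro t ht
      rw [Finset.mem_filter] at ht ⊢
      refine ⟨ht.1, ?_⟩
      rw [hR]
      exact ht.2.2
    refine (mul_le_mul_of_nonneg_left (hsub.trans hMV) (by positivity)).trans ?_
    rw [hHr]
    exact c45_block hhh hN0 hy hRpos (hR0N.trans (mul_le_mul_of_nonneg_left hRge (by positivity)))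
      (Nat.cast_nonneg _) hf.wN hE.le

end MP14ee70.TY
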