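import Mathlib
import Pool.Agent.Lib.MP_14ee70_nt.TY.P.Mult
import Pool.Agent.Lib.MP_14ee70_nt.TY.P.SuppT
import Pool.Agent.Lib.MP_14ee70_nt.TY.P.Win
import Pool.Agent.Lib.MP_14ee70_nt.TY.P.Case45

/-!
# Project TY, file P/Count: from windows to smooth integers in short intervals

`p = TLaw l`, `l + r = k`, `t = tt y`, `W = Wd`, `w = ww`.
(1) `one_window`: let `n ∈ (N, 2N]`, `u` an integer with `H log n + w ≤ u`, `u + W + w ≤ H log (n + t)` and `fW p W u ≥ 1/(8 H Z0)`.  If `z` is in the support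
and `xG z = u + x` in `ZMod Q`, `x < W`, its integer position `t'` is equal to `u + x` (both are in
`[-w, Q/2 + w + W]`-type intervals of length `< Q`: `t' ≤ H (k+1) log y + w ≤ 2 L H + w`, `u + x ≤ H log (2N + t) ≤ 2 L H`, `Q ≥ 4 L H`), so
`H log n ≤ t' - w ≤ H log z.2 ≤ t' + w ≤ H log (n+t)`: `n ≤ z.2 ≤ n + t`.  So `P(n ≤ z.2 ≤ n + t) ≥ W/(8 H Z0) ≥ y^8/(72 N Z0)`; each
value has probability `≤ e^(v1)/n ≤ e^(v1)/N` (`mult`) and all values are smooth (`supp_TLaw`): the number of smooth integers is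
`≥ y^8 e^(-v1)/(72 Z0) ≥ y + 2` (`e^(v1) ≤ y`, `Z0 ≤ L ≤ y`).
(2) `count_exc`: `X` contains all `n ∈ (2N - t, 2N]` (at most `t ≤ y^8` numbers; for the other `n` the condition
`u ≤ H log (2N)` follows from `u ≤ H log (n+t)`).  Call `n ≤ 2N - t` exceptional if all the integers `u` with `H log n + w ≤ u`, `u + W + w ≤ H log (n+t)` are in `E`.  The number of these `u` is at least
`H log (1 + t/n) - 2w - W - 2 ≥ H t/(4N)·(1 - small) - y^8 N/8 - .. ≥ N y^8/10` (`log (1 + t/n) ≥ t/n - t^2/(2n^2)`, `n ≤ 2N`, `H = N^2`: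
`H t/(2N) - ..`), and each `u` occurs for at most `t + 1` numbers `n` (`n ≤ e^(u/H) ≤ n + t`).  So the number of exceptional `n` is at most
`(t+1) #E/(N y^8/10) ≤ 11 · 2 H/(L^6 N) ≤ N/L^5`.
-/

namespace MP14ee70.TY

open Finset

theorem cnt_tt {y : ℝ} (hy : 1 ≤ y) : (tt y : ℝ) ≤ y ^ 8 ∧ y ^ 8 - 1 ≤ tt y := by
  unfold tt
  have h1 := Nat.floor_le (by positivity : 0 ≤ y ^ 8)
  have h2 := Nat.lt_floor_add_one (y ^ 8)
  exact ⟨h1, by linarith⟩

theorem cnt_log {N k : ℕ} {L y η : ℝ} (hf : C45 N k L y η) {n : ℕ} (hn0 : N < n)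
    (hn : n ≤ 2 * N) : Real.log ((n : ℝ) + tt y) ≤ 2 * L := by
  have hy := hf.y1
  have hN := hf.N1
  have h1 := (cnt_tt hy).1
  have h2 : y ^ 8 ≤ N := (pow_le_pow_right₀ hy (by norm_num)).trans hf.yN
  have h3 : (n : ℝ) ≤ 2 * N := by exact_mod_cast hn
  have h4 : (3 : ℝ) ≤ N := by
    have := hf.LleY 1 (by norm_num)
    rw [pow_one] at this
    linarith [hf.L100, hf.yleN]
  have h5 : (n : ℝ) + tt y ≤ N ^ 2 := by nlinarith
  have h6 : (0 : ℝ) < n := by
    have : 0 < n := by omega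
    exact_mod_cast this
  have h7 := Real.log_le_log (by positivity : 0 < (n : ℝ) + tt y) h5
  rw [hf.NL, Real.log_pow, Real.log_exp] at h7
  exact_mod_cast h7

theorem one_window : ∃ C : ℝ, ∀ (N k : ℕ) (L y η : ℝ), RegF C N k L y η →
    ∀ (hZ : 0 < Z0 L y) (hA : (AA L y η).Nonempty) (B : ℝ) (r : ℕ) (Lam : Law (GN (QQ N L))),
    LamData N k L y η hA B r Lam → ∀ l : ℕ, l + r = k → ∀ (n : ℕ) (u : ℤ), N < n → n ≤ 2 * N →
    (HH N : ℝ) * Real.log n + ww k η ≤ u → (u : ℝ) + Wd N y + ww k η ≤ HH N * Real.log (n + tt y) →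
    1 / (8 * HH N * Z0 L y) ≤ fW (TLaw N L y η hZ hA Lam l) (Wd N y) (u : ZMod (QQ N L)) →
    ⌊y⌋₊ + 2 ≤ ((Finset.Icc n (n + tt y)).filter (fun m => m ∈ Nat.smoothNumbers (⌊y⌋₊ + 1))).card := by
  obtain ⟨C1, h1⟩ := c45_facts
  obtain ⟨C2, h2⟩ := mult
  obtain ⟨C3, h3⟩ := supp_TLaw
  obtain ⟨C4, h4⟩ := Z0_bounds
  refine ⟨max (max C1 C2) (max C3 C4), ?_⟩
  intro N k L y η h hZ hA B r Lam hLam l hlr n u hn0 hn hu1 hu2 hfW
  classical
  have hf := h1 N k L y η (h.mono ((le_max_left _ _).trans (le_max_left _ _)))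
  have hM := h2 N k L y η (h.mono ((le_max_right _ _).trans (le_max_left _ _))) hZ hA B r Lam hLam l
    (by omega)
  have hS := h3 N k L y η (h.mono ((le_max_left _ _).trans (le_max_right _ _))) hZ hA B r Lam hLam l
    (by omega)
  have hZL := (h4 N k L y η (h.mono ((le_max_right _ _).trans (le_max_right _ _)))).2
  have hy := hf.y1
  have hy0 : 0 < y := by linarith
  have hN := hf.N1
  have hN0 : (0 : ℝ) < N := by linarith
  have hL0 : 0 < L := by linarith [hf.L1]
  have hHr := C45.HHr N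
  have hH0 : (0 : ℝ) < HH N := by
    rw [hHr]
    positivity
  have hnR : (N : ℝ) < n := by exact_mod_cast hn0
  have hn0' : (0 : ℝ) < n := by linarith
  set Sset := (Finset.Icc n (n + tt y)).filter (fun m => m ∈ Nat.smoothNumbers (⌊y⌋₊ + 1)) with hSset
  -- the event lies in the set
  have hev : ∀ z : GN (QQ N L), (Near N L (ww k η) z ∧ (y / 2) ^ (l + r) ≤ (z.2 : ℝ) ∧
      (z.2 : ℝ) ≤ y ^ (l + r + 1) ∧ z.2 ∈ Nat.smoothNumbers (⌊y⌋₊ + 1)) →
      (∃ x < Wd N y, xG z = (u : ZMod (QQ N L)) + (x : ZMod (QQ N L))) → z.2 ∈ Sset := by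
    rintro z ⟨⟨t', ht1, ht2⟩, hz1, hz2, hz3⟩ ⟨x, hx, hxz⟩
    have hz0 : (0 : ℝ) < z.2 := lt_of_lt_of_le (by positivity) hz1
    have hz1' : (1 : ℝ) ≤ z.2 := by
      have : 0 < z.2 := by exact_mod_cast hz0
      exact_mod_cast this
    have hlog0 : 0 ≤ Real.log z.2 := Real.log_nonneg hz1'
    have hlog1 : Real.log z.2 ≤ 2 * L := by
      have e1 : (z.2 : ℝ) ≤ Real.exp (2 * L) :=
        hz2.trans ((pow_le_pow_right₀ hy (by omega)).trans hf.nm3)
      have e2 := Real.log_le_log hz0 e1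
      rwa [Real.log_exp] at e2
    obtain ⟨ha1, ha2⟩ := abs_le.1 ht2
    have hxW : (x : ℝ) ≤ Wd N y := by exact_mod_cast hx.le
    have hx0 : (0 : ℝ) ≤ x := Nat.cast_nonneg x
    have hw0 : (0 : ℝ) ≤ ww k η := Nat.cast_nonneg _
    have hlogn := cnt_log hf hn0 hn
    have hlogn0 : 0 ≤ Real.log n := Real.log_nonneg (by linarith)
    -- the two integers agree
    have hcong : ((t' - (u + x) : ℤ) : ZMod (QQ N L)) = 0 := by
      push_cast
      rw [ht1, hxz, sub_self]
    rw [ZMod.intCast_zmod_eq_zero_iff_dvd] at hcong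
    have hQr := C45.QQr N L
    have hw1 : (ww k η : ℝ) ≤ HH N := by
      rw [hHr]
      have := hf.wN
      nlinarith
    have hHlog0 : 0 ≤ (HH N : ℝ) * Real.log z.2 := by positivity
    have hHlog1 : (HH N : ℝ) * Real.log z.2 ≤ HH N * (2 * L) :=
      mul_le_mul_of_nonneg_left hlog1 hH0.le
    have hHn0 : 0 ≤ (HH N : ℝ) * Real.log n := by positivity
    have hHn1 : (HH N : ℝ) * Real.log (n + tt y) ≤ HH N * (2 * L) :=
      mul_le_mul_of_nonneg_left hlogn hH0.le
    have hQbig : (HH N : ℝ) * (2 * L) + 3 * HH N < QQ N L := by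
      rw [hQr, ← hHr]
      have e1 := hf.h4
      have e2 := hf.L100
      have e3 : (2 * L + 3) * (HH N : ℝ) < hh L * HH N :=
        mul_lt_mul_of_pos_right (by linarith) hH0
      linarith
    have habs : |((t' - (u + x) : ℤ) : ℝ)| < QQ N L := by
      push_cast
      rw [abs_lt]
      constructor <;> linarith
    have heq : t' - (u + x) = 0 := by
      apply Int.eq_zero_of_abs_lt_dvd hcong
      exact_mod_cast habs
    have heqR : (t' : ℝ) = u + x := by
      have : t' = u + x := by linarith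
      exact_mod_cast this
    have hlow : (HH N : ℝ) * Real.log n ≤ HH N * Real.log z.2 := by linarith
    have hup : (HH N : ℝ) * Real.log z.2 ≤ HH N * Real.log (n + tt y) := by linarith
    have hlow' := le_of_mul_le_mul_left hlow hH0
    have hup' := le_of_mul_le_mul_left hup hH0
    rw [Real.log_le_log_iff hn0' hz0] at hlow'
    rw [Real.log_le_log_iff hz0 (by positivity)] at hup'
    rw [hSset, Finset.mem_filter, Finset.mem_Icc]
    refine ⟨⟨by exact_mod_cast hlow', by exact_mod_cast hup'⟩, hz3⟩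
  -- the probability
  set p := TLaw N L y η hZ hA Lam l with hp
  have hprob : p.P (fun z => ∃ x < Wd N y, xG z = (u : ZMod (QQ N L)) + (x : ZMod (QQ N L))) ≤
      ∑ m ∈ Sset, (Law.map Prod.snd p).pm m := by
    unfold Law.P
    refine (hS.E_mono (g := fun z => ∑ m ∈ Sset, if z.2 = m then (1 : ℝ) else 0) ?_).trans ?_
    · intro z hz
      by_cases hz' : ∃ x < Wd N y, xG z = (u : ZMod (QQ N L)) + (x : ZMod (QQ N L))
      · have := hev z hz hz'
        simp [hz', this]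
      · simp only [hz', if_false]
        exact Finset.sum_nonneg fun m _ => by split_ifs <;> norm_num
    · rw [Law.E_sum]
      refine le_of_eq (Finset.sum_congr rfl fun m _ => ?_)
      unfold Law.pm
      rw [Law.map_E]
      congr 1
      funext z
      by_cases hzm : z.2 = m <;> simp [hzm]
  have hpm : ∑ m ∈ Sset, (Law.map Prod.snd p).pm m ≤ Sset.card * (y / N) := by
    refine (Finset.sum_le_card_nsmul _ _ (y / N) fun m hm => ?_).trans (le_of_eq (nsmul_eq_mul _ _))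
    have e1 := (Finset.mem_filter.1 hm).1
    rw [Finset.mem_Icc] at e1
    have e2 : (N : ℝ) < m := by
      have : N < m := by omega
      exact_mod_cast this
    refine (hM m (by omega)).trans ?_
    exact div_le_div₀ hy0.le hf.Ev hN0 e2.le
  have hWd0 : (0 : ℝ) < Wd N y := by exact_mod_cast hf.wd1
  unfold fW at hfW
  rw [le_div_iff₀ hWd0] at hfW
  have hfin : 1 / (8 * (HH N : ℝ) * Z0 L y) * Wd N y ≤ Sset.card * (y / N) :=
    hfW.trans (hprob.trans hpm)
  have hlow : y ^ 8 / (72 * L * N) ≤ 1 / (8 * (HH N : ℝ) * Z0 L y) * Wd N y := by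
    have e1 : 1 / (8 * (HH N : ℝ) * L) ≤ 1 / (8 * (HH N : ℝ) * Z0 L y) :=
      one_div_le_one_div_of_le (by positivity) (mul_le_mul_of_nonneg_left hZL (by positivity))
    refine le_trans (le_of_eq ?_) (mul_le_mul e1 hf.wd (by positivity) (by positivity))
    rw [hHr]
    field_simp
    ring
  have hcard : y ^ 7 / (72 * L) ≤ Sset.card := by
    have e1 := hlow.trans hfin
    have e2 : y ^ 8 / (72 * L * N) = y ^ 7 / (72 * L) * (y / N) := by
      field_simp
    rw [e2] at e1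
    exact le_of_mul_le_mul_right e1 (by positivity)
  have hfl := Nat.floor_le hy0.le
  have hgoal : ((⌊y⌋₊ + 2 : ℕ) : ℝ) ≤ Sset.card := by
    refine le_trans ?_ hcard
    rw [le_div_iff₀ (by positivity)]
    push_cast
    have e1 : (⌊y⌋₊ : ℝ) + 2 ≤ 3 * y := by linarith
    have e2 : ((⌊y⌋₊ : ℝ) + 2) * (72 * L) ≤ 3 * y * (72 * L) :=
      mul_le_mul_of_nonneg_right e1 (by positivity)
    refine e2.trans ?_
    have e3 : 216 * L ≤ y := by
      have e4 := hf.LleY 2 (by norm_num)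
      have e5 := hf.L100
      nlinarith
    calc 3 * y * (72 * L) = y * (216 * L) := by ring
      _ ≤ y * y := mul_le_mul_of_nonneg_left e3 hy0.le
      _ = y ^ 2 := by ring
      _ ≤ y ^ 7 := pow_le_pow_right₀ hy (by norm_num)
  exact_mod_cast hgoal

/-- double counting -/
theorem cnt_double {X : Finset ℕ} {E : Finset ℤ} {U : ℕ → Finset ℤ} {t : ℕ} {A : ℝ}
    (hU : ∀ n ∈ X, U n ⊆ E) (hA : ∀ n ∈ X, A ≤ (U n).card)
    (ht : ∀ u ∈ E, (X.filter (fun n => u ∈ U n)).card ≤ t + 1) :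
    X.card * A ≤ E.card * ((t : ℝ) + 1) := by
  classical
  have h1 : (X.card : ℝ) * A ≤ ∑ n ∈ X, ((U n).card : ℝ) := by
    rw [← nsmul_eq_mul]
    exact Finset.card_nsmul_le_sum _ _ _ hA
  have h2 : ∑ n ∈ X, (U n).card = ∑ u ∈ E, (X.filter (fun n => u ∈ U n)).card := by
    refine (Finset.sum_congr rfl fun n hn => ?_).trans
      (Finset.sum_card_bipartiteAbove_eq_sum_card_bipartiteBelow (s := X) (t := E)
        (fun n u => u ∈ U n))
    congr 1
    ext u
    rw [Finset.mem_bipartiteAbove]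
    exact ⟨fun h => ⟨hU n hn h, h⟩, fun h => h.2⟩
  have h3 : ∑ u ∈ E, (X.filter (fun n => u ∈ U n)).card ≤ E.card * (t + 1) := by
    refine (Finset.sum_le_card_nsmul _ _ _ ht).trans (le_of_eq ?_)
    rw [smul_eq_mul]
  have h4 : ∑ n ∈ X, (U n).card ≤ E.card * (t + 1) := h2.le.trans h3
  have h5 : (∑ n ∈ X, ((U n).card : ℝ)) ≤ E.card * ((t : ℝ) + 1) := by exact_mod_cast h4
  exact h1.trans h5

/-- the integers `u` for `n` -/
noncomputable def cntU (N k : ℕ) (y η : ℝ) (n : ℕ) : Finset ℤ :=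
  Finset.Icc ⌈(HH N : ℝ) * Real.log n + ww k η⌉
    ⌊(HH N : ℝ) * Real.log (n + tt y) - Wd N y - ww k η⌋

theorem cnt_mem {N k : ℕ} {y η : ℝ} {n : ℕ} {u : ℤ} : u ∈ cntU N k y η n ↔
    (HH N : ℝ) * Real.log n + ww k η ≤ u ∧
      (u : ℝ) + Wd N y + ww k η ≤ HH N * Real.log (n + tt y) := by
  unfold cntU
  rw [Finset.mem_Icc, Int.ceil_le, Int.le_floor]
  constructor
  · rintro ⟨h1, h2⟩
    exact ⟨h1, by linarith⟩
  · rintro ⟨h1, h2⟩
    exact ⟨h1, by linarith⟩

theorem cnt_card {N k : ℕ} {L y η : ℝ} (hf : C45 N k L y η) (hWd : (Wd N y : ℝ) ≤ y ^ 8 * N / 8)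
    {n : ℕ} (hn0 : N < n) (hn : n + tt y ≤ 2 * N) :
    (N : ℝ) * y ^ 8 / 10 ≤ (cntU N k y η n).card := by
  have hy := hf.y1
  have hy0 : 0 < y := by linarith
  have hN := hf.N1
  have hN0 : (0 : ℝ) < N := by linarith
  have hHr := C45.HHr N
  have hnR : (N : ℝ) < n := by exact_mod_cast hn0
  have hn0' : (0 : ℝ) < n := by linarith
  have hnt : (n : ℝ) + tt y ≤ 2 * N := by exact_mod_cast hn
  have htt0 : (0 : ℝ) ≤ tt y := Nat.cast_nonneg _
  have h1 : (HH N : ℝ) * Real.log n + N * tt y / 2 ≤ HH N * Real.log (n + tt y) := by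
    have e1 : 1 - ((n : ℝ) + tt y)⁻¹ * n ≤ Real.log ((n + tt y) / n) := by
      have e2 := Real.one_sub_inv_le_log_of_pos (x := ((n : ℝ) + tt y) / n) (by positivity)
      refine le_trans (le_of_eq ?_) e2
      rw [inv_div]
      ring
    rw [Real.log_div (by positivity) hn0'.ne'] at e1
    have e3 : (tt y : ℝ) / (2 * N) ≤ 1 - ((n : ℝ) + tt y)⁻¹ * n := by
      have e4 : 1 - ((n : ℝ) + tt y)⁻¹ * n = tt y / (n + tt y) := by
        field_simp
        ring
      rw [e4]
      exact div_le_div_of_nonneg_left htt0 (by positivity) hnt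
    have e5 : (tt y : ℝ) / (2 * N) ≤ Real.log (n + tt y) - Real.log n := e3.trans e1
    have e6 := mul_le_mul_of_nonneg_left e5 (by positivity : (0 : ℝ) ≤ (N : ℝ) ^ 2)
    have e7 : (N : ℝ) ^ 2 * (tt y / (2 * N)) = N * tt y / 2 := by
      field_simp
    rw [hHr]
    rw [e7] at e6
    linarith
  have h2 : (cntU N k y η n).card = (⌊(HH N : ℝ) * Real.log (n + tt y) - Wd N y - ww k η⌋ + 1 -
      ⌈(HH N : ℝ) * Real.log n + ww k η⌉).toNat := by
    unfold cntU
    rw [Int.card_Icc]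
  have h3 : ((⌊(HH N : ℝ) * Real.log (n + tt y) - Wd N y - ww k η⌋ + 1 -
      ⌈(HH N : ℝ) * Real.log n + ww k η⌉ : ℤ) : ℝ) ≤ (cntU N k y η n).card := by
    rw [h2]
    have := Int.self_le_toNat (⌊(HH N : ℝ) * Real.log (n + tt y) - Wd N y - ww k η⌋ + 1 -
      ⌈(HH N : ℝ) * Real.log n + ww k η⌉)
    exact_mod_cast this
  refine le_trans ?_ h3
  push_cast
  have h4 := Int.sub_one_lt_floor ((HH N : ℝ) * Real.log (n + tt y) - Wd N y - ww k η)
  have h5 := Int.ceil_lt_add_one ((HH N : ℝ) * Real.log n + ww k η)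
  have h6 := hf.wN
  have h7 := (cnt_tt hy).2
  have h8 : (N : ℝ) * (y ^ 8 - 1) / 2 ≤ N * tt y / 2 := by
    have := mul_le_mul_of_nonneg_left h7 hN0.le
    linarith
  have h9 : (20 : ℝ) ≤ y ^ 8 := by
    have e1 := hf.LleY 1 (by norm_num)
    rw [pow_one] at e1
    have e2 : y ≤ y ^ 8 := by
      calc y = y ^ 1 := (pow_one _).symm
        _ ≤ y ^ 8 := pow_le_pow_right₀ hy (by norm_num)
    linarith [hf.L100]
  have h10 : (20 : ℝ) * N ≤ N * y ^ 8 := by
    rw [mul_comm (N : ℝ)]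
    exact mul_le_mul_of_nonneg_right h9 hN0.le
  have h11 : (N : ℝ) * (y ^ 8 - 1) / 2 = N * y ^ 8 / 2 - N / 2 := by ring
  have h12 : y ^ 8 * (N : ℝ) / 8 = N * y ^ 8 / 8 := by ring
  rw [h11] at h8
  rw [h12] at hWd
  linarith

theorem count_exc : ∃ C : ℝ, ∀ (N k : ℕ) (L y η : ℝ), RegF C N k L y η →
    ∀ E : Finset ℤ, (E.card : ℝ) ≤ 2 * (HH N / L ^ 6) →
    ∃ X : Finset ℕ, (X.card : ℝ) ≤ N / L ^ 5 ∧ ∀ n : ℕ, N < n → n ≤ 2 * N → n ∉ X →
      ∃ u : ℤ, u ∉ E ∧ (HH N : ℝ) * Real.log N ≤ u ∧ (u : ℝ) ≤ HH N * Real.log (2 * N) ∧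
        (HH N : ℝ) * Real.log n + ww k η ≤ u ∧
        (u : ℝ) + Wd N y + ww k η ≤ HH N * Real.log (n + tt y) := by
  obtain ⟨C1, h1⟩ := c45_facts
  obtain ⟨C2, h2⟩ := win_params
  refine ⟨max C1 C2, ?_⟩
  intro N k L y η h E hE
  classical
  have hf := h1 N k L y η (h.mono (le_max_left _ _))
  obtain ⟨-, -, -, -, -, hWd, -, -, -, -, -, -⟩ := h2 N k L y η (h.mono (le_max_right _ _))
  have hy := hf.y1
  have hy0 : 0 < y := by linarith
  have hN := hf.N1
  have hN0 : (0 : ℝ) < N := by linarith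
  have hL0 : 0 < L := by linarith [hf.L1]
  have hHr := C45.HHr N
  have hH0 : (0 : ℝ) < HH N := by
    rw [hHr]
    positivity
  have htt := cnt_tt hy
  set X1 := (Finset.Ioc N (2 * N)).filter (fun n => 2 * N < n + tt y) with hX1
  set X2 := (Finset.Ioc N (2 * N)).filter (fun n => n + tt y ≤ 2 * N ∧ cntU N k y η n ⊆ E) with hX2
  refine ⟨X1 ∪ X2, ?_, ?_⟩
  · have c1 : X1.card ≤ tt y := by
      have e1 : X1 ⊆ Finset.Ioc (2 * N - tt y) (2 * N) := by
        intro n hn
        rw [hX1, Finset.mem_filter, Finset.mem_Ioc] at hn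
        rw [Finset.mem_Ioc]
        omega
      refine (Finset.card_le_card e1).trans ?_
      rw [Nat.card_Ioc]
      omega
    have c2 : (X2.card : ℝ) * (N * y ^ 8 / 10) ≤ E.card * ((tt y : ℝ) + 1) := by
      refine cnt_double (U := cntU N k y η) ?_ ?_ ?_
      · intro n hn
        exact (Finset.mem_filter.1 hn).2.2
      · intro n hn
        have e1 := Finset.mem_filter.1 hn
        exact cnt_card hf hWd (Finset.mem_Ioc.1 e1.1).1 e1.2.1
      · intro u _
        have e1 : X2.filter (fun n => u ∈ cntU N k y η n) ⊆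
            Finset.Icc (⌊Real.exp (u / HH N)⌋₊ - tt y) ⌊Real.exp (u / HH N)⌋₊ := by
          intro n hn
          obtain ⟨e2, e3⟩ := Finset.mem_filter.1 hn
          obtain ⟨e4, e5⟩ := cnt_mem.1 e3
          have e6 := (Finset.mem_Ioc.1 (Finset.mem_filter.1 e2).1).1
          have e7 : (0 : ℝ) < n := by
            have : 0 < n := by omega
            exact_mod_cast this
          have hw0 : (0 : ℝ) ≤ ww k η := Nat.cast_nonneg _
          have hWd0 : (0 : ℝ) ≤ Wd N y := Nat.cast_nonneg _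
          have e8 : Real.log n ≤ u / HH N := by
            rw [le_div_iff₀ hH0]
            linarith
          have e9 : (u : ℝ) / HH N ≤ Real.log (n + tt y) := by
            rw [div_le_iff₀ hH0]
            linarith
          have e10 : (n : ℝ) ≤ Real.exp (u / HH N) := by
            rwa [← Real.log_le_iff_le_exp e7]
          have e11 : Real.exp (u / HH N) ≤ n + tt y := by
            rwa [← Real.le_log_iff_exp_le (by positivity)]
          have e12 : n ≤ ⌊Real.exp (u / HH N)⌋₊ := Nat.le_floor e10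
          have e13 : ⌊Real.exp (u / HH N)⌋₊ ≤ n + tt y := by
            have e14 : ⌊Real.exp (u / HH N)⌋₊ ≤ ⌊((n + tt y : ℕ) : ℝ)⌋₊ := by
              refine Nat.floor_le_floor ?_
              push_cast
              exact e11
            rwa [Nat.floor_natCast] at e14
          rw [Finset.mem_Icc]
          omega
        refine (Finset.card_le_card e1).trans ?_
        rw [Nat.card_Icc]
        omega
    have c3 : (X2.card : ℝ) ≤ 40 * (N / L ^ 6) := by
      have e1 : (E.card : ℝ) * ((tt y : ℝ) + 1) ≤ 2 * (HH N / L ^ 6) * (2 * y ^ 8) := by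
        refine mul_le_mul hE ?_ (by positivity) (by positivity)
        have : 1 ≤ y ^ 8 := one_le_pow₀ hy
        linarith [htt.1]
      have e2 := c2.trans e1
      have e3 : 2 * ((HH N : ℝ) / L ^ 6) * (2 * y ^ 8) = 40 * (N / L ^ 6) * (N * y ^ 8 / 10) := by
        rw [hHr]
        field_simp
        ring
      rw [e3] at e2
      exact le_of_mul_le_mul_right e2 (by positivity)
    have c4 : ((X1 ∪ X2).card : ℝ) ≤ y ^ 8 + 40 * (N / L ^ 6) := by
      have e1 : ((X1 ∪ X2).card : ℝ) ≤ X1.card + X2.card := by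
        exact_mod_cast Finset.card_union_le X1 X2
      have e2 : (X1.card : ℝ) ≤ tt y := by exact_mod_cast c1
      linarith [htt.1]
    refine c4.trans ?_
    have c5 : 40 * ((N : ℝ) / L ^ 6) ≤ 1 / 2 * (N / L ^ 5) := by
      have e1 : (N : ℝ) / L ^ 6 = N / L ^ 5 / L := by
        field_simp
      rw [e1]
      have e2 : (N : ℝ) / L ^ 5 / L ≤ N / L ^ 5 / 80 :=
        div_le_div_of_nonneg_left (by positivity) (by norm_num) (by linarith [hf.L100])
      linarith
    have c6 : y ^ 8 ≤ 1 / 2 * (N / L ^ 5) := by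
      have e1 : 2 * L ^ 5 ≤ y := by
        have e2 := hf.LleY 6 (by norm_num)
        have e3 : (2 : ℝ) * L ^ 5 ≤ L * L ^ 5 :=
          mul_le_mul_of_nonneg_right (by linarith [hf.L100]) (by positivity)
        have e4 : L * L ^ 5 = L ^ 6 := by ring
        linarith
      have e5 : y ^ 8 * (2 * L ^ 5) ≤ N := by
        calc y ^ 8 * (2 * L ^ 5) ≤ y ^ 8 * y := mul_le_mul_of_nonneg_left e1 (by positivity)
          _ = y ^ 9 := by ring
          _ ≤ y ^ 100 := pow_le_pow_right₀ hy (by norm_num)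
          _ ≤ N := hf.yN
      have e6 : 1 / 2 * ((N : ℝ) / L ^ 5) = N / (2 * L ^ 5) := by
        field_simp
      rw [e6, le_div_iff₀ (by positivity)]
      exact e5
    linarith
  · intro n hn0 hn hnX
    rw [Finset.mem_union, not_or] at hnX
    obtain ⟨hn1, hn2⟩ := hnX
    have hnI : n ∈ Finset.Ioc N (2 * N) := Finset.mem_Ioc.2 ⟨hn0, hn⟩
    have hnt : n + tt y ≤ 2 * N := by
      by_contra hc
      exact hn1 (Finset.mem_filter.2 ⟨hnI, by omega⟩)
    have hsub : ¬ cntU N k y η n ⊆ E := fun hc =>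
      hn2 (Finset.mem_filter.2 ⟨hnI, hnt, hc⟩)
    rw [Finset.not_subset] at hsub
    obtain ⟨u, hu, huE⟩ := hsub
    obtain ⟨hu1, hu2⟩ := cnt_mem.1 hu
    have hw0 : (0 : ℝ) ≤ ww k η := Nat.cast_nonneg _
    have hWd0 : (0 : ℝ) ≤ Wd N y := Nat.cast_nonneg _
    have hnR : (N : ℝ) < n := by exact_mod_cast hn0
    refine ⟨u, huE, ?_, ?_, hu1, hu2⟩
    · have e1 : (HH N : ℝ) * Real.log N ≤ HH N * Real.log n :=
        mul_le_mul_of_nonneg_left (Real.log_le_log hN0 hnR.le) hH0.le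
      linarith
    · have e1 : (HH N : ℝ) * Real.log (n + tt y) ≤ HH N * Real.log (2 * N) := by
        refine mul_le_mul_of_nonneg_left (Real.log_le_log ?_ (by exact_mod_cast hnt)) hH0.le
        have : (0 : ℝ) ≤ tt y := Nat.cast_nonneg _
        linarith
      linarith

end MP14ee70.TY
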