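import Mathlib
import Pool.Agent.Lib.MP_14ee70_nt.TY.P.Basic
import Pool.Agent.Lib.MP_14ee70_nt.TY.P.SuppT
import Pool.Agent.Lib.MP_14ee70_nt.TY.P.Win

/-!
# Project TY, file P/Beta: the long window has the right probability

`W = Wb`, `β = W/H ≥ y^(-1/20)/2`.  For an integer `v`: `Gall(v) = ∑_{m ∈ (y^(1/4), y], v ≤ ⌊H log m⌋ < v + W} 1/m`, `Gbad(v)` the same over the
`m` with `Ω(m) > K0`.
(1) `Gall(v) ≥ W/(2H)` if `(1/4) log y + 1 ≤ v/H ≤ log y - 1`: all the integers `m` with `v/H ≤ log m < (v+W-1)/H` are counted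
(`sum_inv_Ioc_ge`: `∑ 1/m ≥ log (b/a) - 2/a` over the integers of `[a, b)`), `2 e^(-v/H) ≤ 2 y^(-1/4)` is small against `β`.
(2) `∑_{v ∈ ℤ} Gbad(v) ≤ W ∑_{bad} 1/m ≤ W/L^9` (`sum_inv_bad`).
(3) Let `Y = stp^l * Lam`.  For `z` in the support of `Y` (`supp_Y`) choose the integer position `x'(z)` (`Near`).  For an integer `u`:
`P(xG(TLaw) ∈ u + {0..W-1}) ≥ Y.E (fun z => (1/Z0) (Gall - Gbad)(u - x'(z)))` (if `u ≤ ⌊H log m⌋ + x'(z) < u + W` then the position
of the product is in the window).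
For `H log N ≤ u ≤ H log (2N)` : `(u - x'(z))/H ∈ [(5/8) log y - 1, (5/8) log y + (k+1) log 2 + 1]`, so `Gall ≥ W/(2H)` ( `k ≤` small `log y`).
`bad(u) = Y.E (fun z => Gbad (u - x'(z)))`, `∑_u bad(u) ≤ W/L^9`, so `bad(u) ≤ W/(4H)` outside a set of at most
`4H/L^9 ≤ H/L^6` integers `u`; for the other `u`: `P ≥ W/(4 H Z0)`.
-/

namespace MP14ee70.TY

open Finset

private theorem beta_log_tele (m n : ℕ) (hm : 0 < m) (hmn : m ≤ n) :
    Real.log n - Real.log m ≤ ∑ i ∈ Finset.Ico m n, 1 / (i : ℝ) := by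
  induction n, hmn using Nat.le_induction with
  | base => simp
  | succ n hn ih =>
    rw [Finset.sum_Ico_succ_top hn]
    have hn0 : (0 : ℝ) < n := by exact_mod_cast hm.trans_le hn
    have h1 : Real.log ((n + 1 : ℕ) : ℝ) - Real.log n ≤ 1 / n := by
      rw [← Real.log_div (by positivity) hn0.ne']
      refine (Real.log_le_sub_one_of_pos (by positivity)).trans_eq ?_
      push_cast
      field_simp
      ring
    linarith

/-- `∑ 1/m ≥ log (b/a) - 2/a` over the integers with `a ≤ m < b`. -/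
theorem sum_inv_Ioc_ge (a b : ℝ) (ha : 1 ≤ a) (hab : a ≤ b) (S : Finset ℕ)
    (hS : ∀ m : ℕ, a ≤ m → (m : ℝ) < b → m ∈ S) (hS0 : ∀ m ∈ S, 0 < m) :
    Real.log (b / a) - 2 / a ≤ ∑ m ∈ S, 1 / (m : ℝ) := by
  have ha0 : 0 < a := by linarith
  have hb0 : 0 < b := by linarith
  have hsub : Finset.Ico ⌈a⌉₊ ⌈b⌉₊ ⊆ S := by
    intro m hm
    rw [Finset.mem_Ico] at hm
    exact hS m (Nat.ceil_le.1 hm.1) (Nat.lt_ceil.1 hm.2)
  have hm0 : 0 < ⌈a⌉₊ := Nat.ceil_pos.2 ha0
  have h1 := beta_log_tele ⌈a⌉₊ ⌈b⌉₊ hm0 (Nat.ceil_mono hab)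
  have h2 : ∑ i ∈ Finset.Ico ⌈a⌉₊ ⌈b⌉₊, 1 / (i : ℝ) ≤ ∑ m ∈ S, 1 / (m : ℝ) :=
    Finset.sum_le_sum_of_subset_of_nonneg hsub fun i _ _ => by positivity
  have h3 : Real.log b ≤ Real.log (⌈b⌉₊ : ℝ) := Real.log_le_log hb0 (Nat.le_ceil b)
  have h4 : Real.log (⌈a⌉₊ : ℝ) ≤ Real.log a + 1 / a := by
    have h5 : (⌈a⌉₊ : ℝ) ≤ a * (1 + 1 / a) := by
      have := (Nat.ceil_lt_add_one ha0.le).le
      have e : a * (1 + 1 / a) = a + 1 := by field_simp
      rwa [e]
    have h6 : Real.log (⌈a⌉₊ : ℝ) ≤ Real.log (a * (1 + 1 / a)) :=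
      Real.log_le_log (by exact_mod_cast hm0) h5
    have h7 : (0 : ℝ) < 1 + 1 / a := by positivity
    rw [Real.log_mul ha0.ne' h7.ne'] at h6
    have h8 := Real.log_le_sub_one_of_pos h7
    linarith
  rw [Real.log_div hb0.ne' ha0.ne']
  have h9 : 2 / a = 1 / a + 1 / a := by ring
  have h10 : 0 < 1 / a := by positivity
  linarith

/-- the weighted number of the `m ∈ S` with `v ≤ ⌊H log m⌋ < v + W` -/
private noncomputable def betaG (S : Finset ℕ) (H : ℝ) (W : ℕ) (v : ℤ) : ℝ :=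
  ∑ m ∈ S, 1 / (m : ℝ) * (if v ≤ ⌊H * Real.log m⌋ ∧ ⌊H * Real.log m⌋ < v + W then 1 else 0)

private theorem betaG_nonneg (S : Finset ℕ) (H : ℝ) (W : ℕ) (v : ℤ) : 0 ≤ betaG S H W v :=
  Finset.sum_nonneg fun m _ => mul_nonneg (by positivity) (by split_ifs <;> norm_num)

private theorem betaG_sum_le (S : Finset ℕ) (H : ℝ) (W : ℕ) (U : Finset ℤ) (t : ℤ) :
    ∑ u ∈ U, betaG S H W (u - t) ≤ W * ∑ m ∈ S, 1 / (m : ℝ) := by
  unfold betaG
  rw [Finset.sum_comm, Finset.mul_sum]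
  refine Finset.sum_le_sum fun m _ => ?_
  rw [← Finset.mul_sum, mul_comm (W : ℝ)]
  refine mul_le_mul_of_nonneg_left ?_ (by positivity)
  rw [Finset.sum_ite, Finset.sum_const_zero, add_zero, Finset.sum_const, nsmul_eq_mul, mul_one]
  have hsub : (U.filter fun u => u - t ≤ ⌊H * Real.log m⌋ ∧ ⌊H * Real.log m⌋ < u - t + W)
      ⊆ Finset.Ioc (⌊H * Real.log m⌋ + t - W) (⌊H * Real.log m⌋ + t) := by
    intro u hu
    rw [Finset.mem_filter] at hu
    rw [Finset.mem_Ioc]
    omega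
  have hcard := Finset.card_le_card hsub
  rw [Int.card_Ioc] at hcard
  have h1 : (⌊H * Real.log m⌋ + t - (⌊H * Real.log m⌋ + t - (W : ℤ))).toNat = W := by
    rw [sub_sub_cancel, Int.toNat_natCast]
  rw [h1] at hcard
  exact_mod_cast hcard

private theorem betaG_split (S : Finset ℕ) (P : ℕ → Prop) [DecidablePred P] (H : ℝ) (W : ℕ) (v : ℤ) :
    betaG S H W v = betaG (S.filter P) H W v + betaG (S.filter fun m => ¬ P m) H W v :=
  (Finset.sum_filter_add_sum_filter_not S P _).symm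

/-- the lower bound for the full sum -/
private theorem betaG_all (y H : ℝ) (W : ℕ) (v : ℤ) (hy : 1 ≤ y) (hH : 0 < H)
    (h1 : 1 / 4 * Real.log y < v / H) (h2 : (v + W) / H ≤ Real.log y)
    (h3 : 2 * Real.exp (-(v / H)) ≤ W / (2 * H)) :
    W / (2 * H) ≤ betaG (Finset.Ioc ⌊y ^ (1 / 4 : ℝ)⌋₊ ⌊y⌋₊) H W v := by
  have hy0 : 0 < y := by linarith
  have hly : 0 ≤ Real.log y := Real.log_nonneg hy
  set S := (Finset.Ioc ⌊y ^ (1 / 4 : ℝ)⌋₊ ⌊y⌋₊).filter
    (fun m : ℕ => v ≤ ⌊H * Real.log m⌋ ∧ ⌊H * Real.log m⌋ < v + W) with hS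
  have hsum : betaG (Finset.Ioc ⌊y ^ (1 / 4 : ℝ)⌋₊ ⌊y⌋₊) H W v = ∑ m ∈ S, 1 / (m : ℝ) := by
    unfold betaG
    rw [hS, Finset.sum_filter]
    refine Finset.sum_congr rfl fun m _ => ?_
    split_ifs <;> simp
  rw [hsum]
  have hvH : 0 < (v : ℝ) / H := by linarith
  have hWH : (0 : ℝ) ≤ W / H := by positivity
  have ha : 1 ≤ Real.exp (v / H) := Real.one_le_exp hvH.le
  have hab : Real.exp (v / H) ≤ Real.exp ((v + W) / H) := by
    apply Real.exp_le_exp.2
    rw [add_div]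
    linarith
  have key := sum_inv_Ioc_ge (Real.exp (v / H)) (Real.exp ((v + W) / H)) ha hab S ?_ ?_
  · rw [← Real.exp_sub, Real.log_exp, add_div, add_sub_cancel_left] at key
    have e1 : 2 / Real.exp (v / H) = 2 * Real.exp (-(v / H)) := by
      rw [Real.exp_neg]; ring
    rw [e1] at key
    have e2 : (W : ℝ) / H = W / (2 * H) + W / (2 * H) := by field_simp; ring
    linarith
  · intro m hm1 hm2
    have hm0 : (0 : ℝ) < m := lt_of_lt_of_le (Real.exp_pos _) hm1
    have hl1 : v / H ≤ Real.log m := (Real.le_log_iff_exp_le hm0).2 hm1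
    have hl2 : Real.log m < (v + W) / H := (Real.log_lt_iff_lt_exp hm0).2 hm2
    rw [hS, Finset.mem_filter, Finset.mem_Ioc]
    refine ⟨⟨?_, ?_⟩, ?_, ?_⟩
    · have h4 : y ^ (1 / 4 : ℝ) < m := by
        rw [Real.rpow_def_of_pos hy0]
        refine lt_of_lt_of_le (Real.exp_lt_exp.2 ?_) hm1
        linarith
      have := Nat.floor_le (Real.rpow_nonneg hy0.le (1 / 4 : ℝ))
      exact_mod_cast lt_of_le_of_lt this h4
    · apply Nat.le_floor
      have : (m : ℝ) < Real.exp (Real.log y) := lt_of_lt_of_le hm2 (Real.exp_le_exp.2 h2)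
      rw [Real.exp_log hy0] at this
      exact this.le
    · rw [Int.le_floor]
      rw [div_le_iff₀ hH] at hl1
      linarith
    · rw [Int.floor_lt]
      rw [lt_div_iff₀ hH] at hl2
      push_cast
      linarith
  · intro m hm
    rw [hS, Finset.mem_filter, Finset.mem_Ioc] at hm
    omega

/-- the probability of the window -/
private theorem beta_prob (N k : ℕ) (L y η : ℝ) (hZ : 0 < Z0 L y) (hA : (AA L y η).Nonempty)
    (Lam : Law (GN (QQ N L))) (l : ℕ) (W : ℕ) (u : ℤ) (A : GN (QQ N L) → Prop)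
    (t : GN (QQ N L) → ℤ)
    (hY : (stp (AA L y η) hA (val N (QQ N L)) ^ l * Lam).Supp A)
    (ht : ∀ z, A z → (t z : ZMod (QQ N L)) = xG z) :
    (stp (AA L y η) hA (val N (QQ N L)) ^ l * Lam).E
        (fun z => betaG (M0 L y) (HH N) W (u - t z) / Z0 L y)
      ≤ (TLaw N L y η hZ hA Lam l).P
        (fun z => ∃ x < W, xG z = ((u : ZMod (QQ N L))) + (x : ZMod (QQ N L))) := by
  classical
  unfold TLaw
  rw [mul_assoc]
  generalize stp (AA L y η) hA (val N (QQ N L)) ^ l * Lam = Y at hY ⊢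
  unfold Law.P
  rw [Law.mul_E]
  unfold fac0G
  rw [Law.map_E, Law.E_comm]
  refine hY.E_mono fun z hz => ?_
  unfold fac0
  rw [Law.wt_E]
  change betaG (M0 L y) (HH N) W (u - t z) / Z0 L y ≤ _ / Z0 L y
  refine div_le_div_of_nonneg_right ?_ hZ.le
  refine Finset.sum_le_sum fun m _ => mul_le_mul_of_nonneg_left ?_ (by positivity)
  by_cases hc : u - t z ≤ ⌊(HH N : ℝ) * Real.log m⌋ ∧ ⌊(HH N : ℝ) * Real.log m⌋ < u - t z + W
  · rw [if_pos hc, if_pos]
    refine ⟨(⌊(HH N : ℝ) * Real.log m⌋ + t z - u).toNat, by omega, ?_⟩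
    have e1 : (((⌊(HH N : ℝ) * Real.log m⌋ + t z - u).toNat : ℕ) : ZMod (QQ N L))
        = ((⌊(HH N : ℝ) * Real.log m⌋ + t z - u : ℤ) : ZMod (QQ N L)) := by
      rw [← Int.cast_natCast, Int.toNat_of_nonneg (by omega)]
    rw [e1]
    unfold xG
    rw [Prod.fst_mul, toAdd_mul, toAdd_ofAdd]
    have e2 : Multiplicative.toAdd z.1 = (t z : ZMod (QQ N L)) := (ht z hz).symm
    rw [e2]
    push_cast
    ring
  · rw [if_neg hc]
    split_ifs <;> norm_num

theorem beta_bound : ∃ C : ℝ, ∀ (N k : ℕ) (L y η : ℝ), RegF C N k L y η →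
    ∀ (hZ : 0 < Z0 L y) (hA : (AA L y η).Nonempty) (B : ℝ) (r : ℕ) (Lam : Law (GN (QQ N L))),
    LamData N k L y η hA B r Lam → ∀ l : ℕ, l + r = k →
    ∃ E : Finset ℤ, (E.card : ℝ) ≤ HH N / L ^ 6 ∧
      ∀ u : ℤ, (HH N : ℝ) * Real.log N ≤ u → (u : ℝ) ≤ HH N * Real.log (2 * N) → u ∉ E →
        1 / (4 * HH N * Z0 L y) ≤ fW (TLaw N L y η hZ hA Lam l) (Wb N y) (u : ZMod (QQ N L)) := by
  classical
  obtain ⟨C1, hC1⟩ := win_params
  obtain ⟨C2, hC2⟩ := supp_Y
  obtain ⟨C3, hC3⟩ := sum_inv_bad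
  refine ⟨max (max C1 C2) (max C3 1000), ?_⟩
  intro N k L y η h hZ hA B r Lam hLam l hlr
  have hF1 := h.mono ((le_max_left C1 C2).trans (le_max_left _ (max C3 1000)))
  have hF2 := h.mono ((le_max_right C1 C2).trans (le_max_left _ (max C3 1000)))
  have hF3 := h.mono ((le_max_left C3 1000).trans (le_max_right (max C1 C2) _))
  have hF4 := h.mono ((le_max_right C3 1000).trans (le_max_right (max C1 C2) _))
  clear h
  obtain ⟨w1, w2, -, w4, -, -, -, w8, -, -, -, -⟩ := hC1 N k L y η hF1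
  have hsupp := hC2 N k L y η hF2 hA B r Lam hLam l hlr.le
  have hbad := hC3 N k L y η hF3
  clear hC1 hC2 hC3
  -- numbers
  have hk1 : (1 : ℝ) ≤ k := by exact_mod_cast hF4.one_le_k
  have hN1000 : (1000 : ℝ) ≤ N := hF4.Nbig
  have hN0 : (0 : ℝ) < N := by linarith
  have hL1000 : 1000 ≤ L := hF4.Lbig
  have hL0 : 0 < L := by linarith
  have hy1000 : 1000 ≤ y := hF4.ybig
  have hy0 : 0 < y := by linarith
  have hlog7 : 1 ≤ Real.log L ^ 7 := one_le_pow₀ hF4.one_le_logL
  have hly : 1000 * (k : ℝ) ≤ Real.log y := by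
    refine le_trans ?_ hF4.logy_big
    have : 0 ≤ 1000 * (k : ℝ) := by positivity
    nlinarith
  have hLeq : L = (k + 5 / 8) * Real.log y := by
    rw [hF4.logy]
    field_simp
  have hNexp : (N : ℝ) = Real.exp L := by rw [hF4.hL, Real.exp_log hN0]
  have hHpos : (0 : ℝ) < (HH N : ℝ) := by
    unfold HH; push_cast; positivity
  have hHeq : (HH N : ℝ) = (N : ℝ) ^ 2 := by unfold HH; push_cast; ring
  have hkR : (k : ℝ) * Rn η ≤ HH N := by
    have e1 : (k : ℝ) * Rn η ≤ (ww k η : ℝ) := by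
      unfold ww
      push_cast
      have : (0 : ℝ) ≤ (k : ℝ) * Rn η := by positivity
      linarith
    have e2 : L ^ 3 ≤ (N : ℝ) ^ 2 := by
      have := Real.pow_div_factorial_le_exp L hL0.le 3
      rw [← hNexp] at this
      have e3 : ((Nat.factorial 3 : ℕ) : ℝ) = 6 := by norm_num [Nat.factorial]
      rw [e3, div_le_iff₀ (by norm_num)] at this
      nlinarith
    rw [hHeq]
    linarith
  -- the choice of the integer positions
  let t : GN (QQ N L) → ℤ := fun z => if hz : Near N L ((k : ℝ) * Rn η) z then hz.choose else 0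
  have ht : ∀ z, Near N L ((k : ℝ) * Rn η) z → (t z : ZMod (QQ N L)) = xG z ∧
      |(t z : ℝ) - HH N * Real.log z.2| ≤ (k : ℝ) * Rn η := by
    intro z hz
    have : t z = hz.choose := dif_pos hz
    rw [this]
    exact hz.choose_spec
  set Y := stp (AA L y η) hA (val N (QQ N L)) ^ l * Lam with hYdef
  set W := Wb N y with hWdef
  have hWpos : (0 : ℝ) < W := by
    have : 1 ≤ W := w1.trans w2
    exact_mod_cast this
  set J : Finset ℕ := Finset.Ioc ⌊y ^ (1 / 4 : ℝ)⌋₊ ⌊y⌋₊ with hJ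
  set Jb : Finset ℕ := J.filter (fun m => ¬ ArithmeticFunction.cardFactors m ≤ K0 L) with hJb
  have hM0 : M0 L y = J.filter (fun m => ArithmeticFunction.cardFactors m ≤ K0 L) := rfl
  have hJbsum : ∑ m ∈ Jb, 1 / (m : ℝ) ≤ 1 / L ^ 9 := by
    refine le_trans (Finset.sum_le_sum_of_subset_of_nonneg ?_ fun i _ _ => by positivity) hbad
    intro m hm
    rw [hJb, Finset.mem_filter, hJ, Finset.mem_Ioc] at hm
    rw [Finset.mem_filter, Finset.mem_Icc]
    exact ⟨⟨by omega, hm.1.2⟩, hm.2⟩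
  let bad : ℤ → ℝ := fun u => Y.E fun z => betaG Jb (HH N) W (u - t z)
  have hbadsum : ∀ U : Finset ℤ, ∑ u ∈ U, bad u ≤ W * (1 / L ^ 9) := by
    intro U
    change ∑ u ∈ U, Y.E (fun z => betaG Jb (HH N) W (u - t z)) ≤ _
    rw [← Law.E_sum]
    refine Y.E_le_of_le fun z => ?_
    exact (betaG_sum_le Jb (HH N) W U (t z)).trans (mul_le_mul_of_nonneg_left hJbsum hWpos.le)
  refine ⟨(Finset.Icc ⌈(HH N : ℝ) * Real.log N⌉ ⌊(HH N : ℝ) * Real.log (2 * N)⌋).filter
    (fun u => (W : ℝ) / (4 * HH N) < bad u), ?_, ?_⟩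
  · set E := (Finset.Icc ⌈(HH N : ℝ) * Real.log N⌉ ⌊(HH N : ℝ) * Real.log (2 * N)⌋).filter
      (fun u => (W : ℝ) / (4 * HH N) < bad u) with hE
    have e1 : (E.card : ℝ) * (W / (4 * HH N)) ≤ W * (1 / L ^ 9) := by
      refine le_trans ?_ (hbadsum E)
      rw [← nsmul_eq_mul]
      refine Finset.card_nsmul_le_sum _ _ _ fun u hu => ?_
      rw [hE, Finset.mem_filter] at hu
      exact hu.2.le
    have e2 : (E.card : ℝ) ≤ 4 * HH N / L ^ 9 := by
      have e3 : (E.card : ℝ) * (W / (4 * HH N)) = W * ((E.card : ℝ) / (4 * HH N)) := by ring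
      rw [e3] at e1
      have e4 := le_of_mul_le_mul_left e1 hWpos
      rw [div_le_iff₀ (by positivity)] at e4
      refine e4.trans_eq ?_
      ring
    refine e2.trans ?_
    rw [div_le_div_iff₀ (by positivity) (by positivity)]
    have e5 : (4 : ℝ) ≤ L ^ 3 := by nlinarith [sq_nonneg L]
    have e6 : (0 : ℝ) ≤ HH N * L ^ 6 := by positivity
    calc 4 * (HH N : ℝ) * L ^ 6 = (HH N * L ^ 6) * 4 := by ring
      _ ≤ (HH N * L ^ 6) * L ^ 3 := mul_le_mul_of_nonneg_left e5 e6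
      _ = HH N * L ^ 9 := by ring
  · intro u hu1 hu2 huE
    have hbadu : bad u ≤ (W : ℝ) / (4 * HH N) := by
      by_contra hcon
      apply huE
      rw [Finset.mem_filter, Finset.mem_Icc]
      exact ⟨⟨Int.ceil_le.2 hu1, Int.le_floor.2 hu2⟩, not_le.1 hcon⟩
    have hall : (W : ℝ) / (2 * HH N) ≤ Y.E (fun z => betaG J (HH N) W (u - t z)) := by
      refine ((Y.E_const _).symm.trans_le ?_)
      refine hsupp.E_mono fun z hz => ?_
      obtain ⟨hz1, hz2, hz3, -⟩ := hz
      rw [hlr] at hz2 hz3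
      obtain ⟨-, hz4⟩ := ht z hz1
      rw [abs_le] at hz4
      have hy2 : 0 < y / 2 := by positivity
      have hz0 : (0 : ℝ) < z.2 := lt_of_lt_of_le (by positivity) hz2
      have hlz1 : k * (Real.log y - Real.log 2) ≤ Real.log z.2 := by
        rw [← Real.log_div hy0.ne' (by norm_num), ← Real.log_pow]
        exact Real.log_le_log (by positivity) hz2
      have hlz2 : Real.log z.2 ≤ k * Real.log y := by
        rw [← Real.log_pow]
        exact Real.log_le_log hz0 hz3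
      have hl2 : Real.log 2 ≤ 1 := by
        have := Real.log_le_sub_one_of_pos (show (0 : ℝ) < 2 by norm_num)
        linarith
      have hl20 : 0 ≤ Real.log 2 := Real.log_nonneg (by norm_num)
      have hlN : Real.log N = L := hF4.hL.symm
      have hl2N : Real.log (2 * N) = Real.log 2 + L := by
        rw [Real.log_mul (by norm_num) hN0.ne', hlN]
      rw [hlN] at hu1
      rw [hl2N] at hu2
      have hv1 : 5 / 8 * Real.log y - 1 ≤ ((u - t z : ℤ) : ℝ) / HH N := by
        rw [le_div_iff₀ hHpos]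
        push_cast
        have e1 : (HH N : ℝ) * Real.log z.2 ≤ HH N * (k * Real.log y) :=
          mul_le_mul_of_nonneg_left hlz2 hHpos.le
        have e2 : (HH N : ℝ) * L = HH N * (k * Real.log y) + HH N * (5 / 8 * Real.log y) := by
          rw [hLeq]; ring
        nlinarith
      have hW1 : (W : ℝ) ≤ HH N := by
        have e1 : ((Wb N y : ℕ) : ℝ) ≤ y ^ (-(1 / 20) : ℝ) * HH N := by
          unfold Wb
          exact Nat.floor_le (by positivity)
        refine e1.trans ?_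
        have e2 : y ^ (-(1 / 20) : ℝ) ≤ 1 :=
          Real.rpow_le_one_of_one_le_of_nonpos (by linarith) (by norm_num)
        nlinarith
      have hv2 : (((u - t z : ℤ) : ℝ) + W) / HH N ≤ Real.log y := by
        rw [div_le_iff₀ hHpos]
        push_cast
        have e1 : (HH N : ℝ) * (k * (Real.log y - Real.log 2)) ≤ HH N * Real.log z.2 :=
          mul_le_mul_of_nonneg_left hlz1 hHpos.le
        have e2 : (HH N : ℝ) * (Real.log 2 + L) = HH N * (Real.log 2 + (k + 5 / 8) * Real.log y) := by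
          rw [hLeq]
        have e3 : (HH N : ℝ) * (Real.log 2 + (k + 5 / 8) * Real.log y)
            - HH N * (k * (Real.log y - Real.log 2)) + 2 * HH N
            = HH N * ((k + 1) * Real.log 2 + 5 / 8 * Real.log y + 2) := by ring
        have e4 : ((k : ℝ) + 1) * Real.log 2 + 5 / 8 * Real.log y + 2 ≤ Real.log y := by
          have : ((k : ℝ) + 1) * Real.log 2 ≤ ((k : ℝ) + 1) * 1 :=
            mul_le_mul_of_nonneg_left hl2 (by positivity)
          linarith
        have e5 : (HH N : ℝ) * ((k + 1) * Real.log 2 + 5 / 8 * Real.log y + 2) ≤ HH N * Real.log y :=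
          mul_le_mul_of_nonneg_left e4 hHpos.le
        linarith
      refine betaG_all y (HH N) W (u - t z) (by linarith) hHpos ?_ hv2 ?_
      · linarith
      · have e1 : Real.exp (-(((u - t z : ℤ) : ℝ) / HH N)) ≤ Real.exp (1 - 5 / 8 * Real.log y) :=
          Real.exp_le_exp.2 (by linarith)
        have e2 : y ^ (-(1 / 20) : ℝ) / 4 ≤ (W : ℝ) / (2 * HH N) := by
          rw [div_le_div_iff₀ (by norm_num) (by positivity)]
          linarith
        have e3 : y ^ (-(1 / 20) : ℝ) = Real.exp (-(1 / 20) * Real.log y) := by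
          rw [Real.rpow_def_of_pos hy0, mul_comm]
        have e4 : 8 * Real.exp (1 - 5 / 8 * Real.log y) ≤ Real.exp (-(1 / 20) * Real.log y) := by
          have e5 : Real.exp (-(1 / 20) * Real.log y)
              = Real.exp (23 / 40 * Real.log y - 1) * Real.exp (1 - 5 / 8 * Real.log y) := by
            rw [← Real.exp_add]; congr 1; ring
          rw [e5]
          refine mul_le_mul_of_nonneg_right ?_ (Real.exp_pos _).le
          have := Real.add_one_le_exp (23 / 40 * Real.log y - 1)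
          linarith
        rw [e3] at e2
        linarith
    have hsplit : Y.E (fun z => betaG (M0 L y) (HH N) W (u - t z))
        = Y.E (fun z => betaG J (HH N) W (u - t z)) - bad u := by
      change _ = _ - Y.E (fun z => betaG Jb (HH N) W (u - t z))
      rw [← Law.E_sub]
      congr 1
      funext z
      rw [hM0, hJb, betaG_split J (fun m => ArithmeticFunction.cardFactors m ≤ K0 L)]
      ring
    have hprob := beta_prob N k L y η hZ hA Lam l W u (Near N L ((k : ℝ) * Rn η)) t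
      (hsupp.mono fun z hz => hz.1) (fun z hz => (ht z hz).1)
    have hE1 : Y.E (fun z => betaG (M0 L y) (HH N) W (u - t z) / Z0 L y)
        = Y.E (fun z => betaG (M0 L y) (HH N) W (u - t z)) / Z0 L y := by
      have e1 : (fun z => betaG (M0 L y) (HH N) W (u - t z) / Z0 L y)
          = fun z => betaG (M0 L y) (HH N) W (u - t z) * (Z0 L y)⁻¹ := by
        funext z; rw [div_eq_mul_inv]
      rw [e1, Law.E_mul_const, div_eq_mul_inv]
    rw [← hYdef, hE1, hsplit] at hprob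
    have hfin : (W : ℝ) / (4 * HH N) / Z0 L y ≤ (TLaw N L y η hZ hA Lam l).P
        (fun z => ∃ x < W, xG z = ((u : ZMod (QQ N L))) + (x : ZMod (QQ N L))) := by
      refine le_trans (div_le_div_of_nonneg_right ?_ hZ.le) hprob
      have e1 : (W : ℝ) / (2 * HH N) = W / (4 * HH N) + W / (4 * HH N) := by field_simp; ring
      linarith
    unfold fW
    rw [le_div_iff₀ hWpos]
    refine le_trans (le_of_eq ?_) hfin
    field_simp

end MP14ee70.TY
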