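import Mathlib
import Pool.Agent.Lib.MP_14ee70_nt.TY.P.Basic
import Pool.Agent.Lib.MP_14ee70_nt.TY.P.Win
import Pool.Agent.Lib.MP_14ee70_nt.TY.F.Nu

/-!
# Project TY, file P/Case12: small frequencies, bad frequencies

`case1`: `|τ_r| ≤ y^(1/40)`: at most `2 h y^(1/40)` residues (`|r0| ≤ h y^(1/40)/(2π)`), `‖chf‖ ≤ 1`, and
`wn_sub_le` with `nrm r = |τ|/(2π H)` (`nrm_eq_tau`), `Wb ≤ y^(-1/20) H`: `‖wn - wn‖ ≤ 2 y^(1/40 - 1/20)`.  Total `≤ 8 h y^(1/40) y^(-1/20) ≤ L^(-11)`.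
`case2`: `|τ_r| > y^(1/40) ≥ 18 sqrt η`, so `r ∉ LowS` and `|ν| ≤ 1 - η` (`nu_high`): `‖chf‖^2 ≤ (1-η)^(2l) ‖chf Lam‖^2`
(`norm_chf_TLaw_le`), `‖wn - wn‖^2 ≤ 4`, `(1-η)^(2l) ≤ exp (-2ηl) ≤ exp (-(3/2) k η)`, and `k η ≥ C (log L)^7`:
total `≤ 4 exp (-(3/2) k η + C1 (log L)^2) ≤ L^(-11)`.
-/

namespace MP14ee70.TY

open Finset

/-- the number of residues with small absolute value -/
theorem case12_card {Q : ℕ} [NeZero Q] (R : ℝ) (hR : 0 ≤ R) (S : Finset (ZMod Q))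
    (hS : ∀ r ∈ S, |(r.valMinAbs : ℝ)| ≤ R) : (S.card : ℝ) ≤ 2 * R + 1 := by
  have h1 : S.card ≤ (Finset.Icc (-⌊R⌋) ⌊R⌋).card := by
    refine Finset.card_le_card_of_injOn (fun r => r.valMinAbs) ?_ ?_
    · intro r hr
      have h2 := abs_le.1 (hS r (Finset.mem_coe.1 hr))
      rw [Finset.mem_coe, Finset.mem_Icc]
      constructor
      · have h3 : -r.valMinAbs ≤ ⌊R⌋ := by
          rw [Int.le_floor]
          push_cast
          linarith
        linarith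
      · rw [Int.le_floor]
        exact h2.2
    · intro r _ r' _ h
      exact ZMod.injective_valMinAbs h
  have h2 : ((Finset.Icc (-⌊R⌋) ⌊R⌋).card : ℝ) = 2 * (⌊R⌋ : ℝ) + 1 := by
    have h0 : 0 ≤ ⌊R⌋ := Int.floor_nonneg.2 hR
    rw [Int.card_Icc]
    have h3 : ((⌊R⌋ + 1 - -⌊R⌋).toNat : ℤ) = 2 * ⌊R⌋ + 1 := by
      rw [Int.toNat_of_nonneg (by linarith)]
      ring
    exact_mod_cast h3
  have h3 : (S.card : ℝ) ≤ ((Finset.Icc (-⌊R⌋) ⌊R⌋).card : ℝ) := by exact_mod_cast h1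
  rw [h2] at h3
  have h4 := Int.floor_le R
  linarith

theorem case1 : ∃ C : ℝ, ∀ (N k : ℕ) (L y η : ℝ) [NeZero (QQ N L)], RegF C N k L y η →
    ∀ (hZ : 0 < Z0 L y) (hA : (AA L y η).Nonempty) (Lam : Law (GN (QQ N L))) (l : ℕ),
    ∑ r ∈ (Finset.univ : Finset (ZMod (QQ N L))).filter (fun r => |tau N L r| ≤ y ^ (1 / 40 : ℝ)),
      ‖chf (TLaw N L y η hZ hA Lam l) r‖ ^ 2 * ‖wn (Wd N y) r - wn (Wb N y) r‖ ^ 2 ≤ 1 / L ^ 11 := by
  obtain ⟨C1, hC1⟩ := win_params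
  obtain ⟨C2, hC2⟩ := L_pow_le_y 20 (1 / 40) (by norm_num)
  refine ⟨max C1 C2, fun N k L y η _ h hZ hA Lam l => ?_⟩
  obtain ⟨hWd1, hWdb, hWb, -, -, -, -, -, -, hh1, hh2, -⟩ := hC1 N k L y η (h.mono (le_max_left _ _))
  have hLy := hC2 N k L y η (h.mono (le_max_right _ _))
  have hL1 := h.one_le_L
  have hL0 : 0 < L := by linarith
  have hpi := Real.pi_gt_three
  obtain ⟨w, hw⟩ : ∃ w : ℝ, w = y ^ (1 / 40 : ℝ) := ⟨_, rfl⟩
  have hw0 : 0 < w := by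
    rw [hw]
    exact Real.rpow_pos_of_pos h.ypos _
  have hw2 : y ^ (-(1 / 20) : ℝ) = 1 / w ^ 2 := by
    have e1 : w ^ 2 = y ^ (1 / 20 : ℝ) := by
      rw [hw, ← Real.rpow_natCast, ← Real.rpow_mul h.ypos.le]
      norm_num
    rw [Real.rpow_neg h.ypos.le, ← e1, one_div]
  have hwL : 20 * L ^ 12 ≤ w := by
    rw [hw]
    refine le_trans ?_ hLy
    have e1 : L ^ (12 : ℕ) ≤ L ^ (20 : ℝ) := by
      rw [show (20 : ℝ) = ((20 : ℕ) : ℝ) by norm_num, Real.rpow_natCast]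
      exact pow_le_pow_right₀ hL1 (by norm_num)
    linarith
  have hw1 : 20 ≤ w := by
    have e1 : (1 : ℝ) ≤ L ^ 12 := one_le_pow₀ hL1
    linarith
  have hQpos : 0 < QQ N L := Nat.pos_of_ne_zero (NeZero.ne _)
  have hhpos : (0 : ℝ) < hh L := by linarith
  have hHpos : (0 : ℝ) < HH N := by
    have h1 : 0 < HH N := by
      unfold QQ at hQpos
      exact Nat.pos_of_mul_pos_left hQpos
    exact_mod_cast h1
  rw [← hw]
  obtain ⟨S, hS⟩ : ∃ S : Finset (ZMod (QQ N L)), S = (Finset.univ : Finset (ZMod (QQ N L))).filter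
    (fun r => |tau N L r| ≤ w) := ⟨_, rfl⟩
  rw [← hS]
  have hSm : ∀ r ∈ S, |tau N L r| ≤ w := by
    intro r hr
    rw [hS] at hr
    exact (Finset.mem_filter.1 hr).2
  have hcard : (S.card : ℝ) ≤ 5 * L * w := by
    have h1 : (S.card : ℝ) ≤ 2 * (w * hh L / (2 * Real.pi)) + 1 := by
      refine case12_card _ (by positivity) S fun r hr => ?_
      have h2 := hSm r hr
      unfold tau at h2
      rw [abs_div, abs_mul, abs_of_pos (by positivity : (0 : ℝ) < 2 * Real.pi),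
        abs_of_pos hhpos, div_le_iff₀ hhpos] at h2
      rw [le_div_iff₀ (by positivity)]
      linarith
    have h2 : 2 * (w * hh L / (2 * Real.pi)) ≤ w * hh L / 3 := by
      have e1 : 2 * (w * hh L / (2 * Real.pi)) = w * hh L / Real.pi := by
        field_simp
      rw [e1]
      exact div_le_div_of_nonneg_left (by positivity) (by norm_num) hpi.le
    have h3 : (3 : ℝ) ≤ w * hh L := by nlinarith
    have h4 : w * hh L ≤ w * (5 * L) := mul_le_mul_of_nonneg_left hh2 hw0.le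
    linarith
  have hterm : ∀ r ∈ S, ‖chf (TLaw N L y η hZ hA Lam l) r‖ ^ 2 *
      ‖wn (Wd N y) r - wn (Wb N y) r‖ ^ 2 ≤ 4 / w ^ 2 := by
    intro r hr
    have h1 := norm_chf_le_one (TLaw N L y η hZ hA Lam l) r
    have h2 : ‖wn (Wd N y) r - wn (Wb N y) r‖ ≤ 2 / w := by
      refine (wn_sub_le _ _ hWd1 hWdb r).trans ?_
      rw [nrm_eq_tau]
      have h3 : |tau N L r| / (2 * Real.pi * HH N) * (Wb N y : ℝ) ≤
          w / (2 * Real.pi * HH N) * (1 / w ^ 2 * HH N) := by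
        rw [hw2] at hWb
        have h4 := hSm r hr
        gcongr
      refine (mul_le_mul_of_nonneg_left h3 (by positivity)).trans_eq ?_
      field_simp
      norm_num
    have h3 : ‖chf (TLaw N L y η hZ hA Lam l) r‖ ^ 2 ≤ 1 := pow_le_one₀ (norm_nonneg _) h1
    have h4 : ‖wn (Wd N y) r - wn (Wb N y) r‖ ^ 2 ≤ (2 / w) ^ 2 :=
      pow_le_pow_left₀ (norm_nonneg _) h2 2
    calc ‖chf (TLaw N L y η hZ hA Lam l) r‖ ^ 2 * ‖wn (Wd N y) r - wn (Wb N y) r‖ ^ 2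
        ≤ 1 * (2 / w) ^ 2 := mul_le_mul h3 h4 (by positivity) (by norm_num)
      _ = 4 / w ^ 2 := by ring
  refine (Finset.sum_le_card_nsmul S _ _ hterm).trans ?_
  rw [nsmul_eq_mul]
  calc (S.card : ℝ) * (4 / w ^ 2) ≤ 5 * L * w * (4 / w ^ 2) :=
        mul_le_mul_of_nonneg_right hcard (by positivity)
    _ = 20 * L / w := by
        field_simp
        norm_num
    _ ≤ 20 * L / (20 * L ^ 12) := div_le_div_of_nonneg_left (by positivity) (by positivity) hwL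
    _ = 1 / L ^ 11 := by
        field_simp

theorem case2 (C1 : ℝ) : ∃ c0 : ℝ, 0 < c0 ∧ ∃ C : ℝ,
    ∀ (N k : ℕ) (L y η : ℝ) [NeZero (QQ N L)], RegF C N k L y η → η * (k : ℝ) ^ 2 ≤ c0 * Real.log y →
    ∀ (hZ : 0 < Z0 L y) (hA : (AA L y η).Nonempty) (Lam : Law (GN (QQ N L))) (l : ℕ)
      (BAD : Finset (ZMod (QQ N L))), 3 * k ≤ 4 * l →
    ∑ t ∈ BAD, ‖chf Lam t‖ ^ 2 ≤ Real.exp (C1 * Real.log L ^ 2) →
    ∑ r ∈ BAD.filter (fun r => y ^ (1 / 40 : ℝ) < |tau N L r|),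
      ‖chf (TLaw N L y η hZ hA Lam l) r‖ ^ 2 * ‖wn (Wd N y) r - wn (Wb N y) r‖ ^ 2 ≤ 1 / L ^ 11 := by
  obtain ⟨c0, hc0, C2, hnu⟩ := nu_high
  obtain ⟨C3, hC3⟩ := L_pow_le_y 18 (1 / 40) (by norm_num)
  refine ⟨c0, hc0, max (max C2 C3) (|C1| + 20), fun N k L y η _ h hk hZ hA Lam l BAD hl hBAD => ?_⟩
  have hnu' := hnu N k L y η (h.mono ((le_max_left _ _).trans (le_max_left _ _))) hk
  have hLy := hC3 N k L y η (h.mono ((le_max_right _ _).trans (le_max_left _ _)))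
  have hkη := (h.mono (le_max_right (max C2 C3) (|C1| + 20))).kη
  have hL1 := h.one_le_L
  have hL0 : 0 < L := by linarith
  have hη0 := h.η_pos
  have hη1 : η ≤ 1 := h.η_hi.trans (Real.rpow_le_one_of_one_le_of_nonpos hL1 (by norm_num))
  have hlam := h.one_le_logL
  have hy18 : 18 ≤ y ^ (1 / 40 : ℝ) := by
    refine le_trans ?_ hLy
    have e1 : (1 : ℝ) ≤ L ^ (18 : ℝ) := Real.one_le_rpow hL1 (by norm_num)
    linarith
  have hsq : Real.sqrt η ≤ 1 := by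
    rw [Real.sqrt_le_left zero_le_one, one_pow]
    exact hη1
  have hterm : ∀ r ∈ BAD.filter (fun r => y ^ (1 / 40 : ℝ) < |tau N L r|),
      ‖chf (TLaw N L y η hZ hA Lam l) r‖ ^ 2 * ‖wn (Wd N y) r - wn (Wb N y) r‖ ^ 2 ≤
        4 * (1 - η) ^ (2 * l) * ‖chf Lam r‖ ^ 2 := by
    intro r hr
    have h1 := (Finset.mem_filter.1 hr).2
    have h2 : r ∉ LowS N L η := by
      unfold LowS
      rw [Finset.mem_filter]
      rintro ⟨-, h3⟩
      linarith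
    have h3 := hnu' r h2
    have h4 := norm_chf_TLaw_le N L y η hZ hA Lam l r
    have h5 : ‖nu N L y η r‖ ^ l ≤ (1 - η) ^ l := pow_le_pow_left₀ (norm_nonneg _) h3 l
    have h6 : ‖chf (TLaw N L y η hZ hA Lam l) r‖ ≤ (1 - η) ^ l * ‖chf Lam r‖ :=
      h4.trans (mul_le_mul_of_nonneg_right h5 (norm_nonneg _))
    have h7 : ‖wn (Wd N y) r - wn (Wb N y) r‖ ≤ 2 := by
      refine (norm_sub_le _ _).trans ?_
      have e1 := norm_wn_le_one (Wd N y) r
      have e2 := norm_wn_le_one (Wb N y) r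
      linarith
    have h8 := pow_le_pow_left₀ (norm_nonneg _) h6 2
    have h9 := pow_le_pow_left₀ (norm_nonneg _) h7 2
    calc ‖chf (TLaw N L y η hZ hA Lam l) r‖ ^ 2 * ‖wn (Wd N y) r - wn (Wb N y) r‖ ^ 2
        ≤ ((1 - η) ^ l * ‖chf Lam r‖) ^ 2 * 2 ^ 2 := mul_le_mul h8 h9 (by positivity) (by positivity)
      _ = 4 * (1 - η) ^ (2 * l) * ‖chf Lam r‖ ^ 2 := by
        rw [mul_pow, ← pow_mul, mul_comm l 2]
        ring
  refine (Finset.sum_le_sum hterm).trans ?_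
  rw [← Finset.mul_sum]
  have hsum : ∑ r ∈ BAD.filter (fun r => y ^ (1 / 40 : ℝ) < |tau N L r|), ‖chf Lam r‖ ^ 2 ≤
      Real.exp (C1 * Real.log L ^ 2) := by
    refine le_trans ?_ hBAD
    exact Finset.sum_le_sum_of_subset_of_nonneg (Finset.filter_subset _ _)
      fun _ _ _ => by positivity
  have h1η : 0 ≤ 1 - η := by linarith
  have hpow : (1 - η) ^ (2 * l) ≤ Real.exp (-(2 * l * η)) := by
    have h1 : 1 - η ≤ Real.exp (-η) := Real.one_sub_le_exp_neg η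
    have h2 := pow_le_pow_left₀ h1η h1 (2 * l)
    rw [← Real.exp_nat_mul] at h2
    refine h2.trans_eq ?_
    congr 1
    push_cast
    ring
  have h4 : (4 : ℝ) ≤ Real.exp 2 := by
    have e1 := Real.exp_one_gt_d9
    have e2 : Real.exp 2 = Real.exp 1 * Real.exp 1 := by
      rw [← Real.exp_add]
      norm_num
    rw [e2]
    nlinarith
  have hfin : 2 + (-(2 * l * η) + C1 * Real.log L ^ 2) ≤ -(11 * Real.log L) := by
    have hl' : 3 * (k : ℝ) ≤ 4 * l := by exact_mod_cast hl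
    have e1 : 3 / 2 * (k * η) ≤ 2 * l * η := by nlinarith
    have e2 : Real.log L ≤ Real.log L ^ 7 := by
      calc Real.log L = Real.log L ^ 1 := (pow_one _).symm
        _ ≤ _ := pow_le_pow_right₀ hlam (by norm_num)
    have e3 : Real.log L ^ 2 ≤ Real.log L ^ 7 := pow_le_pow_right₀ hlam (by norm_num)
    have e4 : C1 * Real.log L ^ 2 ≤ |C1| * Real.log L ^ 7 :=
      (mul_le_mul_of_nonneg_right (le_abs_self C1) (by positivity)).trans
        (mul_le_mul_of_nonneg_left e3 (abs_nonneg _))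
    have e5 : 0 ≤ |C1| * Real.log L ^ 7 := by positivity
    nlinarith
  calc 4 * (1 - η) ^ (2 * l) * ∑ r ∈ BAD.filter (fun r => y ^ (1 / 40 : ℝ) < |tau N L r|),
        ‖chf Lam r‖ ^ 2
      ≤ Real.exp 2 * Real.exp (-(2 * l * η)) * Real.exp (C1 * Real.log L ^ 2) := by
        gcongr
    _ = Real.exp (2 + (-(2 * l * η) + C1 * Real.log L ^ 2)) := by
        rw [Real.exp_add, Real.exp_add]
        ring
    _ ≤ Real.exp (-(11 * Real.log L)) := Real.exp_le_exp.2 hfin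
    _ = 1 / L ^ 11 := by
        rw [Real.exp_neg, one_div]
        congr 1
        have e1 : (11 : ℝ) * Real.log L = ((11 : ℕ) : ℝ) * Real.log L := by norm_num
        rw [e1, Real.exp_nat_mul, Real.exp_log hL0]

end MP14ee70.TY
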