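import Mathlib
import Pool.Agent.Lib.MP_14ee70_nt.TY.P.Basic
import Pool.Agent.Lib.MP_14ee70_nt.TY.F.Nu
import Pool.Agent.Lib.MP_14ee70_nt.TY.F.F2ab
import Pool.Agent.Lib.MP_14ee70_nt.TY.P.Case45

/-!
# Project TY, file P/Case3: the frequencies with `e^(-v0) ≤ |ν| < e^(-v2)`, `|τ| ≤ N y^(-5)`

`count_level`: let `X` be a set of frequencies with `|τ_r| ≤ N^3`; there is a `Sep (N^3)` subset `TT` of `{τ_r}` with
`#X ≤ hh L * #TT` (a maximal `1`-separated subset; the `τ_r` are different multiples of `2π/h`, an interval of length `2` contains at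
most `h/π + 1 ≤ h` of them).
Level `v` (`v2 ≤ v ≤ v0`): `r` with `e^(-2v) ≤ |ν(r)| ≤ e^(-v)`.  By `nu_le_mu` (`|τ|/H ≤ y^(-5)/N`) `|mu τ| ≥ e^(-2v) - y^(-5)/N ≥ e^(-3v)`
(`e^(-2v)(1 - e^(-v)) ≥ e^(-2 v0) min(v2,1)/2 ≥ 1/N`).
`v ≤ 1/2`: `|mu| ≥ e^(-2)`, `F2aProp`: `#TT ≤ e^lp`, `lp = CT (log L)^3/sqrt η`; `|ν|^(2l) ≤ e^(-2 l v) ≤ e^(-6 lp)` since `l ≥ 3k/4`, `v ≥ v2 = 4 lp/k`.
`v > 1/2`: `F2b` with `V = 3v ≤ k (log L)^3`: `#TT ≤ exp (3kv/10)`, `|ν|^(2l) ≤ e^(-3kv/2)`.
Levels `v = 2^i v2`, `2^i v2 ≤ v0`: at most `L` of them (`log_2 (v0/v2) + 1 ≤ L`).  Total `≤ L h (e^(-5 lp) + e^(-k/2)) ≤ L^(-11)`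
(`lp ≥ CT L^(1/6)`, `k ≥ L^(9/20)`).
-/

namespace MP14ee70.TY

open Finset

/-- the number of the integers in a short interval -/
theorem c3_int (S : Finset ℤ) (x δ : ℝ) (hδ : 0 ≤ δ) (h : ∀ j ∈ S, |(j : ℝ) - x| ≤ δ) :
    (S.card : ℝ) ≤ 2 * δ + 1 := by
  have h1 : S ⊆ Finset.Icc ⌈x - δ⌉ ⌊x + δ⌋ := by
    intro j hj
    have := abs_le.1 (h j hj)
    rw [Finset.mem_Icc, Int.ceil_le, Int.le_floor]
    constructor <;> linarith [this.1, this.2]
  have h2 := Finset.card_le_card h1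
  rw [Int.card_Icc] at h2
  have h3 : (((⌊x + δ⌋ + 1 - ⌈x - δ⌉).toNat : ℕ) : ℝ) ≤ 2 * δ + 1 := by
    rcases le_total 0 (⌊x + δ⌋ + 1 - ⌈x - δ⌉) with h0 | h0
    · have h4 : (((⌊x + δ⌋ + 1 - ⌈x - δ⌉).toNat : ℕ) : ℝ) =
          ((⌊x + δ⌋ + 1 - ⌈x - δ⌉ : ℤ) : ℝ) := by
        have := Int.toNat_of_nonneg h0
        exact_mod_cast congrArg (fun z : ℤ => (z : ℝ)) this
      rw [h4]
      push_cast
      have h5 := Int.floor_le (x + δ)
      have h6 := Int.le_ceil (x - δ)
      linarith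
    · rw [Int.toNat_of_nonpos h0, Nat.cast_zero]
      linarith
  have h4 : (S.card : ℝ) ≤ (((⌊x + δ⌋ + 1 - ⌈x - δ⌉).toNat : ℕ) : ℝ) := by exact_mod_cast h2
  exact h4.trans h3

/-- a maximal separated subset -/
theorem c3_sep (A : Finset ℝ) (T : ℝ) (hA : ∀ a ∈ A, |a| ≤ T) :
    ∃ TT : Finset ℝ, TT ⊆ A ∧ Sep T TT ∧ ∀ a ∈ A, ∃ b ∈ TT, |a - b| < 1 := by
  classical
  have hne : (A.powerset.filter fun S => Sep T S).Nonempty := by
    refine ⟨∅, Finset.mem_filter.2 ⟨Finset.empty_mem_powerset A, ?_⟩⟩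
    exact ⟨fun a ha => absurd ha (Finset.notMem_empty a), fun a ha => absurd ha (Finset.notMem_empty a)⟩
  obtain ⟨TT, hTT, hmax⟩ := Finset.exists_max_image _ (fun S => S.card) hne
  obtain ⟨h1, h2⟩ := Finset.mem_filter.1 hTT
  rw [Finset.mem_powerset] at h1
  refine ⟨TT, h1, h2, fun a ha => ?_⟩
  by_contra hcon
  push Not at hcon
  have haT : a ∉ TT := by
    intro h
    have := hcon a h
    rw [sub_self, abs_zero] at this
    linarith
  have hins : insert a TT ∈ A.powerset.filter fun S => Sep T S := by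
    rw [Finset.mem_filter, Finset.mem_powerset]
    refine ⟨Finset.insert_subset ha h1, ?_, ?_⟩
    · intro b hb
      rcases Finset.mem_insert.1 hb with rfl | hb
      · exact hA _ ha
      · exact h2.1 b hb
    · intro b hb c hc hbc
      rcases Finset.mem_insert.1 hb with hb1 | hb1
      · rcases Finset.mem_insert.1 hc with hc1 | hc1
        · exact absurd (hb1.trans hc1.symm) hbc
        · rw [hb1]
          exact hcon c hc1
      · rcases Finset.mem_insert.1 hc with hc1 | hc1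
        · rw [abs_sub_comm, hc1]
          exact hcon b hb1
        · exact h2.2 b hb1 c hc1 hbc
  have := hmax _ hins
  rw [Finset.card_insert_of_notMem haT] at this
  omega

theorem count_level (N : ℕ) (L T : ℝ) [NeZero (QQ N L)] (hL : 1 ≤ L)
    (X : Finset (ZMod (QQ N L))) (hX : ∀ r ∈ X, |tau N L r| ≤ T) :
    ∃ TT : Finset ℝ, (∀ τ ∈ TT, ∃ r ∈ X, tau N L r = τ) ∧ Sep T TT ∧
      (X.card : ℝ) ≤ hh L * TT.card := by
  classical
  obtain ⟨TT, h1, h2, h3⟩ := c3_sep (X.image (tau N L)) T (by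
    intro a ha
    obtain ⟨r, hr, rfl⟩ := Finset.mem_image.1 ha
    exact hX r hr)
  refine ⟨TT, fun τ hτ => Finset.mem_image.1 (h1 hτ), h2, ?_⟩
  have hh4 : (4 : ℝ) ≤ hh L := by
    have : 4 * L ≤ (hh L : ℝ) := Nat.le_ceil _
    linarith
  have hh0 : (0 : ℝ) < hh L := by linarith
  have hpi := Real.pi_gt_three
  have hsub : X ⊆ TT.biUnion fun b => X.filter fun r => |tau N L r - b| < 1 := by
    intro r hr
    obtain ⟨b, hb, hb'⟩ := h3 _ (Finset.mem_image_of_mem (tau N L) hr)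
    exact Finset.mem_biUnion.2 ⟨b, hb, Finset.mem_filter.2 ⟨hr, hb'⟩⟩
  have hone : ∀ b ∈ TT, ((X.filter fun r => |tau N L r - b| < 1).card : ℝ) ≤ hh L := by
    intro b _
    have e1 : (X.filter fun r => |tau N L r - b| < 1).card =
        ((X.filter fun r => |tau N L r - b| < 1).image fun r => r.valMinAbs).card :=
      (Finset.card_image_of_injective _ ZMod.injective_valMinAbs).symm
    have e2 := c3_int ((X.filter fun r => |tau N L r - b| < 1).image fun r => r.valMinAbs)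
      (b * hh L / (2 * Real.pi)) (hh L / (2 * Real.pi)) (by positivity) (by
      intro j hj
      obtain ⟨r, hr, rfl⟩ := Finset.mem_image.1 hj
      have e3 := (Finset.mem_filter.1 hr).2
      have e4 : tau N L r - b = ((r.valMinAbs : ℝ) - b * hh L / (2 * Real.pi)) *
          (2 * Real.pi / hh L) := by
        unfold tau
        field_simp
      rw [e4, abs_mul, abs_of_pos (by positivity : (0 : ℝ) < 2 * Real.pi / hh L)] at e3
      have e5 : 1 = hh L / (2 * Real.pi) * (2 * Real.pi / hh L) := by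
        field_simp
      rw [e5] at e3
      exact (lt_of_mul_lt_mul_right e3 (by positivity)).le)
    rw [e1]
    refine e2.trans ?_
    have e3 : (hh L : ℝ) / (2 * Real.pi) ≤ hh L / 6 :=
      div_le_div_of_nonneg_left hh0.le (by norm_num) (by linarith)
    linarith
  have e1 : (X.card : ℝ) ≤ ∑ b ∈ TT, ((X.filter fun r => |tau N L r - b| < 1).card : ℝ) := by
    have := (Finset.card_le_card hsub).trans Finset.card_biUnion_le
    exact_mod_cast this
  refine e1.trans ((Finset.sum_le_card_nsmul _ _ _ hone).trans (le_of_eq ?_))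
  rw [nsmul_eq_mul, mul_comm]

/-- the numerical inequality which gives a lower bound for `mu` -/
theorem c3_num {N y L v : ℝ} {CT : ℝ} (hL : 1 ≤ L) (hLy : L ^ 2 + 1 ≤ y) (hy : 1 ≤ y)
    (hyN : y ≤ N) (hCT : 0 < CT) (hCTL : 1 / (4 * CT) ≤ L) (hv : 4 * CT / L ≤ v)
    (hv2 : 2 * v ≤ Real.log y) : Real.exp (-(3 * v)) + 1 / (N * y ^ 5) ≤ Real.exp (-(2 * v)) := by
  have hy0 : 0 < y := by linarith
  have hv0 : 0 < v := lt_of_lt_of_le (by positivity) hv
  have h1 : 1 / y ≤ Real.exp (-(2 * v)) := by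
    have : 1 / y = Real.exp (-Real.log y) := by
      rw [Real.exp_neg, Real.exp_log hy0, one_div]
    rw [this, Real.exp_le_exp]
    linarith
  have h2 : 1 / y ≤ 1 - Real.exp (-v) := by
    have e1 : Real.exp (-v) ≤ 1 / (1 + v) := by
      rw [Real.exp_neg, ← one_div]
      exact one_div_le_one_div_of_le (by linarith) (by linarith [Real.add_one_le_exp v])
    have e2 : 1 / y ≤ 1 - 1 / (1 + v) := by
      have e3 : 1 - 1 / (1 + v) = v / (1 + v) := by
        field_simp
        ring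
      rw [e3, div_le_div_iff₀ hy0 (by linarith)]
      have e4 : 1 ≤ v * (y - 1) := by
        have e5 : 4 * CT / L * L ^ 2 ≤ v * (y - 1) :=
          mul_le_mul hv (by linarith) (by positivity) hv0.le
        have e6 : 4 * CT / L * L ^ 2 = 4 * CT * L := by
          field_simp
        have e7 : 4 * CT * (1 / (4 * CT)) ≤ 4 * CT * L :=
          mul_le_mul_of_nonneg_left hCTL (by positivity)
        have e8 : 4 * CT * (1 / (4 * CT)) = 1 := by
          field_simp
        linarith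
      linarith
    linarith
  have h3 : 1 / y * (1 / y) ≤ Real.exp (-(2 * v)) * (1 - Real.exp (-v)) :=
    mul_le_mul h1 h2 (by positivity) (Real.exp_pos _).le
  have h4 : Real.exp (-(2 * v)) * (1 - Real.exp (-v)) =
      Real.exp (-(2 * v)) - Real.exp (-(3 * v)) := by
    rw [mul_sub, mul_one, ← Real.exp_add]
    congr 2
    ring
  have h5 : 1 / (N * y ^ 5) ≤ 1 / y * (1 / y) := by
    rw [div_mul_div_comm, one_mul]
    refine one_div_le_one_div_of_le (by positivity) ?_
    have e1 : y ≤ y ^ 5 := by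
      calc y = y ^ 1 := (pow_one _).symm
        _ ≤ y ^ 5 := pow_le_pow_right₀ hy (by norm_num)
    exact mul_le_mul hyN e1 hy0.le (by linarith)
  linarith

theorem case3 (CT C' : ℝ) (hCT : 0 < CT) (hF : F2aProp CT C') : ∃ C : ℝ,
    ∀ (N k : ℕ) (L y η : ℝ) [NeZero (QQ N L)], RegF C N k L y η → ∀ l : ℕ, 3 * k ≤ 4 * l →
    ∑ r ∈ (Finset.univ : Finset (ZMod (QQ N L))).filter (fun r => |tau N L r| ≤ N / y ^ 5 ∧
        Real.exp (-v0 k L) ≤ ‖nu N L y η r‖ ∧ ‖nu N L y η r‖ < Real.exp (-v2 CT k L η)),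
      ‖nu N L y η r‖ ^ (2 * l) ≤ 1 / L ^ 11 := by
  obtain ⟨C1, h1⟩ := c45_facts
  obtain ⟨C2, h2⟩ := F2b
  obtain ⟨C3, h3⟩ := η_small 1
  refine ⟨max (max (max C1 C2) (max C3 C')) (max (max 1 25) (max (1 / (4 * CT)) (3 / CT))), ?_⟩
  intro N k L y η _ h l hl
  classical
  have hA := h.mono (le_max_left _ _)
  have hB := h.mono (le_max_right _ _)
  have hf := h1 N k L y η (hA.mono ((le_max_left _ _).trans (le_max_left _ _)))
  have hF2b := h2 N k L y η (hA.mono ((le_max_right _ _).trans (le_max_left _ _)))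
  have hη1 := h3 N k L y η (hA.mono ((le_max_left _ _).trans (le_max_right _ _)))
  have hFa := hF N k L y η (hA.mono ((le_max_right _ _).trans (le_max_right _ _)))
  have hR1 := hB.mono (C' := 1) ((le_max_left _ _).trans (le_max_left _ _))
  have hR25 := hB.mono (C' := 25) ((le_max_right _ _).trans (le_max_left _ _))
  have hRa := hB.mono (C' := 1 / (4 * CT)) ((le_max_left _ _).trans (le_max_right _ _))
  have hRb := hB.mono (C' := 3 / CT) ((le_max_right _ _).trans (le_max_right _ _))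
  rw [one_mul] at hη1
  have hη := h.η_pos
  have hlam := h.one_le_logL
  have hy := hf.y1
  have hy0 : 0 < y := by linarith
  have hN := hf.N1
  have hN0 : (0 : ℝ) < N := by linarith
  have hL1 := hf.L1
  have hL0 : 0 < L := by linarith
  have hk1 : (1 : ℝ) ≤ k := by exact_mod_cast h.one_le_k
  have hk0 : (0 : ℝ) < k := by linarith
  have hhh := hf.hh0
  obtain ⟨lam, hlamdef⟩ : ∃ lam, lam = Real.log L := ⟨_, rfl⟩
  obtain ⟨s, hsdef⟩ : ∃ s, s = Real.sqrt η := ⟨_, rfl⟩
  have hs0 : 0 < s := by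
    rw [hsdef]
    exact Real.sqrt_pos.2 hη
  have hs1 : s ≤ 1 := by
    rw [hsdef]
    exact (Real.sqrt_le_sqrt hη1).trans_eq Real.sqrt_one
  have hkL : (k : ℝ) ≤ L := by
    have := h.k_hi
    nlinarith
  have hv2 : v2 CT k L η = 4 * CT * lam ^ 3 / (k * s) := by
    rw [v2, hlamdef, hsdef]
  have hv0 : v0 k L = k * lam ^ 3 / 6 := by
    rw [v0, hlamdef]
  rw [← hlamdef] at hlam
  rw [← hlamdef, ← hsdef] at hFa
  have hlog3 : (k : ℝ) * lam ^ 3 ≤ Real.log y := by
    have e1 := hR1.logy_big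
    rw [← hlamdef, one_mul] at e1
    refine le_trans ?_ e1
    exact mul_le_mul_of_nonneg_left (pow_le_pow_right₀ hlam (by norm_num)) hk0.le
  obtain ⟨w, hw⟩ : ∃ w, w = v2 CT k L η := ⟨_, rfl⟩
  obtain ⟨lp, hlp⟩ : ∃ lp, lp = CT * lam ^ 3 / s := ⟨_, rfl⟩
  rw [← hlp] at hFa
  have hkw : (k : ℝ) * w = 4 * lp := by
    rw [hw, hv2, hlp]
    field_simp
  have hw0 : 0 < w := by
    rw [hw, hv2]
    positivity
  have hlam3 : 1 ≤ lam ^ 3 := one_le_pow₀ hlam
  have hwL : 4 * CT / L ≤ w := by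
    rw [hw, hv2]
    refine div_le_div₀ (by positivity) ?_ (by positivity) ?_
    · exact le_mul_of_one_le_right (by positivity) hlam3
    · calc (k : ℝ) * s ≤ k * 1 := mul_le_mul_of_nonneg_left hs1 hk0.le
        _ ≤ L := by rw [mul_one]; exact hkL
  have hCTL : 1 / (4 * CT) ≤ L := hRa.Lbig
  have hv0w : v0 k L ≤ L ^ 2 * w := by
    have e1 : L ^ 2 * (4 * CT / L) ≤ L ^ 2 * (4 * CT * lam ^ 3 / (k * s)) / 1 := by
      rw [div_one, ← hv2, ← hw]
      exact mul_le_mul_of_nonneg_left hwL (by positivity)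
    rw [hw, hv2, hv0]
    have e2 : L ^ 2 * (4 * CT * lam ^ 3 / (k * s)) = (4 * CT * L ^ 2 * lam ^ 3) / (k * s) := by ring
    rw [e2, le_div_iff₀ (by positivity)]
    have e3 : (k : ℝ) ^ 2 * s ≤ L := by
      calc (k : ℝ) ^ 2 * s ≤ k ^ 2 * 1 := mul_le_mul_of_nonneg_left hs1 (by positivity)
        _ ≤ L := by rw [mul_one]; exact h.k_hi
    have e4 : 1 ≤ 4 * CT * L := by
      have e5 := mul_le_mul_of_nonneg_left hCTL (by positivity : 0 ≤ 4 * CT)
      have e6 : 4 * CT * (1 / (4 * CT)) = 1 := by field_simp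
      linarith
    have e5 : (k : ℝ) ^ 2 * s ≤ 4 * CT * L ^ 2 := by
      calc (k : ℝ) ^ 2 * s ≤ L := e3
        _ = 1 * L := (one_mul _).symm
        _ ≤ 4 * CT * L * L := mul_le_mul_of_nonneg_right e4 hL0.le
        _ = _ := by ring
    have e6 : (k : ℝ) ^ 2 * s * lam ^ 3 ≤ 4 * CT * L ^ 2 * lam ^ 3 :=
      mul_le_mul_of_nonneg_right e5 (by positivity)
    have e7 : 0 ≤ (k : ℝ) ^ 2 * s * lam ^ 3 := by positivity
    nlinarith
  -- the number of levels
  have hexI : ∃ I : ℕ, v0 k L ≤ 2 ^ I * w := by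
    obtain ⟨n, hn⟩ := pow_unbounded_of_one_lt (v0 k L / w) (one_lt_two : (1 : ℝ) < 2)
    exact ⟨n, by rw [div_lt_iff₀ hw0] at hn; exact hn.le⟩
  obtain ⟨I, hI1, hI2⟩ : ∃ I : ℕ, v0 k L ≤ 2 ^ I * w ∧ ∀ i < I, 2 ^ i * w < v0 k L := by
    refine ⟨Nat.find hexI, Nat.find_spec hexI, fun i hi => ?_⟩
    exact not_le.1 (Nat.find_min hexI hi)
  have hIL : (I : ℝ) ≤ L ^ 2 := by
    rcases Nat.eq_zero_or_pos I with h0 | h0
    · rw [h0, Nat.cast_zero]
      positivity
    · have e1 := hI2 (I - 1) (by omega)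
      have e2 : I ≤ 2 ^ (I - 1) := by
        have := Nat.lt_two_pow_self (n := I - 1)
        omega
      have e3 : (I : ℝ) ≤ 2 ^ (I - 1) := by exact_mod_cast e2
      have e4 : (I : ℝ) * w ≤ L ^ 2 * w :=
        (mul_le_mul_of_nonneg_right e3 hw0.le).trans (e1.le.trans hv0w)
      exact le_of_mul_le_mul_right e4 hw0
  -- the sum as a sum over the dyadic levels
  set S := (Finset.univ : Finset (ZMod (QQ N L))).filter (fun r => |tau N L r| ≤ N / y ^ 5 ∧
        Real.exp (-v0 k L) ≤ ‖nu N L y η r‖) with hS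
  have hfil : (Finset.univ : Finset (ZMod (QQ N L))).filter (fun r => |tau N L r| ≤ N / y ^ 5 ∧
        Real.exp (-v0 k L) ≤ ‖nu N L y η r‖ ∧ ‖nu N L y η r‖ < Real.exp (-v2 CT k L η)) =
      S.filter (fun r => w < -Real.log ‖nu N L y η r‖) := by
    rw [hS, Finset.filter_filter]
    refine Finset.filter_congr fun r _ => ?_
    rw [← hw]
    constructor
    · rintro ⟨e1, e2, e3⟩
      refine ⟨⟨e1, e2⟩, ?_⟩
      have e4 : 0 < ‖nu N L y η r‖ := lt_of_lt_of_le (Real.exp_pos _) e2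
      rw [← Real.log_lt_iff_lt_exp e4] at e3
      linarith
    · rintro ⟨⟨e1, e2⟩, e3⟩
      refine ⟨e1, e2, ?_⟩
      have e4 : 0 < ‖nu N L y η r‖ := lt_of_lt_of_le (Real.exp_pos _) e2
      rw [← Real.log_lt_iff_lt_exp e4]
      linarith
  rw [hfil]
  have hdy := c45_dyadic S (fun r => ‖nu N L y η r‖ ^ (2 * l))
    (fun r => -Real.log ‖nu N L y η r‖) (fun r => by positivity) w
    (hh L * (Real.exp (-(5 * lp)) + Real.exp (-(3 * k / 5)))) I ?_
  · refine hdy.trans ?_
    have hempty : S.filter (fun r => 2 ^ I * w < -Real.log ‖nu N L y η r‖) = ∅ := by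
      rw [Finset.filter_eq_empty_iff]
      intro r hr
      rw [hS, Finset.mem_filter] at hr
      have e4 : 0 < ‖nu N L y η r‖ := lt_of_lt_of_le (Real.exp_pos _) hr.2.2
      have e5 := (Real.le_log_iff_exp_le e4).2 hr.2.2
      rw [not_lt]
      linarith
    rw [hempty, Finset.sum_empty, add_zero]
    have hE15 : Real.exp (-(15 * lam)) = 1 / L ^ 15 := by
      rw [Real.exp_neg, one_div]
      congr 1
      have e1 : (15 : ℝ) * lam = (15 : ℕ) * lam := by push_cast; ring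
      rw [e1, Real.exp_nat_mul, hlamdef, Real.exp_log hL0]
    have hK1 : Real.exp (-(5 * lp)) ≤ 1 / L ^ 15 := by
      rw [← hE15, Real.exp_le_exp]
      have e1 : 3 * lam ≤ lp := by
        rw [hlp, le_div_iff₀ hs0]
        have e2 := hRb.logL
        rw [← hlamdef, div_le_iff₀ hCT] at e2
        have e3 : 3 * lam * s ≤ 3 * lam := mul_le_of_le_one_right (by positivity) hs1
        have e4 : lam * CT * (lam * lam) ≥ 3 * (1 * lam) := by
          have e5 : 1 * lam ≤ lam * lam := mul_le_mul_of_nonneg_right hlam (by linarith)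
          exact mul_le_mul e2 e5 (by linarith) (by positivity)
        nlinarith
      linarith
    have hK2 : Real.exp (-(3 * k / 5)) ≤ 1 / L ^ 15 := by
      rw [← hE15, Real.exp_le_exp]
      have e1 := hR25.kη
      rw [← hlamdef] at e1
      have e2 : (k : ℝ) * η ≤ k := mul_le_of_le_one_right hk0.le hη1
      have e3 : lam ≤ lam ^ 7 := by
        calc lam = lam ^ 1 := (pow_one _).symm
          _ ≤ _ := pow_le_pow_right₀ hlam (by norm_num)
      linarith
    have e1 : (I : ℝ) * (hh L * (Real.exp (-(5 * lp)) + Real.exp (-(3 * k / 5)))) ≤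
        L ^ 2 * (5 * L * (1 / L ^ 15 + 1 / L ^ 15)) := by
      refine mul_le_mul hIL ?_ (by positivity) (by positivity)
      exact mul_le_mul hf.h5 (by linarith) (by positivity) (by positivity)
    refine e1.trans ?_
    have e2 : L ^ 2 * (5 * L * (1 / L ^ 15 + 1 / L ^ 15)) = 10 / L ^ 12 := by
      field_simp
      ring
    rw [e2, div_le_div_iff₀ (by positivity) (by positivity), one_mul]
    have e3 : L ^ 12 = L * L ^ 11 := by ring
    rw [e3]
    exact mul_le_mul_of_nonneg_right (by linarith [hf.L100]) (by positivity)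
  · intro i hi
    obtain ⟨v, hv⟩ : ∃ v : ℝ, v = 2 ^ i * w := ⟨_, rfl⟩
    have hv2' : 2 ^ (i + 1) * w = 2 * v := by
      rw [hv, pow_succ]
      ring
    have hvw : w ≤ v := by
      rw [hv]
      exact le_mul_of_one_le_left hw0.le (one_le_pow₀ (by norm_num))
    have hvv0 : v < v0 k L := by
      rw [hv]
      exact hI2 i hi
    have hvpos : 0 < v := by linarith
    rw [hv2', ← hv]
    set X := S.filter (fun t => v < -Real.log ‖nu N L y η t‖ ∧ -Real.log ‖nu N L y η t‖ ≤ 2 * v)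
      with hX
    have hXm : ∀ r ∈ X, |tau N L r| ≤ N / y ^ 5 ∧ Real.exp (-(2 * v)) ≤ ‖nu N L y η r‖ ∧
        ‖nu N L y η r‖ ≤ Real.exp (-v) := by
      intro r hr
      rw [hX, Finset.mem_filter, hS, Finset.mem_filter] at hr
      obtain ⟨⟨-, e1, e2⟩, e3, e4⟩ := hr
      have e5 : 0 < ‖nu N L y η r‖ := lt_of_lt_of_le (Real.exp_pos _) e2
      refine ⟨e1, ?_, ?_⟩
      · rw [← Real.le_log_iff_exp_le e5]
        linarith
      · rw [← Real.log_le_iff_le_exp e5]
        linarith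
    obtain ⟨TT, hT1, hT2, hT3⟩ := count_level N L ((N : ℝ) ^ 3) hL1 X (by
      intro r hr
      refine (hXm r hr).1.trans ?_
      have e1 : (N : ℝ) / y ^ 5 ≤ N := div_le_self hN0.le (one_le_pow₀ hy)
      have e2 : (N : ℝ) ≤ N ^ 3 := by
        calc (N : ℝ) = N ^ 1 := (pow_one _).symm
          _ ≤ _ := pow_le_pow_right₀ hN (by norm_num)
      linarith)
    have hmu : ∀ τ ∈ TT, Real.exp (-(3 * v)) ≤ ‖mu y (K0 L) τ‖ := by
      intro τ hτ
      obtain ⟨r, hr, rfl⟩ := hT1 τ hτ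
      obtain ⟨e1, e2, -⟩ := hXm r hr
      have e3 := nu_le_mu N L y η r
      have e4 : |tau N L r| / HH N ≤ 1 / (N * y ^ 5) := by
        rw [C45.HHr]
        refine (div_le_div_of_nonneg_right e1 (by positivity)).trans (le_of_eq ?_)
        field_simp
      have e5 := c3_num (N := (N : ℝ)) (y := y) (L := L) (v := v) (CT := CT) hL1 (by
        have f1 := hf.LleY 3 (by norm_num)
        have f2 := hf.L100
        nlinarith) hy hf.yleN hCT hCTL (hwL.trans hvw) (by
        rw [hv0] at hvv0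
        have : 0 ≤ (k : ℝ) * lam ^ 3 := by positivity
        linarith)
      linarith
    have hterm : ∀ r ∈ X, ‖nu N L y η r‖ ^ (2 * l) ≤ Real.exp (-(3 / 2 * k * v)) := by
      intro r hr
      obtain ⟨-, -, e1⟩ := hXm r hr
      refine (pow_le_pow_left₀ (norm_nonneg _) e1 _).trans ?_
      rw [← Real.exp_nat_mul, Real.exp_le_exp]
      have e2 : (3 : ℝ) * k ≤ 4 * l := by exact_mod_cast hl
      push_cast
      nlinarith
    have hsum : ∑ r ∈ X, ‖nu N L y η r‖ ^ (2 * l) ≤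
        hh L * TT.card * Real.exp (-(3 / 2 * k * v)) := by
      refine (Finset.sum_le_card_nsmul _ _ _ hterm).trans ?_
      rw [nsmul_eq_mul]
      exact mul_le_mul_of_nonneg_right hT3 (Real.exp_pos _).le
    refine hsum.trans ?_
    rw [mul_assoc]
    refine mul_le_mul_of_nonneg_left ?_ hhh.le
    have hp1 := Real.exp_pos (-(5 * lp))
    have hp2 := Real.exp_pos (-(3 * (k : ℝ) / 5))
    rcases le_or_gt v (1 / 2) with hc | hc
    · have e1 := hFa TT hT2 (by
        intro τ hτ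
        refine le_trans ?_ (hmu τ hτ)
        rw [Real.exp_le_exp]
        linarith)
      have e2 : (TT.card : ℝ) * Real.exp (-(3 / 2 * k * v)) ≤
          Real.exp lp * Real.exp (-(6 * lp)) := by
        refine mul_le_mul e1 ?_ (Real.exp_pos _).le (Real.exp_pos _).le
        rw [Real.exp_le_exp]
        have e3 : (k : ℝ) * w ≤ k * v := mul_le_mul_of_nonneg_left hvw hk0.le
        rw [hkw] at e3
        linarith
      have e3 : Real.exp lp * Real.exp (-(6 * lp)) = Real.exp (-(5 * lp)) := by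
        rw [← Real.exp_add]
        congr 1
        ring
      linarith
    · have e1 := hF2b TT (3 * v) hT2 (by linarith) (by
        rw [← hlamdef]
        rw [hv0] at hvv0
        have : 0 ≤ (k : ℝ) * lam ^ 3 := by positivity
        linarith) hmu
      have e2 : (TT.card : ℝ) * Real.exp (-(3 / 2 * k * v)) ≤
          Real.exp (k * (3 * v) / 10) * Real.exp (-(3 / 2 * k * v)) :=
        mul_le_mul_of_nonneg_right e1 (Real.exp_pos _).le
      have e3 : Real.exp (k * (3 * v) / 10) * Real.exp (-(3 / 2 * k * v)) ≤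
          Real.exp (-(3 * k / 5)) := by
        rw [← Real.exp_add, Real.exp_le_exp]
        nlinarith
      linarith

end MP14ee70.TY
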