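import Mathlib
import Pool.Agent.Lib.MP_14ee70_nt.TY.P.Case12
import Pool.Agent.Lib.MP_14ee70_nt.TY.P.Case3
import Pool.Agent.Lib.MP_14ee70_nt.TY.P.Case45

/-!
# Project TY, file P/L2: the short window is close to the long window in mean square

`parseval_fW` with `Wd ≤ Wb ≤ Q`.  Every `r` belongs to one of: `|τ| ≤ y^(1/40)` (`case1`); `|τ| > y^(1/40)`, `r ∈ BadS v2`
(`case2`); `|τ| ≤ N/y^5` and `e^(-v0) ≤ |ν| < e^(-v2)` (`case3`, with `‖chf‖^2 ≤ |ν|^(2l)` and `‖wn - wn‖^2 ≤ 4`); `|τ| ≤ N/y^5`,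
`|ν| < e^(-v0)` (`case4`); `|τ| > N/y^5` (`case5`).  Total `≤ 8/L^11 ≤ 1/L^10`.  `l = k - r ≥ 3k/4`.
-/

namespace MP14ee70.TY

open Finset

/-- a sum over a set covered by five sets -/
theorem sum_le_five {ι : Type*} [DecidableEq ι] (s s1 s2 s3 s4 s5 : Finset ι) (F : ι → ℝ)
    (hF : ∀ i, 0 ≤ F i) (h : ∀ i ∈ s, i ∈ s1 ∨ i ∈ s2 ∨ i ∈ s3 ∨ i ∈ s4 ∨ i ∈ s5) :
    ∑ i ∈ s, F i ≤ ∑ i ∈ s1, F i + (∑ i ∈ s2, F i + (∑ i ∈ s3, F i + (∑ i ∈ s4, F i +
      ∑ i ∈ s5, F i))) := by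
  have hsub : s ⊆ s1 ∪ (s2 ∪ (s3 ∪ (s4 ∪ s5))) := by
    intro i hi
    simp only [Finset.mem_union]
    exact h i hi
  have hu : ∀ a b : Finset ι, ∑ i ∈ a ∪ b, F i ≤ ∑ i ∈ a, F i + ∑ i ∈ b, F i := by
    intro a b
    rw [← Finset.sum_union_inter]
    exact le_add_of_nonneg_right (Finset.sum_nonneg fun i _ => hF i)
  refine (Finset.sum_le_sum_of_subset_of_nonneg hsub fun i _ _ => hF i).trans ?_
  refine (hu _ _).trans (add_le_add_right ?_ _)
  refine (hu _ _).trans (add_le_add_right ?_ _)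
  refine (hu _ _).trans (add_le_add_right ?_ _)
  exact hu _ _

theorem L2_bound (CT C' C1 : ℝ) (hCT : 0 < CT) (hF : F2aProp CT C') : ∃ c0 : ℝ, 0 < c0 ∧ ∃ C : ℝ,
    ∀ (N k : ℕ) (L y η : ℝ) [NeZero (QQ N L)], RegF C N k L y η → η * (k : ℝ) ^ 2 ≤ c0 * Real.log y →
    ∀ (hZ : 0 < Z0 L y) (hA : (AA L y η).Nonempty) (B : ℝ) (r : ℕ) (Lam : Law (GN (QQ N L))),
    LamData N k L y η hA B r Lam →
    ∑ t ∈ BadS N L y η (v2 CT k L η), ‖chf Lam t‖ ^ 2 ≤ Real.exp (C1 * Real.log L ^ 2) →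
    ∀ l : ℕ, l + r = k →
    ∑ u : ZMod (QQ N L), (fW (TLaw N L y η hZ hA Lam l) (Wd N y) u
      - fW (TLaw N L y η hZ hA Lam l) (Wb N y) u) ^ 2 ≤ 1 / (QQ N L * L ^ 10) := by
  classical
  obtain ⟨Ca, ha⟩ := case1
  obtain ⟨c0, hc0, Cb, hb⟩ := case2 C1
  obtain ⟨Cc, hc⟩ := case3 CT C' hCT hF
  obtain ⟨Cd, hd⟩ := case4
  obtain ⟨Ce, he⟩ := case5
  obtain ⟨Cf, hf⟩ := win_params
  set C : ℝ := max 8 (max Ca (max Cb (max Cc (max Cd (max Ce Cf))))) with hC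
  have h8 : (8 : ℝ) ≤ C := le_max_left _ _
  have h' : max Ca (max Cb (max Cc (max Cd (max Ce Cf)))) ≤ C := le_max_right _ _
  have h1 : Ca ≤ C := (le_max_left _ _).trans h'
  have h2 : Cb ≤ C := ((le_max_left _ _).trans (le_max_right _ _)).trans h'
  have h3 : Cc ≤ C := (((le_max_left _ _).trans (le_max_right _ _)).trans (le_max_right _ _)).trans h'
  have h4 : Cd ≤ C := ((((le_max_left _ _).trans (le_max_right _ _)).trans
    (le_max_right _ _)).trans (le_max_right _ _)).trans h'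
  have h5 : Ce ≤ C := (((((le_max_left _ _).trans (le_max_right _ _)).trans
    (le_max_right _ _)).trans (le_max_right _ _)).trans (le_max_right _ _)).trans h'
  have h6 : Cf ≤ C := (((((le_max_right _ _).trans (le_max_right _ _)).trans
    (le_max_right _ _)).trans (le_max_right _ _)).trans (le_max_right _ _)).trans h'
  refine ⟨c0, hc0, C, ?_⟩
  intro N k L y η _ hR hη hZ hA B r Lam hD hbad l hl
  have hr := hD.hr
  have h34 : 3 * k ≤ 4 * l := by omega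
  have hL8 : (8 : ℝ) ≤ L := h8.trans hR.Lbig
  have hL0 : 0 < L := by linarith
  have hQ0 : (0 : ℝ) < QQ N L := by exact_mod_cast Nat.pos_of_ne_zero (NeZero.ne (QQ N L))
  obtain ⟨w1, w2, w3, w4, w5, w6, w7, -⟩ := hf N k L y η (hR.mono h6)
  have hWbQ : Wb N y ≤ QQ N L := by
    have : (Wb N y : ℝ) ≤ QQ N L := w7.trans (by linarith)
    exact_mod_cast this
  have hWdQ : Wd N y ≤ QQ N L := w2.trans hWbQ
  set p := TLaw N L y η hZ hA Lam l with hp
  set F : ZMod (QQ N L) → ℝ := fun t => ‖chf p t‖ ^ 2 * ‖wn (Wd N y) t - wn (Wb N y) t‖ ^ 2 with hFdef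
  have hF0 : ∀ t, 0 ≤ F t := fun t => by positivity
  rw [parseval_fW p _ _ hWdQ hWbQ]
  have hcover := sum_le_five (Finset.univ : Finset (ZMod (QQ N L)))
    ((Finset.univ : Finset (ZMod (QQ N L))).filter (fun r => |tau N L r| ≤ y ^ (1 / 40 : ℝ)))
    ((BadS N L y η (v2 CT k L η)).filter (fun r => y ^ (1 / 40 : ℝ) < |tau N L r|))
    ((Finset.univ : Finset (ZMod (QQ N L))).filter (fun r => |tau N L r| ≤ N / y ^ 5 ∧
        Real.exp (-v0 k L) ≤ ‖nu N L y η r‖ ∧ ‖nu N L y η r‖ < Real.exp (-v2 CT k L η)))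
    ((Finset.univ : Finset (ZMod (QQ N L))).filter (fun t => |tau N L t| ≤ N / y ^ 5 ∧
        ‖nu N L y η t‖ < Real.exp (-v0 k L)))
    ((Finset.univ : Finset (ZMod (QQ N L))).filter (fun t => N / y ^ 5 < |tau N L t|))
    F hF0 (by
      intro t _
      simp only [Finset.mem_filter, Finset.mem_univ, true_and, BadS]
      by_cases b1 : |tau N L t| ≤ y ^ (1 / 40 : ℝ)
      · exact Or.inl b1
      · right
        rw [not_le] at b1
        by_cases b2 : Real.exp (-v2 CT k L η) ≤ ‖nu N L y η t‖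
        · exact Or.inl ⟨b2, b1⟩
        · right
          rw [not_le] at b2
          by_cases b3 : |tau N L t| ≤ N / y ^ 5
          · by_cases b4 : Real.exp (-v0 k L) ≤ ‖nu N L y η t‖
            · exact Or.inl ⟨b3, b4, b2⟩
            · right
              rw [not_le] at b4
              exact Or.inl ⟨b3, b4⟩
          · right
            right
            rwa [not_le] at b3)
  have e1 := ha N k L y η (hR.mono h1) hZ hA Lam l
  have e2 := hb N k L y η (hR.mono h2) hη hZ hA Lam l (BadS N L y η (v2 CT k L η)) h34 hbad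
  have e3 := hc N k L y η (hR.mono h3) l h34
  have e4 := hd N k L y η (hR.mono h4) hZ hA B r Lam hD l hl
  have e5 := he N k L y η (hR.mono h5) hZ hA B r Lam hD l hl
  have e3' : ∑ t ∈ (Finset.univ : Finset (ZMod (QQ N L))).filter (fun r => |tau N L r| ≤ N / y ^ 5 ∧
        Real.exp (-v0 k L) ≤ ‖nu N L y η r‖ ∧ ‖nu N L y η r‖ < Real.exp (-v2 CT k L η)), F t
      ≤ 4 * (1 / L ^ 11) := by
    refine le_trans ?_ (mul_le_mul_of_nonneg_left e3 (by norm_num : (0 : ℝ) ≤ 4))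
    rw [Finset.mul_sum]
    refine Finset.sum_le_sum fun t _ => ?_
    have i1 : ‖chf p t‖ ≤ ‖nu N L y η t‖ ^ l := by
      refine (norm_chf_TLaw_le N L y η hZ hA Lam l t).trans ?_
      exact mul_le_of_le_one_right (by positivity) (norm_chf_le_one Lam t)
    have i2 : ‖wn (Wd N y) t - wn (Wb N y) t‖ ≤ 2 := by
      refine (norm_sub_le _ _).trans ?_
      linarith [norm_wn_le_one (Wd N y) t, norm_wn_le_one (Wb N y) t]
    have i3 : ‖chf p t‖ ^ 2 ≤ ‖nu N L y η t‖ ^ (2 * l) := by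
      calc ‖chf p t‖ ^ 2 ≤ (‖nu N L y η t‖ ^ l) ^ 2 := pow_le_pow_left₀ (norm_nonneg _) i1 2
        _ = ‖nu N L y η t‖ ^ (2 * l) := by rw [← pow_mul, mul_comm]
    have i4 : ‖wn (Wd N y) t - wn (Wb N y) t‖ ^ 2 ≤ 4 := by
      calc _ ≤ (2 : ℝ) ^ 2 := pow_le_pow_left₀ (norm_nonneg _) i2 2
        _ = 4 := by norm_num
    calc F t ≤ ‖nu N L y η t‖ ^ (2 * l) * 4 :=
          mul_le_mul i3 i4 (by positivity) (by positivity)
      _ = 4 * ‖nu N L y η t‖ ^ (2 * l) := by ring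
  have htot : ∑ t, F t ≤ 8 * (1 / L ^ 11) := by
    refine hcover.trans ?_
    have := add_le_add e1 (add_le_add e2 (add_le_add e3' (add_le_add e4 e5)))
    refine this.trans (le_of_eq ?_)
    ring
  have hfin : 8 * (1 / L ^ 11) ≤ 1 / L ^ 10 := by
    rw [show (8 : ℝ) * (1 / L ^ 11) = (8 / L) * (1 / L ^ 10) by field_simp]
    refine mul_le_of_le_one_left (by positivity) ?_
    rw [div_le_one hL0]
    exact hL8
  calc (∑ t, F t) / (QQ N L : ℝ) ≤ (1 / L ^ 10) / QQ N L :=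
        div_le_div_of_nonneg_right (htot.trans hfin) hQ0.le
    _ = 1 / (QQ N L * L ^ 10) := by
        rw [div_div, mul_comm]

end MP14ee70.TY
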