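import Mathlib
import Pool.Agent.Lib.MP_14ee70_nt.TY.P.L2
import Pool.Agent.Lib.MP_14ee70_nt.TY.P.Beta

/-!
# Project TY, file P/Short: the short window has the right probability for almost all `u`

`beta_bound` and Chebyshev: by `L2_bound` the set of the `u : ZMod Q` with `|fW Wd u - fW Wb u| > 1/(8 H Z0)` has at most
`(8 H Z0)^2/(Q L^10) = 64 H Z0^2/(h L^10) ≤ 16 H Z0^2/L^11 ≤ H/L^7` elements (`Z0 ≤ L`, `h ≥ 4L`); the integers `u` in
`[H log N, H log 2N]` are different mod `Q` (`H log 2 < Q`).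
-/

namespace MP14ee70.TY

open Finset

/-- Chebyshev for a sum of squares over a finite type -/
theorem card_gt_le {ι : Type*} [Fintype ι] (g : ι → ℝ) (a S : ℝ) (ha : 0 < a)
    (hS : ∑ i, g i ^ 2 ≤ S) :
    ((((Finset.univ : Finset ι).filter fun i => a < |g i|).card : ℕ) : ℝ) ≤ S / a ^ 2 := by
  rw [le_div_iff₀ (by positivity)]
  refine le_trans ?_ hS
  calc ((((Finset.univ : Finset ι).filter fun i => a < |g i|).card : ℕ) : ℝ) * a ^ 2
      = ∑ i ∈ (Finset.univ : Finset ι).filter (fun i => a < |g i|), a ^ 2 := by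
        rw [Finset.sum_const, nsmul_eq_mul]
    _ ≤ ∑ i ∈ (Finset.univ : Finset ι).filter (fun i => a < |g i|), g i ^ 2 := by
        refine Finset.sum_le_sum fun i hi => ?_
        rw [Finset.mem_filter] at hi
        rw [← sq_abs (g i)]
        exact pow_le_pow_left₀ ha.le hi.2.le 2
    _ ≤ ∑ i, g i ^ 2 := Finset.sum_le_sum_of_subset_of_nonneg (Finset.filter_subset _ _)
        fun i _ _ => sq_nonneg _

theorem short_bound (CT C' C1 : ℝ) (hCT : 0 < CT) (hF : F2aProp CT C') : ∃ c0 : ℝ, 0 < c0 ∧ ∃ C : ℝ,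
    ∀ (N k : ℕ) (L y η : ℝ) [NeZero (QQ N L)], RegF C N k L y η → η * (k : ℝ) ^ 2 ≤ c0 * Real.log y →
    ∀ (hZ : 0 < Z0 L y) (hA : (AA L y η).Nonempty) (B : ℝ) (r : ℕ) (Lam : Law (GN (QQ N L))),
    LamData N k L y η hA B r Lam →
    ∑ t ∈ BadS N L y η (v2 CT k L η), ‖chf Lam t‖ ^ 2 ≤ Real.exp (C1 * Real.log L ^ 2) →
    ∀ l : ℕ, l + r = k →
    ∃ E : Finset ℤ, (E.card : ℝ) ≤ 2 * (HH N / L ^ 6) ∧
      ∀ u : ℤ, (HH N : ℝ) * Real.log N ≤ u → (u : ℝ) ≤ HH N * Real.log (2 * N) → u ∉ E →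
        1 / (8 * HH N * Z0 L y) ≤ fW (TLaw N L y η hZ hA Lam l) (Wd N y) (u : ZMod (QQ N L)) := by
  classical
  obtain ⟨Ca, hbeta⟩ := beta_bound
  obtain ⟨c0, hc0, Cb, hL2⟩ := L2_bound CT C' C1 hCT hF
  obtain ⟨Cc, hZb⟩ := Z0_bounds
  obtain ⟨Cd, hwin⟩ := win_params
  set C : ℝ := max 16 (max Ca (max Cb (max Cc Cd))) with hC
  have h16 : (16 : ℝ) ≤ C := le_max_left _ _
  have h' : max Ca (max Cb (max Cc Cd)) ≤ C := le_max_right _ _
  have h1 : Ca ≤ C := (le_max_left _ _).trans h'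
  have h2 : Cb ≤ C := ((le_max_left _ _).trans (le_max_right _ _)).trans h'
  have h3 : Cc ≤ C := (((le_max_left _ _).trans (le_max_right _ _)).trans (le_max_right _ _)).trans h'
  have h4 : Cd ≤ C := (((le_max_right _ _).trans (le_max_right _ _)).trans (le_max_right _ _)).trans h'
  refine ⟨c0, hc0, C, ?_⟩
  intro N k L y η _ hR hη hZ hA B r Lam hD hbad l hl
  have hL16 : (16 : ℝ) ≤ L := h16.trans hR.Lbig
  have hL0 : 0 < L := by linarith
  have hN1 : (1 : ℝ) ≤ N := by exact_mod_cast hR.one_le_N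
  have hN0 : (0 : ℝ) < N := by linarith
  have hH0 : (0 : ℝ) < HH N := by
    unfold HH
    push_cast
    positivity
  obtain ⟨hZ1, hZL⟩ := hZb N k L y η (hR.mono h3)
  obtain ⟨-, -, -, -, -, -, -, -, -, hh4, -, -⟩ := hwin N k L y η (hR.mono h4)
  obtain ⟨E1, hE1, hE1u⟩ := hbeta N k L y η (hR.mono h1) hZ hA B r Lam hD l hl
  have hsum := hL2 N k L y η (hR.mono h2) hη hZ hA B r Lam hD hbad l hl
  set p := TLaw N L y η hZ hA Lam l with hp
  set g : ZMod (QQ N L) → ℝ := fun u => fW p (Wd N y) u - fW p (Wb N y) u with hg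
  set a : ℝ := 1 / (8 * HH N * Z0 L y) with ha
  have ha0 : 0 < a := by rw [ha]; positivity
  have hcheb := card_gt_le g a _ ha0 hsum
  have hQeq : (QQ N L : ℝ) = hh L * HH N := by unfold QQ; push_cast; ring
  have hhh0 : (0 : ℝ) < hh L := by linarith
  have hbd : 1 / ((QQ N L : ℝ) * L ^ 10) / a ^ 2 ≤ HH N / L ^ 6 := by
    have e1 : 1 / ((QQ N L : ℝ) * L ^ 10) / a ^ 2
        = 64 * HH N * Z0 L y ^ 2 / (hh L * L ^ 10) := by
      rw [ha, hQeq]
      field_simp
      ring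
    rw [e1, div_le_div_iff₀ (by positivity) (by positivity)]
    have e2 : Z0 L y ^ 2 ≤ L ^ 2 := pow_le_pow_left₀ (by linarith) hZL 2
    have e4 : (16 : ℝ) ≤ L ^ 3 := by
      calc (16 : ℝ) ≤ 16 ^ 3 := by norm_num
        _ ≤ L ^ 3 := pow_le_pow_left₀ (by norm_num) hL16 3
    have e3 : 64 * Z0 L y ^ 2 * L ^ 6 ≤ hh L * L ^ 10 := by
      calc 64 * Z0 L y ^ 2 * L ^ 6 ≤ 64 * L ^ 2 * L ^ 6 := by gcongr
        _ = 16 * (4 * L ^ 8) := by ring
        _ ≤ L ^ 3 * (4 * L ^ 8) := mul_le_mul_of_nonneg_right e4 (by positivity)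
        _ = (4 * L) * L ^ 10 := by ring
        _ ≤ hh L * L ^ 10 := mul_le_mul_of_nonneg_right hh4 (by positivity)
    calc 64 * (HH N : ℝ) * Z0 L y ^ 2 * L ^ 6 = HH N * (64 * Z0 L y ^ 2 * L ^ 6) := by ring
      _ ≤ HH N * (hh L * L ^ 10) := mul_le_mul_of_nonneg_left e3 hH0.le
  -- the exceptional integers
  set I : Finset ℤ := Finset.Icc ⌈(HH N : ℝ) * Real.log N⌉ ⌊(HH N : ℝ) * Real.log (2 * N)⌋ with hI
  set E2 : Finset ℤ := I.filter (fun u => a < |g (u : ZMod (QQ N L))|) with hE2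
  have hlog2N : Real.log (2 * N) = Real.log 2 + Real.log N :=
    Real.log_mul (by norm_num) hN0.ne'
  have hE2card : (E2.card : ℝ) ≤ HH N / L ^ 6 := by
    refine le_trans ?_ (hcheb.trans hbd)
    have : E2.card ≤ ((Finset.univ : Finset (ZMod (QQ N L))).filter fun i => a < |g i|).card := by
      refine Finset.card_le_card_of_injOn (fun u : ℤ => (u : ZMod (QQ N L))) ?_ ?_
      · intro u hu
        have hu' := (Finset.mem_filter.1 hu).2
        simpa using hu'
      · intro u hu v hv huv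
        have hu1 := Finset.mem_Icc.1 (Finset.mem_filter.1 hu).1
        have hv1 := Finset.mem_Icc.1 (Finset.mem_filter.1 hv).1
        have u1 := Int.ceil_le.1 hu1.1
        have u2 := Int.le_floor.1 hu1.2
        have v1 := Int.ceil_le.1 hv1.1
        have v2 := Int.le_floor.1 hv1.2
        have hl2 : Real.log 2 < 1 := by
          have := Real.log_two_lt_d9
          linarith
        have hdiff : |((u - v : ℤ) : ℝ)| < QQ N L := by
          push_cast
          rw [abs_lt, hQeq]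
          have hHQ : (HH N : ℝ) ≤ hh L * HH N := by nlinarith
          constructor <;> nlinarith
        have hdvd : ((QQ N L : ℕ) : ℤ) ∣ u - v := by
          have := (ZMod.intCast_eq_intCast_iff_dvd_sub v u (QQ N L)).1 huv.symm
          exact this
        have habs : |u - v| < ((QQ N L : ℕ) : ℤ) := by
          have : ((|u - v| : ℤ) : ℝ) < ((QQ N L : ℕ) : ℤ) := by
            push_cast
            push_cast at hdiff
            exact hdiff
          exact_mod_cast this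
        have := Int.eq_zero_of_abs_lt_dvd hdvd habs
        omega
    exact_mod_cast this
  refine ⟨E1 ∪ E2, ?_, ?_⟩
  · have : ((E1 ∪ E2).card : ℝ) ≤ E1.card + E2.card := by exact_mod_cast Finset.card_union_le _ _
    linarith
  · intro u hu1 hu2 huE
    rw [Finset.mem_union, not_or] at huE
    have hb := hE1u u hu1 hu2 huE.1
    have hgu : |g (u : ZMod (QQ N L))| ≤ a := by
      by_contra hcon
      rw [not_le] at hcon
      exact huE.2 (Finset.mem_filter.2 ⟨Finset.mem_Icc.2 ⟨Int.ceil_le.2 hu1, Int.le_floor.2 hu2⟩, hcon⟩)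
    have hge := (abs_le.1 hgu).1
    have hsplit : 1 / (4 * (HH N : ℝ) * Z0 L y) = a + a := by
      rw [ha]
      field_simp
      norm_num
    have hgdef : g (u : ZMod (QQ N L)) = fW p (Wd N y) u - fW p (Wb N y) u := rfl
    rw [hsplit] at hb
    linarith

end MP14ee70.TY
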