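import Mathlib
import Pool.Agent.Lib.MP_14ee70_nt.Lin

/-!
# Project TY, file P/Sq: linear algebra mod 2

`MP14ee70.exists_square_subset` (file `Lib/MP_14ee70_nt/Lin.lean`) needs more than `k` smooth integers none of which
is a square.  If two different elements are squares take these two; otherwise remove the (at most one) square.
-/

namespace MP14ee70.TY

open Finset

/-- `{n, …, n+t}` has a subset with at least two elements and square product. -/
def HasSq (n t : ℕ) : Prop := ∃ S : Finset ℕ, S ⊆ Finset.Icc n (n + t) ∧ 2 ≤ S.card ∧ IsSquare (∏ a ∈ S, a)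

theorem hasSq_of_smooth (n t k : ℕ)
    (h : k + 2 ≤ ((Finset.Icc n (n + t)).filter (fun m => m ∈ Nat.smoothNumbers (k + 1))).card) :
    HasSq n t := by
  classical
  set T := (Finset.Icc n (n + t)).filter (fun m => m ∈ Nat.smoothNumbers (k + 1)) with hT
  have hTI : T ⊆ Finset.Icc n (n + t) := Finset.filter_subset _ _
  have hTs : ∀ a ∈ T, a ∈ Nat.smoothNumbers (k + 1) := fun a ha => (Finset.mem_filter.1 ha).2
  by_cases hsq : ∃ a ∈ T, ∃ b ∈ T, a ≠ b ∧ IsSquare a ∧ IsSquare b
  · obtain ⟨a, ha, b, hb, hab, hsa, hsb⟩ := hsq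
    refine ⟨{a, b}, ?_, ?_, ?_⟩
    · intro x hx
      rw [Finset.mem_insert, Finset.mem_singleton] at hx
      rcases hx with rfl | rfl
      · exact hTI ha
      · exact hTI hb
    · rw [Finset.card_pair hab]
    · rw [Finset.prod_pair hab]
      exact hsa.mul hsb
  · have h1 : (T.filter fun a => IsSquare a).card ≤ 1 := by
      rw [Finset.card_le_one]
      intro a ha b hb
      rw [Finset.mem_filter] at ha hb
      by_contra hab
      exact hsq ⟨a, ha.1, b, hb.1, hab, ha.2, hb.2⟩
    have h2 := Finset.card_filter_add_card_filter_not (s := T) (fun a => IsSquare a)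
    obtain ⟨S, hS, hS2, hSq⟩ := MP14ee70.exists_square_subset
      (T.filter fun a => ¬ IsSquare a) k
      (fun a ha => hTs a (Finset.mem_filter.1 ha).1) (by omega)
      (fun a ha => (Finset.mem_filter.1 ha).2)
    exact ⟨S, hS.trans ((Finset.filter_subset _ _).trans hTI), hS2, hSq⟩

end MP14ee70.TY
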